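import Pool.Agent.Lib.MP_355270_an.CB.J

/-!
# Definitions for Part B
-/

open Filter Topology
open scoped ENNReal

namespace Pool.Agent.Lib.MP_355270_an.CB

instance fact_one_le_three : Fact ((1 : ℝ≥0∞) ≤ 3) := ⟨by norm_num⟩

/-! ### Signs and averages over signs -/

/-- The sign of a Boolean. -/
def sg (b : Bool) : ℝ := if b then 1 else -1

@[simp] theorem sg_true : sg true = 1 := rfl
@[simp] theorem sg_false : sg false = -1 := rfl
theorem sg_sq (b : Bool) : sg b ^ 2 = 1 := by cases b <;> norm_num [sg]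
theorem sg_mul_self (b : Bool) : sg b * sg b = 1 := by cases b <;> norm_num [sg]
theorem abs_sg (b : Bool) : |sg b| = 1 := by cases b <;> norm_num [sg]

/-- Average over all signs. -/
noncomputable def rad {ι : Type} [Fintype ι] [DecidableEq ι] (f : (ι → Bool) → ℝ) : ℝ :=
  (∑ θ, f θ) / 2 ^ Fintype.card ι

/-- The cotype-like inequality. -/
def CT (Y : Type) [NormedAddCommGroup Y] [NormedSpace ℝ Y] (r K : ℝ) : Prop :=
  ∀ (m : ℕ) (y : Fin m → Y), (∑ b, ‖y b‖ ^ r) ^ (3 / r) ≤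
    K ^ 3 * rad fun θ : Fin m → Bool => ‖∑ b, sg (θ b) • y b‖ ^ 3

/-! ### Walsh functions -/

/-- The Walsh functions. -/
def walsh {m : ℕ} (a g : Fin m → Bool) : ℝ := ∏ i, if a i && g i then (-1 : ℝ) else 1

theorem walsh_symm {m : ℕ} (a g : Fin m → Bool) : walsh a g = walsh g a := by
  unfold walsh
  refine Finset.prod_congr rfl fun i _ => ?_
  rw [Bool.and_comm]

theorem abs_walsh {m : ℕ} (a g : Fin m → Bool) : |walsh a g| = 1 := by
  unfold walsh
  rw [Finset.abs_prod]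
  refine Finset.prod_eq_one fun i _ => ?_
  split_ifs <;> simp

theorem walsh_sq {m : ℕ} (a g : Fin m → Bool) : walsh a g ^ 2 = 1 := by
  rw [← sq_abs, abs_walsh, one_pow]

/-- Orthogonality of the Walsh functions. -/
theorem walsh_orth (m : ℕ) (a b : Fin m → Bool) :
    ∑ g, walsh a g * walsh b g = if a = b then (2 : ℝ) ^ m else 0 := by
  have h1 : ∀ g : Fin m → Bool, walsh a g * walsh b g =
      ∏ i, ((if a i && g i then (-1 : ℝ) else 1) * (if b i && g i then (-1 : ℝ) else 1)) := by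
    intro g
    unfold walsh
    rw [Finset.prod_mul_distrib]
  simp_rw [h1]
  have h2 := Finset.prod_univ_sum (ι := Fin m) (κ := fun _ => Bool) (R := ℝ)
    (fun _ => Finset.univ)
    (fun i x => (if a i && x then (-1 : ℝ) else 1) * (if b i && x then (-1 : ℝ) else 1))
  rw [Fintype.piFinset_univ] at h2
  rw [← h2]
  have h3 : ∀ i, (∑ x : Bool, (if a i && x then (-1 : ℝ) else 1) *
      (if b i && x then (-1 : ℝ) else 1)) = if a i = b i then 2 else 0 := by
    intro i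
    cases a i <;> cases b i <;> norm_num
  rw [Finset.prod_congr rfl fun i _ => h3 i]
  split_ifs with h
  · subst h
    simp
  · have : ∃ i, a i ≠ b i := by
      by_contra hh
      push Not at hh
      exact h (funext hh)
    obtain ⟨i, hi⟩ := this
    exact Finset.prod_eq_zero (Finset.mem_univ i) (if_neg hi)

/-- The Walsh matrix divided by the square root of its size (symmetric and orthogonal). -/
noncomputable def Sw (κ : ℕ) : Matrix (Fin κ → Bool) (Fin κ → Bool) ℝ :=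
  fun a b => walsh a b / Real.sqrt (2 ^ κ)

theorem Sw_symm (κ : ℕ) (a b : Fin κ → Bool) : Sw κ a b = Sw κ b a := by
  unfold Sw
  rw [walsh_symm]

theorem Sw_mul_self (κ : ℕ) : Sw κ * Sw κ = 1 := by
  ext a b
  rw [Matrix.mul_apply, Matrix.one_apply]
  have h : ∀ g, Sw κ a g * Sw κ g b = (walsh a g * walsh b g) / 2 ^ κ := by
    intro g
    unfold Sw
    rw [walsh_symm g b, div_mul_div_comm, Real.mul_self_sqrt (by positivity)]
  simp_rw [h]
  rw [← Finset.sum_div, walsh_orth]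
  split_ifs
  · rw [div_self (by positivity)]
  · rw [zero_div]

theorem Sw_mulVec_mulVec (κ : ℕ) (x : (Fin κ → Bool) → ℝ) :
    (Sw κ).mulVec ((Sw κ).mulVec x) = x := by
  rw [Matrix.mulVec_mulVec, Sw_mul_self, Matrix.one_mulVec]

theorem abs_Sw (κ : ℕ) (a b : Fin κ → Bool) : |Sw κ a b| = 1 / Real.sqrt (2 ^ κ) := by
  unfold Sw
  rw [abs_div, abs_walsh, abs_of_nonneg (Real.sqrt_nonneg _)]

/-! ### The Davie space -/

/-- What is needed of the Davie space. -/
structure DavieSp (κ : ℕ) where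
  V : Type
  [i1 : NormedAddCommGroup V]
  [i2 : NormedSpace ℝ V]
  [i3 : CompleteSpace V]
  e : (Fin κ → Bool) → V
  F : (Fin κ → Bool) → V →L[ℝ] ℝ
  Vs : ℕ → Submodule ℝ V
  mono : Monotone Vs
  fin : ∀ j, FiniteDimensional ℝ (Vs j)
  dense : Dense (⋃ j, (Vs j : Set V))
  hF : ∀ a b, F a (e b) = if a = b then 1 else 0
  hF2 : ∀ y, ∑ a, (F a y) ^ 2 ≤ ‖y‖ ^ 2
  he : ∀ a, ‖e a‖ ≤ 1
  htr : ∀ T : V →L[ℝ] V, FR T →
    |(1 / (2 : ℝ) ^ κ) * ∑ a, F a (T (e a))| ≤ 50 * (2 : ℝ) ^ (-(κ : ℝ) / 6) * ‖T‖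
  hS : (1 / (2 : ℝ) ^ κ) * ∑ j, ‖∑ a, Sw κ j a • e a‖ ≤ 2
  hCT : CT V 3 1

attribute [instance] DavieSp.i1 DavieSp.i2 DavieSp.i3

/-! ### Sign matrices -/

section Rigid

variable {I : Type} [Fintype I] [DecidableEq I]

/-- The sign matrix `g` divided by `sqrt |I|`. -/
noncomputable def Gm (g : I → I → Bool) : Matrix I I ℝ :=
  fun a b => sg (g a b) / Real.sqrt (Fintype.card I)

/-- The `s`-th power of the norm `max (|x|_s, |G x|_s, |S x|_s)` (up to a constant). -/
noncomputable def Qs (s : ℝ) (G S : Matrix I I ℝ) (x : I → ℝ) : ℝ :=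
  ∑ a, |x a| ^ s + ∑ a, |(G.mulVec x) a| ^ s + ∑ a, |(S.mulVec x) a| ^ s

/-- The square of the Hilbert-Schmidt norm. -/
def HS2 (M : Matrix I I ℝ) : ℝ := ∑ a, ∑ b, M a b ^ 2

/-- The operator norm of `G` on `ℓ_2` is at most `K`. -/
def OPle (K : ℝ) (G : Matrix I I ℝ) : Prop := ∀ x : I → ℝ, ∑ a, (G.mulVec x a) ^ 2 ≤ K ^ 2 * ∑ a, x a ^ 2

/-- The matrix `M` is bounded from level `g` to level `g'`. -/
def Bdd (s C : ℝ) (S : Matrix I I ℝ) (g g' : I → I → Bool) (M : Matrix I I ℝ) : Prop :=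
  (∀ x, ∑ a, |(M.mulVec x) a| ^ s ≤ C ^ s * Qs s (Gm g) S x) ∧
    ∀ x, ∑ a, |((Gm g' * M).mulVec x) a| ^ s ≤ C ^ s * Qs s (Gm g) S x

end Rigid

/-- The rigid lemma. -/
def Rigid : Prop :=
  ∀ (s C ε : ℝ) (N : ℕ), 2 < s → s ≤ 4 → 1 ≤ C → 0 < ε → ∃ k0 : ℕ,
    ∀ (I : Type) [Fintype I] [DecidableEq I], k0 ≤ Fintype.card I → ∀ S : Matrix I I ℝ,
    OPle 1 S → ∃ g : Fin (N + 1) → I → I → Bool,
    ∀ (n n' : Fin (N + 1)) (M : Matrix I I ℝ), Bdd s C S (g n) (g n') M →
      (n ≠ n' → HS2 M ≤ ε * Fintype.card I) ∧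
      (n = n' → ∃ c : ℝ, HS2 (M - c • (1 : Matrix I I ℝ)) ≤ ε * Fintype.card I)

/-! ### The block -/

/-- Parameters of a block. -/
structure BP where
  κ : ℕ
  N : ℕ
  s : ℝ
  ρ : ℝ
  Dv : DavieSp κ
  g : Fin (N + 1) → (Fin κ → Bool) → (Fin κ → Bool) → Bool
  hs3 : 3 < s
  hs4 : s ≤ 4
  hρ : 0 < ρ
  hρ1 : ρ ≤ 1
  hN : 1 ≤ N

namespace BP

variable (P : BP)

/-- The index set of the frames. -/
abbrev I : Type := Fin P.κ → Bool

/-- The number of frames. -/
abbrev k : ℝ := (2 : ℝ) ^ P.κ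

/-- The index set of the coordinates. -/
abbrev Ix : Type := Fin 3 × Fin (P.N + 1) × P.I

/-- The space of the block: heads `x = (x_0, ..., x_N)` and an element of the Davie space. -/
def UT : Type := (Fin (P.N + 1) → P.I → ℝ) × P.Dv.V

noncomputable instance : AddCommGroup P.UT :=
  inferInstanceAs (AddCommGroup ((Fin (P.N + 1) → P.I → ℝ) × P.Dv.V))

noncomputable instance : Module ℝ P.UT :=
  inferInstanceAs (Module ℝ ((Fin (P.N + 1) → P.I → ℝ) × P.Dv.V))

variable {P}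

/-- The head of an element. -/
def hd (u : P.UT) : Fin (P.N + 1) → P.I → ℝ := u.1

/-- The Davie part of an element. -/
def vp (u : P.UT) : P.Dv.V := u.2

/-- Constructor. -/
def el (x : Fin (P.N + 1) → P.I → ℝ) (y : P.Dv.V) : P.UT := (x, y)

/-- The partial sums `σ_n = x_0 + ... + x_n`. -/
noncomputable def sig (x : Fin (P.N + 1) → P.I → ℝ) (n : Fin (P.N + 1)) (a : P.I) : ℝ :=
  ∑ l ∈ Finset.univ.filter (fun l : Fin (P.N + 1) => l ≤ n), x l a

/-- The coordinates of an element, which define the norm. -/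
noncomputable def co (u : P.UT) : P.Ix → ℝ := fun q =>
  if q.1 = 0 then
    (if q.2.1 = Fin.last P.N then sig (hd u) q.2.1 q.2.2 + P.Dv.F q.2.2 (vp u)
      else (1 / (P.N : ℝ)) ^ (1 / P.s) * sig (hd u) q.2.1 q.2.2)
  else if q.1 = 1 then (Gm (P.g q.2.1)).mulVec (hd u q.2.1) q.2.2
  else (Sw P.κ).mulVec (hd u q.2.1) q.2.2

/-- The `s`-th power of the seminorm `A`. -/
noncomputable def As (u : P.UT) : ℝ := ∑ q, |co u q| ^ P.s

@[simp] theorem hd_add (u v : P.UT) : hd (u + v) = hd u + hd v := rfl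
@[simp] theorem vp_add (u v : P.UT) : vp (u + v) = vp u + vp v := rfl
@[simp] theorem hd_sub (u v : P.UT) : hd (u - v) = hd u - hd v := rfl
@[simp] theorem vp_sub (u v : P.UT) : vp (u - v) = vp u - vp v := rfl
@[simp] theorem hd_smul (c : ℝ) (u : P.UT) : hd (c • u) = c • hd u := rfl
@[simp] theorem vp_smul (c : ℝ) (u : P.UT) : vp (c • u) = c • vp u := rfl
@[simp] theorem hd_zero : hd (0 : P.UT) = 0 := rfl
@[simp] theorem vp_zero : vp (0 : P.UT) = 0 := rfl
@[simp] theorem hd_el (x : Fin (P.N + 1) → P.I → ℝ) (y : P.Dv.V) : hd (el x y) = x := rfl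
@[simp] theorem vp_el (x : Fin (P.N + 1) → P.I → ℝ) (y : P.Dv.V) : vp (el x y) = y := rfl

theorem ext {u v : P.UT} (h1 : hd u = hd v) (h2 : vp u = vp v) : u = v := Prod.ext h1 h2

theorem sig_add (x y : Fin (P.N + 1) → P.I → ℝ) (n : Fin (P.N + 1)) (a : P.I) :
    sig (x + y) n a = sig x n a + sig y n a := by
  simp [sig, Finset.sum_add_distrib]

theorem sig_smul (c : ℝ) (x : Fin (P.N + 1) → P.I → ℝ) (n : Fin (P.N + 1)) (a : P.I) :
    sig (c • x) n a = c * sig x n a := by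
  simp [sig, Finset.mul_sum]

theorem co_add (u v : P.UT) : co (u + v) = co u + co v := by
  funext q
  simp only [co, hd_add, vp_add, Pi.add_apply, sig_add, map_add, Matrix.mulVec_add]
  split_ifs <;> ring

theorem co_smul (c : ℝ) (u : P.UT) : co (c • u) = c • co u := by
  funext q
  simp only [co, hd_smul, vp_smul, Pi.smul_apply, sig_smul, map_smul, Matrix.mulVec_smul,
    smul_eq_mul]
  split_ifs <;> ring

theorem s_pos : 0 < P.s := by linarith [P.hs3]

instance : Fact (1 ≤ ENNReal.ofReal P.s) :=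
  ⟨by rw [← ENNReal.ofReal_one]; exact ENNReal.ofReal_le_ofReal (by linarith [P.hs3])⟩

variable (P)

/-- The space of coordinates. -/
abbrev Co : Type := PiLp (ENNReal.ofReal P.s) (fun _ : P.Ix => ℝ)

/-- The embedding that defines the norm. -/
noncomputable def Phi : P.UT →ₗ[ℝ] P.Co × P.Dv.V where
  toFun u := (WithLp.toLp _ (co u), P.ρ • vp u)
  map_add' u v := by
    refine Prod.ext ?_ ?_
    · show WithLp.toLp _ (co (u + v)) = WithLp.toLp _ (co u) + WithLp.toLp _ (co v)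
      rw [co_add]
      rfl
    · show P.ρ • vp (u + v) = P.ρ • vp u + P.ρ • vp v
      rw [vp_add, smul_add]
  map_smul' c u := by
    refine Prod.ext ?_ ?_
    · show WithLp.toLp _ (co (c • u)) = c • WithLp.toLp _ (co u)
      rw [co_smul]
      rfl
    · show P.ρ • vp (c • u) = c • (P.ρ • vp u)
      rw [vp_smul, smul_comm]

theorem Phi_injective : Function.Injective P.Phi := by
  rw [injective_iff_map_eq_zero]
  intro u hu
  have h1 : co u = 0 := by
    have h : WithLp.toLp (ENNReal.ofReal P.s) (co u) = 0 := congrArg Prod.fst hu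
    exact (WithLp.toLp_injective (ENNReal.ofReal P.s)) h
  have h2 : P.ρ • vp u = 0 := congrArg Prod.snd hu
  have h3 : vp u = 0 := (smul_eq_zero.1 h2).resolve_left P.hρ.ne'
  refine ext ?_ h3
  funext n
  have h4 : (Sw P.κ).mulVec (hd u n) = 0 := by
    funext a
    have := congrFun h1 ((2 : Fin 3), n, a)
    simpa [co] using this
  rw [← Sw_mulVec_mulVec P.κ (hd u n), h4, Matrix.mulVec_zero]
  rfl

noncomputable instance : NormedAddCommGroup P.UT :=
  NormedAddCommGroup.induced P.UT (P.Co × P.Dv.V) P.Phi P.Phi_injective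

noncomputable instance : NormedSpace ℝ P.UT :=
  NormedSpace.induced ℝ P.UT (P.Co × P.Dv.V) P.Phi

variable {P}

theorem norm_def (u : P.UT) : ‖u‖ = ‖P.Phi u‖ := rfl

theorem As_nonneg (u : P.UT) : 0 ≤ As u :=
  Finset.sum_nonneg fun _ _ => Real.rpow_nonneg (abs_nonneg _) _

theorem norm_eq (u : P.UT) : ‖u‖ = max (As u ^ (1 / P.s)) (P.ρ * ‖vp u‖) := by
  rw [norm_def, Prod.norm_def]
  congr 1
  · show ‖WithLp.toLp (ENNReal.ofReal P.s) (co u)‖ = _
    rw [PiLp.norm_eq_sum (by rw [ENNReal.toReal_ofReal s_pos.le]; exact s_pos)]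
    rw [ENNReal.toReal_ofReal s_pos.le]
    rfl
  · show ‖P.ρ • vp u‖ = _
    rw [norm_smul, Real.norm_eq_abs, abs_of_pos P.hρ]

variable (P)

/-- The subspace of the heads. -/
def Hd : Submodule ℝ P.UT where
  carrier := {u | vp u = 0}
  zero_mem' := rfl
  add_mem' := by
    intro a b ha hb
    show vp (a + b) = 0
    rw [vp_add, show vp a = 0 from ha, show vp b = 0 from hb, add_zero]
  smul_mem' := by
    intro c a ha
    show vp (c • a) = 0
    rw [vp_smul, show vp a = 0 from ha, smul_zero]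

theorem mem_Hd (u : P.UT) : u ∈ P.Hd ↔ vp u = 0 := Iff.rfl

/-- The frame vector `v_(n, a)`. -/
noncomputable def vv (n : ℕ) (a : P.I) : P.Hd :=
  ⟨el (Pi.single (⟨min n P.N, by omega⟩ : Fin (P.N + 1)) (Pi.single a 1)) 0, rfl⟩

end BP

end Pool.Agent.Lib.MP_355270_an.CB
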