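import Pool.Agent.Lib.MP_355270_an.CB.DefB

/-!
# Definitions for the Davie space
-/

open Filter Topology
open scoped ENNReal

namespace Pool.Agent.Lib.MP_355270_an.CB

/-- The choices in the Davie space. Level `t` of the paper is `k = κ + t`. -/
structure DD (κ : ℕ) where
  a : ∀ t : ℕ, (Fin (κ + t) → Bool) → (Fin (κ + t + 2) → Bool)
  b : ∀ t : ℕ, (Fin (κ + t + 1) → Bool) → (Fin (κ + t + 2) → Bool)
  σ : ∀ t : ℕ, (Fin (κ + t) → Bool) → Bool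
  ha : ∀ t, Function.Injective (a t)
  hb : ∀ t, Function.Injective (b t)
  hab : ∀ t i j, a t i ≠ b t j
  F1 : ∀ t, ∑ g : Fin (κ + t + 2) → Bool, ∑ h : Fin (κ + t + 2) → Bool,
    (∑ j, walsh (b t j) g * walsh (b t j) h - 2 * ∑ j, walsh (a t j) g * walsh (a t j) h) ^ 4 ≤
      1024 * 4 ^ (κ + t) * (2 ^ (κ + t + 2) * 2 ^ (κ + t + 2))
  F2 : ∀ t, ∑ g : Fin (κ + (t + 1) + 2) → Bool, ∑ h : Fin (κ + t + 2) → Bool,
    (∑ j : Fin (κ + t + 1) → Bool, sg (σ (t + 1) j) * walsh (a (t + 1) j) g * walsh (b t j) h) ^ 4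
      ≤ 3 * 4 ^ (κ + t + 1) * (2 ^ (κ + (t + 1) + 2) * 2 ^ (κ + t + 2))
  F3 : ∑ i : Fin κ → Bool, ∑ g : Fin (κ + 0 + 2) → Bool,
    (∑ j : Fin κ → Bool, sg (σ 0 j) * Sw κ i j * walsh (a 0 j) g) ^ 4 ≤
      3 * (2 ^ κ * 2 ^ (κ + 2))

/-- The points. -/
abbrev Om (κ : ℕ) : Type := Σ t : ℕ, (Fin (κ + t + 2) → Bool)

/-- The space `ℓ_3` of the points. -/
abbrev L3 (κ : ℕ) : Type := lp (fun _ : Om κ => ℝ) 3

/-- Number of points of level `t`. -/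
noncomputable def nu (κ t : ℕ) : ℝ := 2 ^ (κ + t + 2)

/-- The function `φ` on the points of level `t` (norm = normalised `L_3` norm of `φ`). -/
noncomputable def gl (κ t : ℕ) (φ : (Fin (κ + t + 2) → Bool) → ℝ) : L3 κ :=
  ∑ g, lp.single 3 (⟨t, g⟩ : Om κ) (nu κ t ^ (-(1 / 3 : ℝ)) * φ g)

/-- The value at the point `g` of level `t`. -/
noncomputable def ev (κ t : ℕ) (g : Fin (κ + t + 2) → Bool) : L3 κ →L[ℝ] ℝ :=
  nu κ t ^ (1 / 3 : ℝ) • lp.evalCLM ℝ (fun _ : Om κ => ℝ) 3 ⟨t, g⟩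

namespace DD

variable {κ : ℕ} (d : DD κ)

/-- The vectors `e_j` of level `t`. -/
noncomputable def e : ∀ t : ℕ, (Fin (κ + t) → Bool) → L3 κ
  | 0, j => gl κ 0 fun g => sg (d.σ 0 j) * walsh (d.a 0 j) g
  | t + 1, j => gl κ (t + 1) (fun g => sg (d.σ (t + 1) j) * walsh (d.a (t + 1) j) g) +
      gl κ t fun h => walsh (d.b t j) h

/-- The coefficient functional, computed on level `t`. -/
noncomputable def Fa (t : ℕ) (j : Fin (κ + t) → Bool) : L3 κ →L[ℝ] ℝ :=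
  ∑ g, (sg (d.σ t j) * walsh (d.a t j) g / nu κ t) • ev κ t g

/-- The coefficient functional of level `t + 1`, computed on level `t`. -/
noncomputable def Fb (t : ℕ) (j : Fin (κ + t + 1) → Bool) : L3 κ →L[ℝ] ℝ :=
  ∑ g, (walsh (d.b t j) g / nu κ t) • ev κ t g

/-- The span of the vectors up to level `n`. -/
noncomputable def Sp (n : ℕ) : Submodule ℝ (L3 κ) :=
  Submodule.span ℝ {x | ∃ t, t ≤ n ∧ ∃ j, x = d.e t j}

/-- The Davie space. -/
noncomputable def V : Submodule ℝ (L3 κ) :=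
  (Submodule.span ℝ {x | ∃ t j, x = d.e t j}).topologicalClosure

theorem e_mem (t : ℕ) (j : Fin (κ + t) → Bool) : d.e t j ∈ d.V :=
  Submodule.le_topologicalClosure _ (Submodule.subset_span ⟨t, j, rfl⟩)

/-- The vectors as elements of `V`. -/
noncomputable def eV (t : ℕ) (j : Fin (κ + t) → Bool) : d.V := ⟨d.e t j, d.e_mem t j⟩

/-- The normalised traces `β_t(T)`. -/
noncomputable def beta (T : d.V →L[ℝ] d.V) (t : ℕ) : ℝ :=
  (1 / 2 ^ (κ + t)) * ∑ j, d.Fa t j ((T (d.eV t j) : d.V) : L3 κ)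

/-- The vectors `Φ_g`. -/
noncomputable def Ph (t : ℕ) (g : Fin (κ + t + 2) → Bool) : d.V :=
  ∑ j : Fin (κ + t + 1) → Bool, walsh (d.b t j) g • d.eV (t + 1) j -
    (2 : ℝ) • ∑ j : Fin (κ + t) → Bool, (sg (d.σ t j) * walsh (d.a t j) g) • d.eV t j

end DD

end Pool.Agent.Lib.MP_355270_an.CB
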