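import Pool.Agent.Lib.MP_355270_an.CB.DefB

/-!
# Blocks and their sum: definitions
-/

open Filter Topology
open scoped ENNReal

namespace Pool.Agent.Lib.MP_355270_an.CB

/-- A block (B.1 of the paper). -/
structure Block (s : ℝ) (N : ℕ) (ε : ℝ) where
  U : Type
  [i1 : NormedAddCommGroup U]
  [i2 : NormedSpace ℝ U]
  [i3 : CompleteSpace U]
  ι : Type
  [j1 : Fintype ι]
  [j2 : DecidableEq ι]
  [j3 : Nonempty ι]
  F : Submodule ℝ U
  v : ℕ → ι → F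
  Ξ : ι → U →L[ℝ] ℝ
  D : U →L[ℝ] U
  E : ℕ → Submodule ℝ U
  mono : Monotone E
  fin : ∀ j, FiniteDimensional ℝ (E j)
  dense : Dense (⋃ j, (E j : Set U))
  hFE : F ≤ E 0
  hDE : ∀ j, ∀ x ∈ E j, D x ∈ E j
  hDF : ∀ x, x - D x ∈ F
  hD : ‖D‖ ≤ 3
  hv : ∀ n a, ‖v n a‖ ≤ 2
  hΞ : ∀ a, ‖Ξ a‖ ≤ 1
  hone : ∀ n a, n ≤ N → Ξ a (v n a : U) = 1
  heig : ∀ n a, n ≤ N → D (v n a : U) = ((n : ℝ) / (N : ℝ)) • (v n a : U)
  hclose : ∀ n a, n < N → ‖(v n a : U) - (v (n + 1) a : U)‖ ≤ (2 / (N : ℝ)) ^ (1 / 4 : ℝ)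
  hfr : ∀ T : U →L[ℝ] U, FR T → ‖av Ξ (fun a => T (v N a : U))‖ ≤ ε * ‖T‖
  hmul : ∀ n (A : U →L[ℝ] U) (B : F →L[ℝ] U), n ≤ N →
    ‖av Ξ (fun a => A (B (v n a))) - av Ξ (fun a => A (v n a : U)) * av Ξ (fun a => B (v n a))‖ ≤
      ε * ‖A‖ * ‖B‖
  hC1 : ∀ n, n ≤ N → rad (fun θ : ι → Bool => ‖∑ a, sg (θ a) • v n a‖ ^ 3) ≤
    (10 * (Fintype.card ι : ℝ)) ^ (3 / s)
  hC2 : CT U s 2
  hC3 : ∃ K : ℝ, 1 ≤ K ∧ CT U 3 K

attribute [instance] Block.i1 Block.i2 Block.i3 Block.j1 Block.j2 Block.j3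

/-- The block theorem. -/
def BlockThm : Prop :=
  ∀ (s : ℝ) (N : ℕ) (ε K r : ℝ), 3 < s → s ≤ 4 → 2 ≤ N → 0 < ε → 1 ≤ K → 3 ≤ r → r < s →
    ∃ B : Block s N ε,
      K * (10 * (Fintype.card B.ι : ℝ)) ^ (1 / s) * (Fintype.card B.ι : ℝ) ^ (-(1 / r)) ≤ ε

/-! ### The concrete block -/

namespace BP

variable (P : BP)

/-- The embedding as a linear isometry. -/
noncomputable def PhiI : P.UT →ₗᵢ[ℝ] P.Co × P.Dv.V := ⟨P.Phi, fun _ => rfl⟩

theorem abs_co_le {P : BP} (u : P.UT) (q : P.Ix) : |co u q| ≤ ‖u‖ := by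
  have h1 : ‖(P.Phi u).1‖ ≤ ‖u‖ := by
    rw [norm_def]
    exact norm_fst_le _
  have h2 := PiLp.norm_apply_le (P.Phi u).1 q
  exact h2.trans h1

theorem abs_co_le_As {P : BP} (u : P.UT) (q : P.Ix) : |co u q| ^ P.s ≤ As u :=
  Finset.single_le_sum (f := fun q => |co u q| ^ P.s)
    (fun _ _ => Real.rpow_nonneg (abs_nonneg _) _) (Finset.mem_univ q)

theorem As_rpow_le {P : BP} (u : P.UT) : As u ≤ ‖u‖ ^ P.s := by
  have h1 : As u ^ (1 / P.s) ≤ ‖u‖ := by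
    rw [norm_eq]
    exact le_max_left _ _
  have h2 := Real.rpow_le_rpow (Real.rpow_nonneg (As_nonneg u) _) h1 (s_pos (P := P)).le
  rwa [← Real.rpow_mul (As_nonneg u), one_div_mul_cancel (s_pos (P := P)).ne', Real.rpow_one] at h2

theorem norm_vp_le {P : BP} (u : P.UT) : P.ρ * ‖vp u‖ ≤ ‖u‖ := by
  rw [norm_eq]
  exact le_max_right _ _

/-- The coordinate functionals. -/
noncomputable def coL (q : P.Ix) : P.UT →L[ℝ] ℝ :=
  LinearMap.mkContinuous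
    { toFun := fun u => co u q
      map_add' := fun u v => by rw [co_add]; rfl
      map_smul' := fun c u => by rw [co_smul]; rfl } 1
    fun u => by rw [one_mul]; exact abs_co_le u q

@[simp] theorem coL_apply (q : P.Ix) (u : P.UT) : P.coL q u = co u q := rfl

/-- The functionals `Ξ_a`. -/
noncomputable def Xi (a : P.I) : P.UT →L[ℝ] ℝ := P.coL (0, Fin.last P.N, a)

theorem Xi_apply (a : P.I) (u : P.UT) :
    P.Xi a u = sig (hd u) (Fin.last P.N) a + P.Dv.F a (vp u) := by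
  show co u (0, Fin.last P.N, a) = _
  simp [co]

/-- The matrix of an operator from level `n` to level `n'`. -/
noncomputable def MB (B : P.Hd →L[ℝ] P.UT) (n' n : Fin (P.N + 1)) : Matrix P.I P.I ℝ :=
  fun b a => hd (B (P.vv n a)) n' b

/-- The constant in the rigid lemma. -/
noncomputable def C1 : ℝ := 4 * P.N * (1 + 1 / P.ρ)

/-- The matrices `P.g` are rigid with the constants `C1`, `ε'`. -/
def RigP (ε' : ℝ) : Prop :=
  ∀ (n n' : Fin (P.N + 1)) (M : Matrix P.I P.I ℝ), Bdd P.s P.C1 (Sw P.κ) (P.g n) (P.g n') M →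
    (n ≠ n' → HS2 M ≤ ε' * P.k) ∧
    (n = n' → ∃ c : ℝ, HS2 (M - c • (1 : Matrix P.I P.I ℝ)) ≤ ε' * P.k)

/-- The normalised trace. -/
noncomputable def tr (M : Matrix P.I P.I ℝ) : ℝ := (1 / P.k) * ∑ a, M a a

/-- The small quantity `(10 k)^(1/s) k^(-1/3)`. -/
noncomputable def qk : ℝ := (10 * P.k) ^ (1 / P.s) * P.k ^ (-(1 / 3 : ℝ))

/-- The subspaces of the chain. -/
def Es (j : ℕ) : Submodule ℝ P.UT where
  carrier := {u | vp u ∈ P.Dv.Vs j}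
  zero_mem' := (P.Dv.Vs j).zero_mem
  add_mem' := by
    intro a b ha hb
    exact (P.Dv.Vs j).add_mem ha hb
  smul_mem' := by
    intro c a ha
    exact (P.Dv.Vs j).smul_mem c ha

end BP

/-! ### The sum -/

/-- The exponents, numbers of levels and errors of the blocks. -/
noncomputable def si (i : ℕ) : ℝ := 3 + 1 / ((i : ℝ) + 1)
def Ni (i : ℕ) : ℕ := i + 2
noncomputable def ei (i : ℕ) : ℝ := 1 / ((i : ℝ) + 1)

/-- A sequence of blocks. -/
abbrev BSeq : Type 1 := ∀ i : ℕ, Block (si i) (Ni i) (ei i)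

/-- The blocks are chosen one after the other. -/
def GoodSeq (B : BSeq) : Prop :=
  ∀ i, ∃ K : ℝ, 2 ≤ K ∧ (∀ j, j < i → CT (B j).U 3 K) ∧
    K * (10 * (Fintype.card (B i).ι : ℝ)) ^ (1 / si i) *
      (Fintype.card (B i).ι : ℝ) ^ (-(1 / si (i + 1))) ≤ ei i

/-- The sum of the blocks. -/
abbrev WS (B : BSeq) : Type := lp (fun i => (B i).U) 3

/-- The chain of subspaces of the sum. -/
def VW (B : BSeq) (j : ℕ) : Submodule ℝ (WS B) where
  carrier := {w | (∀ i, w i ∈ (B i).E j) ∧ ∀ i, j ≤ i → w i = 0}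
  zero_mem' := ⟨fun i => ((B i).E j).zero_mem, fun _ _ => rfl⟩
  add_mem' := by
    rintro a b ⟨ha, ha'⟩ ⟨hb, hb'⟩
    refine ⟨fun i => ((B i).E j).add_mem (ha i) (hb i), fun i hi => ?_⟩
    show a i + b i = 0
    rw [ha' i hi, hb' i hi, add_zero]
  smul_mem' := by
    rintro c a ⟨ha, ha'⟩
    refine ⟨fun i => ((B i).E j).smul_mem c (ha i), fun i hi => ?_⟩
    show c • a i = 0
    rw [ha' i hi, smul_zero]

/-- The inclusion of the `i`-th block. -/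
noncomputable def inB (B : BSeq) (i : ℕ) : (B i).U →L[ℝ] WS B :=
  lp.singleContinuousLinearMap ℝ (fun i => (B i).U) 3 i

/-- The projection onto the `i`-th block. -/
noncomputable def prB (B : BSeq) (i : ℕ) : WS B →L[ℝ] (B i).U :=
  lp.evalCLM ℝ (fun i => (B i).U) 3 i

end Pool.Agent.Lib.MP_355270_an.CB
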