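import Mathlib

/-!
# The James-type space `JS V`

`V j` is a sequence of subspaces of `W`; `JS V` is the space of all sequences `z` with `z j ∈ V j`
of bounded quadratic variation.
-/

open Filter Topology

namespace Pool.Agent.Lib.MP_355270_an.CB

universe u

section J

variable {W : Type u} [NormedAddCommGroup W]

/-- The increments of `z` along the indices `k 0, k 1, ...`. -/
def inc (z : ℕ → W) (k : ℕ → ℕ) : ℕ → W
  | 0 => z (k 0)
  | i + 1 => z (k (i + 1)) - z (k i)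

/-- The quadratic variation of `z` along `k 0, ..., k r`. -/
noncomputable def pv (z : ℕ → W) (r : ℕ) (k : ℕ → ℕ) : ℝ :=
  ∑ i ∈ Finset.range (r + 1), ‖inc z k i‖ ^ 2

/-- `z` has James norm at most `C`. -/
def JBd (z : ℕ → W) (C : ℝ) : Prop :=
  0 ≤ C ∧ ∀ (r : ℕ) (k : ℕ → ℕ), Monotone k → pv z r k ≤ C ^ 2

@[simp] theorem inc_zero (z : ℕ → W) (k : ℕ → ℕ) : inc z k 0 = z (k 0) := rfl

@[simp] theorem inc_succ (z : ℕ → W) (k : ℕ → ℕ) (i : ℕ) :
    inc z k (i + 1) = z (k (i + 1)) - z (k i) := rfl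

theorem inc_add (z z' : ℕ → W) (k : ℕ → ℕ) (i : ℕ) :
    inc (z + z') k i = inc z k i + inc z' k i := by
  cases i with
  | zero => rfl
  | succ i => simp only [inc_succ, Pi.add_apply]; abel

theorem inc_sub (z z' : ℕ → W) (k : ℕ → ℕ) (i : ℕ) :
    inc (z - z') k i = inc z k i - inc z' k i := by
  cases i with
  | zero => rfl
  | succ i => simp only [inc_succ, Pi.sub_apply]; abel

theorem pv_nonneg (z : ℕ → W) (r : ℕ) (k : ℕ → ℕ) : 0 ≤ pv z r k :=
  Finset.sum_nonneg fun _ _ => by positivity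

/-- Minkowski. -/
theorem sqrt_pv_add_le (z z' : ℕ → W) (r : ℕ) (k : ℕ → ℕ) :
    Real.sqrt (pv (z + z') r k) ≤ Real.sqrt (pv z r k) + Real.sqrt (pv z' r k) := by
  have h := Real.Lp_add_le_of_nonneg (s := Finset.range (r + 1)) (p := 2)
    (f := fun i => ‖inc z k i‖) (g := fun i => ‖inc z' k i‖) one_le_two
    (fun i _ => norm_nonneg _) (fun i _ => norm_nonneg _)
  have e : ∀ f : ℕ → ℝ, (∑ i ∈ Finset.range (r + 1), f i ^ (2 : ℝ)) ^ (1 / (2 : ℝ)) =
      Real.sqrt (∑ i ∈ Finset.range (r + 1), f i ^ 2) := by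
    intro f
    rw [Real.sqrt_eq_rpow]
    congr 1
    refine Finset.sum_congr rfl fun i _ => ?_
    rw [← Real.rpow_natCast]
    norm_num
  rw [e, e, e] at h
  refine le_trans (Real.sqrt_le_sqrt ?_) h
  refine Finset.sum_le_sum fun i _ => ?_
  refine pow_le_pow_left₀ (norm_nonneg _) ?_ 2
  rw [inc_add]
  exact norm_add_le _ _

theorem JBd.nonneg {z : ℕ → W} {C : ℝ} (h : JBd z C) : 0 ≤ C := h.1

theorem JBd.sqrt_le {z : ℕ → W} {C : ℝ} (h : JBd z C) (r : ℕ) (k : ℕ → ℕ) (hk : Monotone k) :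
    Real.sqrt (pv z r k) ≤ C := by
  rw [Real.sqrt_le_left h.1]
  exact h.2 r k hk

theorem JBd.zero : JBd (0 : ℕ → W) 0 := by
  refine ⟨le_rfl, fun r k _ => ?_⟩
  have : pv (0 : ℕ → W) r k = 0 := by
    refine Finset.sum_eq_zero fun i _ => ?_
    cases i <;> simp
  rw [this]
  norm_num

theorem JBd.add {z z' : ℕ → W} {C C' : ℝ} (h : JBd z C) (h' : JBd z' C') :
    JBd (z + z') (C + C') := by
  refine ⟨add_nonneg h.1 h'.1, fun r k hk => ?_⟩
  rw [← Real.sqrt_le_left (add_nonneg h.1 h'.1)]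
  exact (sqrt_pv_add_le z z' r k).trans (add_le_add (h.sqrt_le r k hk) (h'.sqrt_le r k hk))

theorem JBd.mono {z : ℕ → W} {C C' : ℝ} (h : JBd z C) (hC : C ≤ C') : JBd z C' :=
  ⟨h.1.trans hC, fun r k hk => (h.2 r k hk).trans (pow_le_pow_left₀ h.1 hC 2)⟩

theorem JBd.smul {𝕜 : Type*} [RCLike 𝕜] [NormedSpace 𝕜 W] {z : ℕ → W} {C : ℝ} (h : JBd z C)
    (c : 𝕜) : JBd (c • z) (‖c‖ * C) := by
  refine ⟨mul_nonneg (norm_nonneg _) h.1, fun r k hk => ?_⟩
  have : pv (c • z) r k = ‖c‖ ^ 2 * pv z r k := by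
    unfold pv
    rw [Finset.mul_sum]
    refine Finset.sum_congr rfl fun i _ => ?_
    have : inc (c • z) k i = c • inc z k i := by
      cases i with
      | zero => rfl
      | succ i => simp only [inc_succ, Pi.smul_apply, smul_sub]
    rw [this, norm_smul, mul_pow]
  rw [this, mul_pow]
  exact mul_le_mul_of_nonneg_left (h.2 r k hk) (by positivity)

theorem JBd.norm_le {z : ℕ → W} {C : ℝ} (h : JBd z C) (j : ℕ) : ‖z j‖ ≤ C := by
  have h1 := h.2 0 (fun _ => j) monotone_const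
  have : pv z 0 (fun _ => j) = ‖z j‖ ^ 2 := by simp [pv]
  rw [this] at h1
  exact le_of_sq_le_sq h1 h.1 |>.trans le_rfl

end J

section JS

variable {𝕜 : Type} [RCLike 𝕜] {W : Type u} [NormedAddCommGroup W] [NormedSpace 𝕜 W]

/-- The James norm of a sequence. -/
noncomputable def jnorm (z : ℕ → W) : ℝ := sInf {C | JBd z C}

theorem JBd.jnorm {z : ℕ → W} {C : ℝ} (h : JBd z C) : JBd z (jnorm z) := by
  have hne : {C | JBd z C}.Nonempty := ⟨C, h⟩
  have hbd : BddBelow {C | JBd z C} := ⟨0, fun _ h => h.1⟩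
  have h0 : 0 ≤ CB.jnorm z := Real.sInf_nonneg fun _ h => h.1
  refine ⟨h0, fun r k hk => ?_⟩
  rw [← Real.sqrt_le_left h0]
  exact le_csInf hne fun C' hC' => hC'.sqrt_le r k hk

theorem JBd.jnorm_le {z : ℕ → W} {C : ℝ} (h : JBd z C) : CB.jnorm z ≤ C :=
  csInf_le ⟨0, fun _ h => h.1⟩ h

theorem jnorm_nonneg (z : ℕ → W) : 0 ≤ jnorm z := Real.sInf_nonneg fun _ h => h.1

/-- The space of sequences `z`, `z j ∈ V j`, of bounded quadratic variation. -/
def Jsub (V : ℕ → Submodule 𝕜 W) : Submodule 𝕜 (ℕ → W) where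
  carrier := {z | (∀ j, z j ∈ V j) ∧ ∃ C, JBd z C}
  zero_mem' := ⟨fun j => (V j).zero_mem, 0, JBd.zero⟩
  add_mem' := by
    rintro a b ⟨ha, C, hC⟩ ⟨hb, C', hC'⟩
    exact ⟨fun j => (V j).add_mem (ha j) (hb j), C + C', hC.add hC'⟩
  smul_mem' := by
    rintro c a ⟨ha, C, hC⟩
    exact ⟨fun j => (V j).smul_mem c (ha j), ‖c‖ * C, hC.smul c⟩

/-- The James-type space. -/
def JS (V : ℕ → Submodule 𝕜 W) : Type u := ↥(Jsub V)

variable {V : ℕ → Submodule 𝕜 W}

namespace JS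

noncomputable instance : AddCommGroup (JS V) := inferInstanceAs (AddCommGroup ↥(Jsub V))

noncomputable instance : Module 𝕜 (JS V) := inferInstanceAs (Module 𝕜 ↥(Jsub V))

/-- The sequence underlying an element of `JS V`. -/
def val (x : JS V) : ℕ → W := x.1

theorem mem (x : JS V) (j : ℕ) : x.val j ∈ V j := x.2.1 j

theorem bd (x : JS V) : ∃ C, JBd x.val C := x.2.2

/-- Constructor. -/
def mk (z : ℕ → W) (h1 : ∀ j, z j ∈ V j) (h2 : ∃ C, JBd z C) : JS V := ⟨z, h1, h2⟩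

@[simp] theorem val_mk (z : ℕ → W) (h1 : ∀ j, z j ∈ V j) (h2 : ∃ C, JBd z C) :
    (mk z h1 h2 : JS V).val = z := rfl

@[simp] theorem val_add (x y : JS V) : (x + y).val = x.val + y.val := rfl

@[simp] theorem val_sub (x y : JS V) : (x - y).val = x.val - y.val := rfl

@[simp] theorem val_neg (x : JS V) : (-x).val = -x.val := rfl

@[simp] theorem val_zero : (0 : JS V).val = 0 := rfl

@[simp] theorem val_smul (c : 𝕜) (x : JS V) : (c • x).val = c • x.val := rfl

@[ext] theorem ext {x y : JS V} (h : ∀ j, x.val j = y.val j) : x = y :=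
  Subtype.ext (funext h)

noncomputable instance : Norm (JS V) := ⟨fun x => jnorm x.val⟩

theorem norm_def (x : JS V) : ‖x‖ = jnorm x.val := rfl

theorem jbd (x : JS V) : JBd x.val ‖x‖ := by
  obtain ⟨C, hC⟩ := x.bd
  exact hC.jnorm

theorem norm_val_le' (x : JS V) (j : ℕ) : ‖x.val j‖ ≤ ‖x‖ := x.jbd.norm_le j

theorem norm_le_of_jbd {x : JS V} {C : ℝ} (h : JBd x.val C) : ‖x‖ ≤ C := h.jnorm_le

/-- The axioms of a norm. -/
theorem core : NormedSpace.Core 𝕜 (JS V) where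
  norm_nonneg x := jnorm_nonneg _
  norm_smul c x := by
    refine le_antisymm (norm_le_of_jbd (x.jbd.smul c)) ?_
    by_cases hc : c = 0
    · subst hc
      rw [norm_zero, zero_mul]
      exact jnorm_nonneg _
    · have h := ((c • x).jbd).smul c⁻¹
      have e : c⁻¹ • (c • x).val = x.val := by
        rw [val_smul, smul_smul, inv_mul_cancel₀ hc, one_smul]
      rw [e] at h
      have h2 := norm_le_of_jbd h
      rw [norm_inv] at h2
      have hc' : 0 < ‖c‖ := norm_pos_iff.2 hc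
      calc ‖c‖ * ‖x‖ ≤ ‖c‖ * (‖c‖⁻¹ * ‖c • x‖) := mul_le_mul_of_nonneg_left h2 hc'.le
        _ = ‖c • x‖ := by rw [← mul_assoc, mul_inv_cancel₀ hc'.ne', one_mul]
  norm_triangle x y := norm_le_of_jbd (x.jbd.add y.jbd)
  norm_eq_zero_iff x := by
    constructor
    · intro h
      refine ext fun j => ?_
      have := x.norm_val_le' j
      rw [h] at this
      rw [val_zero, Pi.zero_apply]
      exact norm_le_zero_iff.1 this
    · rintro rfl
      exact le_antisymm (norm_le_of_jbd JBd.zero) (jnorm_nonneg _)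

noncomputable instance : NormedAddCommGroup (JS V) := NormedAddCommGroup.ofCore core

noncomputable instance : NormedSpace 𝕜 (JS V) := NormedSpace.ofCore core

theorem norm_le_iff (x : JS V) {C : ℝ} (hC : 0 ≤ C) :
    ‖x‖ ≤ C ↔ ∀ (r : ℕ) (k : ℕ → ℕ), Monotone k → pv x.val r k ≤ C ^ 2 :=
  ⟨fun h => (x.jbd.mono h).2, fun h => norm_le_of_jbd ⟨hC, h⟩⟩

theorem pv_le (x : JS V) (r : ℕ) (k : ℕ → ℕ) (hk : Monotone k) : pv x.val r k ≤ ‖x‖ ^ 2 :=
  x.jbd.2 r k hk

theorem norm_val_le (x : JS V) (j : ℕ) : ‖x.val j‖ ≤ ‖x‖ := x.jbd.norm_le j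

/-- The `j`-th coordinate. -/
noncomputable def coord (V : ℕ → Submodule 𝕜 W) (j : ℕ) : JS V →L[𝕜] W :=
  LinearMap.mkContinuous
    { toFun := fun x => x.val j, map_add' := fun _ _ => rfl, map_smul' := fun _ _ => rfl } 1
    fun x => by rw [one_mul]; exact x.norm_val_le j

@[simp] theorem coord_apply (j : ℕ) (x : JS V) : coord V j x = x.val j := rfl

end JS

end JS

section Ops

variable {𝕜 : Type} [RCLike 𝕜] {W : Type u} [NormedAddCommGroup W] [NormedSpace 𝕜 W]

/-- Truncation of a sequence after the index `m`. -/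
def trc (m : ℕ) (z : ℕ → W) : ℕ → W := fun j => if j ≤ m then z j else 0

/-- The sequence `0, ..., 0, x, x, ...` (`x` from the index `j` on). -/
def cs (j : ℕ) (x : W) : ℕ → W := fun i => if j ≤ i then x else 0

theorem pv_succ (z : ℕ → W) (r : ℕ) (k : ℕ → ℕ) :
    pv z (r + 1) k = pv z r k + ‖z (k (r + 1)) - z (k r)‖ ^ 2 := by
  unfold pv
  rw [Finset.sum_range_succ _ (r + 1)]
  rfl

theorem pv_zero' (z : ℕ → W) (k : ℕ → ℕ) : pv z 0 k = ‖z (k 0)‖ ^ 2 := by
  simp [pv]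

theorem pv_congr {z z' : ℕ → W} {r : ℕ} {k : ℕ → ℕ} (h : ∀ i ≤ r, z (k i) = z' (k i)) :
    pv z r k = pv z' r k := by
  unfold pv
  refine Finset.sum_congr rfl fun i hi => ?_
  rw [Finset.mem_range] at hi
  cases i with
  | zero => rw [inc_zero, inc_zero, h 0 (by omega)]
  | succ i => rw [inc_succ, inc_succ, h (i + 1) (by omega), h i (by omega)]

theorem JBd.trc {z : ℕ → W} {C : ℝ} (h : JBd z C) (m : ℕ) : JBd (CB.trc m z) (2 * C) := by
  refine ⟨by linarith [h.1], fun r k hk => ?_⟩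
  have key : ∀ r, pv (CB.trc m z) r k + ‖CB.trc m z (k r)‖ ^ 2 ≤ 2 * C ^ 2 := by
    intro r
    induction r with
    | zero =>
      rw [pv_zero']
      have h1 : ‖CB.trc m z (k 0)‖ ≤ C := by
        unfold CB.trc
        split_ifs
        · exact h.norm_le _
        · rw [norm_zero]; exact h.1
      have h2 := pow_le_pow_left₀ (norm_nonneg _) h1 2
      linarith
    | succ r ih =>
      by_cases hr : k (r + 1) ≤ m
      · have h1 : pv (CB.trc m z) (r + 1) k = pv z (r + 1) k :=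
          pv_congr fun i hi => by
            unfold CB.trc
            rw [if_pos ((hk hi).trans hr)]
        have h2 : CB.trc m z (k (r + 1)) = z (k (r + 1)) := by
          unfold CB.trc
          rw [if_pos hr]
        rw [h1, h2]
        have h3 := h.2 (r + 1) k hk
        have h4 := pow_le_pow_left₀ (norm_nonneg _) (h.norm_le (k (r + 1))) 2
        linarith
      · have h2 : CB.trc m z (k (r + 1)) = 0 := by
          unfold CB.trc
          rw [if_neg hr]
        rw [pv_succ, h2, zero_sub, norm_neg, norm_zero]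
        simpa using ih
  have h1 := key r
  have h2 : (0 : ℝ) ≤ ‖CB.trc m z (k r)‖ ^ 2 := by positivity
  nlinarith [sq_nonneg C]

theorem pv_cs (j : ℕ) (x : W) (r : ℕ) (k : ℕ → ℕ) (hk : Monotone k) :
    pv (cs j x) r k = ‖cs j x (k r)‖ ^ 2 := by
  induction r with
  | zero => rw [pv_zero']
  | succ r ih =>
    rw [pv_succ, ih]
    by_cases h : j ≤ k r
    · have h' : j ≤ k (r + 1) := h.trans (hk (Nat.le_succ r))
      unfold cs
      rw [if_pos h, if_pos h', sub_self, norm_zero]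
      norm_num
    · unfold cs
      rw [if_neg h, norm_zero, sub_zero]
      norm_num

theorem JBd.cs (j : ℕ) (x : W) : JBd (CB.cs j x) ‖x‖ := by
  refine ⟨norm_nonneg _, fun r k hk => ?_⟩
  rw [pv_cs j x r k hk]
  refine pow_le_pow_left₀ (norm_nonneg _) ?_ 2
  unfold CB.cs
  split_ifs
  · exact le_rfl
  · rw [norm_zero]; exact norm_nonneg _

variable (V : ℕ → Submodule 𝕜 W)

/-- Truncation as an operator on `JS V`. -/
noncomputable def trunc (m : ℕ) : JS V →L[𝕜] JS V :=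
  LinearMap.mkContinuous
    { toFun := fun x => JS.mk (trc m x.val)
        (fun j => by
          unfold trc
          split_ifs
          · exact x.mem j
          · exact (V j).zero_mem)
        ⟨_, x.jbd.trc m⟩
      map_add' := fun x y => JS.ext fun j => by
        simp only [JS.val_mk, JS.val_add, trc, Pi.add_apply]
        split_ifs
        · rfl
        · rw [add_zero]
      map_smul' := fun c x => JS.ext fun j => by
        simp only [JS.val_mk, JS.val_smul, trc, Pi.smul_apply, RingHom.id_apply]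
        split_ifs
        · rfl
        · rw [smul_zero] } 2
    fun x => JS.norm_le_of_jbd (x.jbd.trc m)

@[simp] theorem trunc_val (m : ℕ) (x : JS V) (j : ℕ) :
    (trunc V m x).val j = if j ≤ m then x.val j else 0 := rfl

theorem norm_trunc_le (m : ℕ) (x : JS V) : ‖trunc V m x‖ ≤ 2 * ‖x‖ :=
  JS.norm_le_of_jbd (x.jbd.trc m)

variable {V}

/-- `x ↦ (0, ..., 0, x, x, ...)` as an operator `V j → JS V`. -/
noncomputable def cst (hV : Monotone V) (j : ℕ) : V j →L[𝕜] JS V :=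
  LinearMap.mkContinuous
    { toFun := fun x => JS.mk (cs j (x : W))
        (fun i => by
          unfold cs
          split_ifs with h
          · exact hV h x.2
          · exact (V i).zero_mem)
        ⟨_, JBd.cs j (x : W)⟩
      map_add' := fun x y => JS.ext fun i => by
        simp only [JS.val_mk, JS.val_add, cs, Pi.add_apply, Submodule.coe_add]
        split_ifs
        · rfl
        · rw [add_zero]
      map_smul' := fun c x => JS.ext fun i => by
        simp only [JS.val_mk, JS.val_smul, cs, Pi.smul_apply, RingHom.id_apply,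
          Submodule.coe_smul]
        split_ifs
        · rfl
        · rw [smul_zero] } 1
    fun x => by
      rw [one_mul]
      exact JS.norm_le_of_jbd (JBd.cs j (x : W))

@[simp] theorem cst_val (hV : Monotone V) (j : ℕ) (x : V j) (i : ℕ) :
    (cst hV j x).val i = if j ≤ i then (x : W) else 0 := rfl

theorem norm_cst_le (hV : Monotone V) (j : ℕ) (x : V j) : ‖cst hV j x‖ ≤ ‖x‖ :=
  JS.norm_le_of_jbd (JBd.cs j (x : W))

/-- The space `X = {(z, w) : z j → D w}`. -/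
def XS (V : ℕ → Submodule 𝕜 W) (D : W →L[𝕜] W) : Submodule 𝕜 (JS V × W) where
  carrier := {x | Tendsto x.1.val atTop (𝓝 (D x.2))}
  zero_mem' := by
    show Tendsto (0 : JS V × W).1.val atTop (𝓝 (D (0 : JS V × W).2))
    have : (0 : JS V × W).1.val = fun _ => (0 : W) := rfl
    rw [this, Prod.snd_zero, map_zero]
    exact tendsto_const_nhds
  add_mem' := by
    intro a b ha hb
    show Tendsto (a + b).1.val atTop (𝓝 (D (a + b).2))
    rw [Prod.snd_add, map_add]
    exact Tendsto.add ha hb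
  smul_mem' := by
    intro c a ha
    show Tendsto (c • a).1.val atTop (𝓝 (D (c • a).2))
    rw [Prod.smul_snd, map_smul]
    exact Tendsto.const_smul ha c

variable {D : W →L[𝕜] W}

theorem XS.tends (x : XS V D) : Tendsto x.1.1.val atTop (𝓝 (D x.1.2)) := x.2

/-- Constructor of elements of `X`. -/
def XS.mk (z : JS V) (w : W) (h : Tendsto z.val atTop (𝓝 (D w))) : XS V D := ⟨(z, w), h⟩

/-- `z ↦ (trunc m z, 0)`. -/
noncomputable def incX (V : ℕ → Submodule 𝕜 W) (D : W →L[𝕜] W) (m : ℕ) : JS V →L[𝕜] XS V D :=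
  ((trunc V m).prod 0).codRestrict (XS V D) fun z => by
    show Tendsto (trunc V m z).val atTop (𝓝 (D (0 : W)))
    rw [map_zero]
    refine tendsto_const_nhds.congr' ?_
    filter_upwards [eventually_gt_atTop m] with j hj
    rw [trunc_val, if_neg (by omega)]

@[simp] theorem incX_fst (m : ℕ) (z : JS V) : (incX V D m z).1.1 = trunc V m z := rfl

@[simp] theorem incX_snd (m : ℕ) (z : JS V) : (incX V D m z).1.2 = 0 := rfl

/-- The second coordinate `X → W`. -/
noncomputable def prW (V : ℕ → Submodule 𝕜 W) (D : W →L[𝕜] W) : XS V D →L[𝕜] W :=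
  (ContinuousLinearMap.snd 𝕜 (JS V) W).comp (XS V D).subtypeL

@[simp] theorem prW_apply (x : XS V D) : prW V D x = x.1.2 := rfl

/-- `Tinf` is the limit (in operator norm) of the operators `z ↦ T (trunc m z, 0)`. -/
def IsInf {Y : Type*} [NormedAddCommGroup Y] [NormedSpace 𝕜 Y] (T : XS V D →L[𝕜] Y)
    (Tinf : JS V →L[𝕜] Y) : Prop :=
  Tendsto (fun m => T.comp (incX V D m)) atTop (𝓝 Tinf)

/-- The standing assumptions on the chain `V j` and the operator `D`. -/
structure ASys (V : ℕ → Submodule 𝕜 W) (D : W →L[𝕜] W) : Prop where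
  mono : Monotone V
  fin : ∀ j, FiniteDimensional 𝕜 (V j)
  dense : Dense (⋃ j, (V j : Set W))
  inv : ∀ j, ∀ x ∈ V j, D x ∈ V j

/-- Finite rank. -/
def FR {X Y : Type*} [NormedAddCommGroup X] [NormedSpace 𝕜 X] [NormedAddCommGroup Y]
    [NormedSpace 𝕜 Y] (T : X →L[𝕜] Y) : Prop := FiniteDimensional 𝕜 T.toLinearMap.range

/-- Averages `(1/|ι|) ∑ Ξ_a (x_a)`. -/
noncomputable def av {ι : Type} [Fintype ι] (Ξ : ι → W →L[𝕜] 𝕜) (x : ι → W) : 𝕜 :=
  (Fintype.card ι : 𝕜)⁻¹ * ∑ a, Ξ a (x a)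

/-- The frames in `W` (hypotheses (H2) - (H8) of the paper). -/
structure Frames (V : ℕ → Submodule 𝕜 W) (D : W →L[𝕜] W) where
  N : ℕ → ℕ
  ι : ℕ → Type
  fin : ∀ i, Fintype (ι i)
  F : ℕ → Submodule 𝕜 W
  jj : ℕ → ℕ
  v : ∀ i, ℕ → ι i → F i
  Ξ : ∀ i, ι i → W →L[𝕜] 𝕜
  ν : ℕ → ℝ
  ε : ℕ → ℝ
  hN : ∀ i, 1 ≤ N i
  ne : ∀ i, Nonempty (ι i)
  hF : ∀ i, F i ≤ V (jj i)
  hv : ∀ i n a, ‖v i n a‖ ≤ 2
  hΞ : ∀ i a, ‖Ξ i a‖ ≤ 1
  hone : ∀ i n a, n ≤ N i → Ξ i a (v i n a : W) = 1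
  heig : ∀ i n a, n ≤ N i → D (v i n a : W) = ((n : 𝕜) / (N i : 𝕜)) • (v i n a : W)
  hclose : ∀ i n a, n < N i → ‖(v i n a : W) - (v i (n + 1) a : W)‖ ≤ ν i
  hε0 : ∀ i, 0 ≤ ε i
  hν : Tendsto ν atTop (𝓝 0)
  hε : Tendsto ε atTop (𝓝 0)
  hfr : ∀ i (T : W →L[𝕜] W), FR T → ‖av (Ξ i) (fun a => T (v i (N i) a : W))‖ ≤ ε i * ‖T‖
  hmul : ∀ i n (A : W →L[𝕜] W) (B : F i →L[𝕜] W), n ≤ N i →
    ‖av (Ξ i) (fun a => A (B (v i n a))) -
      av (Ξ i) (fun a => A (v i n a : W)) * av (Ξ i) (fun a => B (v i n a))‖ ≤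
        ε i * ‖A‖ * ‖B‖
  hup : ∀ x : ℕ → W, (∀ i, ∃ n a, n ≤ N i ∧ x i = (v i n a : W)) → ∀ (S : Finset ℕ) (c : ℕ → 𝕜),
    (∀ i, ‖c i‖ ≤ 1) → ‖∑ i ∈ S, c i • x i‖ ^ 3 ≤ 8 * (S.card : ℝ)

/-- `X` has an approximative basis. -/
def HasAB (𝕜 : Type) [RCLike 𝕜] (X : Type*) [NormedAddCommGroup X] [NormedSpace 𝕜 X] : Prop :=
  ∃ v : ℕ → X →L[𝕜] X, (∀ n, FR (v n)) ∧ ∀ x, Tendsto (fun n => v n x) atTop (𝓝 x)

/-- `X` has a commuting approximative basis. -/
def HasCAB (𝕜 : Type) [RCLike 𝕜] (X : Type*) [NormedAddCommGroup X] [NormedSpace 𝕜 X] : Prop :=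
  ∃ v : ℕ → X →L[𝕜] X, (∀ n, FR (v n)) ∧ (∀ x, Tendsto (fun n => v n x) atTop (𝓝 x)) ∧
    ∀ n m, n ≠ m → (v n).comp (v m) = v (min n m)

end Ops

attribute [instance] Frames.fin Frames.ne

section Ops2

variable {𝕜 : Type} [RCLike 𝕜] {W : Type u} [NormedAddCommGroup W] [NormedSpace 𝕜 W]
variable {V : ℕ → Submodule 𝕜 W}

theorem JBd.frz {z : ℕ → W} {C : ℝ} (h : JBd z C) (m : ℕ) : JBd (fun j => z (min j m)) C := by
  refine ⟨h.1, fun r k hk => ?_⟩
  have : pv (fun j => z (min j m)) r k = pv z r (fun i => min (k i) m) := by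
    unfold pv
    refine Finset.sum_congr rfl fun i _ => ?_
    cases i <;> rfl
  rw [this]
  exact h.2 r _ fun a b hab => min_le_min_right m (hk hab)

theorem JBd.mapJ {W' : Type*} [NormedAddCommGroup W'] [NormedSpace 𝕜 W'] {z : ℕ → W} {C : ℝ}
    (h : JBd z C) (G : W →L[𝕜] W') : JBd (fun j => G (z j)) (‖G‖ * C) := by
  refine ⟨mul_nonneg (norm_nonneg _) h.1, fun r k hk => ?_⟩
  have e : ∀ i, inc (fun j => G (z j)) k i = G (inc z k i) := by
    intro i
    cases i with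
    | zero => rfl
    | succ i => simp only [inc_succ, map_sub]
  have : pv (fun j => G (z j)) r k ≤ ‖G‖ ^ 2 * pv z r k := by
    unfold pv
    rw [Finset.mul_sum]
    refine Finset.sum_le_sum fun i _ => ?_
    rw [e, ← mul_pow]
    exact pow_le_pow_left₀ (norm_nonneg _) (G.le_opNorm _) 2
  refine this.trans ?_
  rw [mul_pow]
  exact mul_le_mul_of_nonneg_left (h.2 r k hk) (by positivity)

/-- Freezing a sequence after the index `m`. -/
noncomputable def frz (hV : Monotone V) (m : ℕ) : JS V →L[𝕜] JS V :=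
  LinearMap.mkContinuous
    { toFun := fun x => JS.mk (fun j => x.val (min j m))
        (fun j => hV (min_le_left j m) (x.mem _)) ⟨_, x.jbd.frz m⟩
      map_add' := fun _ _ => rfl
      map_smul' := fun _ _ => rfl } 1
    fun x => by
      rw [one_mul]
      exact JS.norm_le_of_jbd (x.jbd.frz m)

@[simp] theorem frz_val (hV : Monotone V) (m : ℕ) (x : JS V) (j : ℕ) :
    (frz hV m x).val j = x.val (min j m) := rfl

theorem norm_frz_le (hV : Monotone V) (m : ℕ) (x : JS V) : ‖frz hV m x‖ ≤ ‖x‖ :=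
  JS.norm_le_of_jbd (x.jbd.frz m)

/-- Coordinatewise application of an operator. -/
noncomputable def mapJ (G : W →L[𝕜] W) (hG : ∀ j, ∀ x ∈ V j, G x ∈ V j) : JS V →L[𝕜] JS V :=
  LinearMap.mkContinuous
    { toFun := fun x => JS.mk (fun j => G (x.val j)) (fun j => hG j _ (x.mem j))
        ⟨_, x.jbd.mapJ G⟩
      map_add' := fun x y => JS.ext fun j => by simp
      map_smul' := fun c x => JS.ext fun j => by simp } ‖G‖
    fun x => JS.norm_le_of_jbd (x.jbd.mapJ G)

@[simp] theorem mapJ_val (G : W →L[𝕜] W) (hG : ∀ j, ∀ x ∈ V j, G x ∈ V j) (x : JS V) (j : ℕ) :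
    (mapJ G hG x).val j = G (x.val j) := rfl

theorem norm_mapJ_le (G : W →L[𝕜] W) (hG : ∀ j, ∀ x ∈ V j, G x ∈ V j) (x : JS V) :
    ‖mapJ G hG x‖ ≤ ‖G‖ * ‖x‖ :=
  JS.norm_le_of_jbd (x.jbd.mapJ G)

end Ops2

end Pool.Agent.Lib.MP_355270_an.CB
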