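import Pool.Agent.Lib.MP_355270_an.CB.DefB

/-!
# The rigid lemma: definitions and statements
-/

open Filter Topology

namespace Pool.Agent.Lib.MP_355270_an.CB

/-- `d` of the vectors `m i` are successively at distance at least `sqrt η` from the span of the
previous ones. -/
def Greedy {I H : Type} [NormedAddCommGroup H] [InnerProductSpace ℝ H] (m : I → H) (d : ℕ)
    (η : ℝ) : Prop :=
  ∃ f : Fin d → I, ∀ j : Fin d, ∀ y ∈ Submodule.span ℝ {x | ∃ l : Fin d, l < j ∧ x = m (f l)},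
    η ≤ ‖m (f j) - y‖ ^ 2

section

variable {I : Type} [Fintype I] [DecidableEq I]

/-- The rows of a matrix as vectors of the Euclidean space. -/
noncomputable def rowE (M : Matrix I I ℝ) (a : I) : EuclideanSpace ℝ I := WithLp.toLp 2 (M a)

/-- The vector with code `c`. -/
def cv {K L : ℕ} (β : Fin L → ℝ) (c : Fin K → I × Fin L) (i : I) : ℝ :=
  ∑ q, if (c q).1 = i then β (c q).2 else 0

/-- The matrix with code `c`. -/
def cm {K L : ℕ} (β : Fin L → ℝ) (c : I → Fin K → I × Fin L) : Matrix I I ℝ :=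
  fun a => cv β (c a)

/-- Six matrices given by codes. -/
abbrev Codes (I : Type) (K L : ℕ) : Type := Fin 6 → I → Fin K → I × Fin L

/-- The approximation of `M`. -/
noncomputable def Mo {K L : ℕ} (β : Fin L → ℝ) (c : Codes I K L) (G S : Matrix I I ℝ) :
    Matrix I I ℝ := cm β (c 0) + cm β (c 1) * G + cm β (c 2) * S

/-- The approximation of `G' M`. -/
noncomputable def Ro {K L : ℕ} (β : Fin L → ℝ) (c : Codes I K L) (G S : Matrix I I ℝ) :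
    Matrix I I ℝ := cm β (c 3) + cm β (c 4) * G + cm β (c 5) * S

/-- The part of `Mo` which does not use the rows `q ∈ J` of `G`. -/
noncomputable def Mp {K L : ℕ} (β : Fin L → ℝ) (c : Codes I K L) (G S : Matrix I I ℝ)
    (J : Finset I) : Matrix I I ℝ := fun a b =>
  cm β (c 0) a b + (cm β (c 2) * S) a b + ∑ q ∈ Jᶜ, cm β (c 1) a q * G q b

/-- The part of `Ro` which does not use the rows `q ∈ J` of `G`. -/
noncomputable def Tp {K L : ℕ} (β : Fin L → ℝ) (c : Codes I K L) (G S : Matrix I I ℝ)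
    (J : Finset I) : Matrix I I ℝ := fun a b =>
  cm β (c 3) a b + (cm β (c 5) * S) a b + ∑ q ∈ Jᶜ, cm β (c 4) a q * G q b

/-- The code is good: entries at most `C`, rows with at most `K` non-zero entries. -/
def GoodC {K L : ℕ} (β : Fin L → ℝ) (C : ℝ) (c : Codes I K L) : Prop :=
  ∀ q a, (∀ i, |cm β (c q) a i| ≤ C) ∧ (∑ i, |cm β (c q) a i| ≤ K * C) ∧
    (Finset.univ.filter fun i => cm β (c q) a i ≠ 0).card ≤ K

end

/-- Greedy alternative. Proof: let `d' ≤ d` be maximal with `Greedy m d' η` (it holds for `0`). If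
`d' < d`, take the corresponding `f` and let `D` be the span of all `m (f l)`, of dimension
`≤ d' < d`. If some `i` had `‖m i - y‖ ^ 2 ≥ η` for all `y ∈ D`, extending `f` by `i` would give
`Greedy m (d'+1) η`. -/
def S_greedy : Prop :=
  ∀ (I H : Type) [NormedAddCommGroup H] [InnerProductSpace ℝ H] (m : I → H) (d : ℕ) (η : ℝ),
    0 < η → Greedy m d η ∨ ∃ D : Submodule ℝ H, FiniteDimensional ℝ D ∧
      Module.finrank ℝ D < d ∧ ∀ i, ∃ y ∈ D, ‖m i - y‖ ^ 2 < η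

/-- Exponential moment. Proof: induction on `d`. Let `m` be the last vector, `D` the span of the others,
`P` the orthogonal projection onto `D`. For a fixed last sign `σ`:
`‖X + σ m - t‖ ^ 2 = ‖X - P (t - σ m)‖ ^ 2 + ‖(1 - P)(σ m - t)‖ ^ 2` with
`X = ∑_{j < last} sg (θ j) m_j ∈ D`. By induction (target `P (t - σ m)`) the sum over the other signs
is `≤ (1 + e^-2)^(d-1) exp (-(2/η) ‖(1-P)(σ m - t)‖ ^ 2)`. The two vectors `(1-P)(m - t)` and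
`(1-P)(-m - t)` differ by `2 (1-P) m`, of norm `≥ 2 sqrt η` (hypothesis with `y = P m`), so one of
them has norm `≥ sqrt η`, and the two exponentials add up to at most `1 + e ^ (-2)`. -/
def S_expmom : Prop :=
  ∀ (H : Type) [NormedAddCommGroup H] [InnerProductSpace ℝ H] (d : ℕ) (m : Fin d → H) (η : ℝ),
    0 < η → (∀ j : Fin d, ∀ y ∈ Submodule.span ℝ {x | ∃ l : Fin d, l < j ∧ x = m l},
      η ≤ ‖m j - y‖ ^ 2) → ∀ t : H,
    ∑ θ : Fin d → Bool, Real.exp (-(2 / η) * ‖∑ j, sg (θ j) • m j - t‖ ^ 2) ≤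
      (1 + Real.exp (-2)) ^ d

/-- Small ball estimate. Proof: let `f` be as in `Greedy`; `f` is injective (if `f j = f l`, `l < j`,
then `y = m (f l)` gives `η ≤ 0`). Fix the signs outside the range of `f` (there are
`2 ^ (k - d)` possibilities); by `S_expmom` (with another target) and Markov, the number of signs on
the range with `‖..‖ ^ 2 ≤ B` is at most `exp (2 B / η) (1 + e^-2) ^ d ≤ (e^(1/6) (1 + e^-2)) ^ d ≤
(1.1814 · 1.1354) ^ d ≤ 2 ^ (d/2)`. -/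
def S_smallball : Prop :=
  ∀ (I H : Type) [Fintype I] [DecidableEq I] [NormedAddCommGroup H] [InnerProductSpace ℝ H]
    (m : I → H) (d : ℕ) (η B : ℝ) (t : H), 0 < η → Greedy m d η → 12 * B ≤ η * d →
    (Nat.card {θ : I → Bool // ‖∑ i, sg (θ i) • m i - t‖ ^ 2 ≤ B} : ℝ) ≤
      (2 : ℝ) ^ ((Fintype.card I : ℝ) - d / 2)

/-- Mass lemma. Proof: let `x θ = ∑_j sg (θ j) f_j`. For each `a`, `x θ a` is a sign sum with
`p_a = ∑_j f_j a ^ 2 ≤ 1` (Bessel), `∑_a p_a = d`: `rad |x a|^s ≤ 3 p_a ^ (s/2) ≤ 3 p_a` (`S_radK`),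
`rad ∑_a |x a|^s ≤ 3 d`. `(G x θ) a` is a sign sum with `p'_a = ∑_j ((G f_j) a) ^ 2 ≤ ∑_b G a b ^ 2 = 1`
(Bessel; the rows of `Gm g` have norm one), `∑_a p'_a = ∑_j |G f_j|^2 ≤ K1^2 d`, so
`rad ∑_a |(G x) a|^s ≤ 3 K1^2 d`; same for `S` (rows of norm `≤ 1`: `(S^T e_a)` has norm `≤ 1` by
`OPle 1 S`) with `3 d`. Hence `rad ∑_a |(M x) a|^s ≤ C^s 3 (2 + K1^2) d`. Finally
`∑_j ∑_a ((M f_j) a) ^ 2 = ∑_a rad ((M x) a) ^ 2 ≤ k^(1 - 2/s) (∑_a (rad ((M x) a)^2)^(s/2))^(2/s) ≤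
k^(1-2/s) (rad ∑_a |(M x) a|^s)^(2/s) ≤ k (3 (2 + K1^2) C^s d / k)^(2/s) ≤
3 (2 + K1^2) C^2 k (d/k)^(2/s)` (`2/s ≤ 1`). -/
def S_mass : Prop :=
  ∀ (s C K1 : ℝ), 2 < s → s ≤ 4 → 0 ≤ C → 0 ≤ K1 → ∀ (I : Type) [Fintype I] [DecidableEq I]
    [Nonempty I] (S : Matrix I I ℝ) (g : I → I → Bool) (M : Matrix I I ℝ), OPle 1 S →
    OPle K1 (Gm g) → (∀ x, ∑ a, |(M.mulVec x) a| ^ s ≤ C ^ s * Qs s (Gm g) S x) →
    ∀ (d : ℕ) (f : Fin d → I → ℝ), (∀ j l, ∑ a, f j a * f l a = if j = l then 1 else 0) →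
    ∑ j, ∑ a, (M.mulVec (f j) a) ^ 2 ≤
      3 * (2 + K1 ^ 2) * C ^ 2 * Fintype.card I * ((d : ℝ) / Fintype.card I) ^ (2 / s)

/-- Duality. Proof: consider the linear map `x ↦ (x, G x, S x)` from `I → ℝ` to `ℓ_s` of three copies
of `I` (`PiLp s`); it is injective and `Qs` is the `s`-th power of its norm. On its range the functional
`x ↦ ∑ φ_a x_a` is bounded by `C`; extend it by Hahn-Banach with the same norm and read off its
coordinates `h, u, w`; by testing on `y_i = sign (φ_i) |φ_i|^(s'-1)` their total `ℓ_s'` norm is at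
most `C`. -/
def S_dual : Prop :=
  ∀ (s C : ℝ), 1 < s → 0 ≤ C → ∀ (I : Type) [Fintype I] [DecidableEq I] (G S : Matrix I I ℝ)
    (φ : I → ℝ), (∀ x : I → ℝ, |∑ a, φ a * x a| ^ s ≤ C ^ s * Qs s G S x) →
    ∃ h u w : I → ℝ, (∀ a, φ a = h a + ∑ b, u b * G b a + ∑ b, w b * S b a) ∧
      (∑ a, |h a| ^ (s / (s - 1)) ≤ C ^ (s / (s - 1))) ∧
      (∑ a, |u a| ^ (s / (s - 1)) ≤ C ^ (s / (s - 1))) ∧
      (∑ a, |w a| ^ (s / (s - 1)) ≤ C ^ (s / (s - 1)))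

/-- Sparse approximation. Proof: let `τ > 0` with `τ^(2-p) C^p ≤ η/2`. The set `A` of `i` with
`|x i| > τ` has at most `(C/τ)^p` elements, let `K` be the integer part of this number plus one;
`∑_{i ∉ A} x_i^2 ≤ τ^(2-p) ∑ |x_i|^p ≤ η/2`. Every `|x i| ≤ C`. Take for `β` an enumeration of the
grid `{n h : n ∈ ℤ, |n h| ≤ C}` with `h > 0`, `K h^2 ≤ η/2` (contains `0`), and round `x_i`, `i ∈ A`,
towards `0` to the grid. The code lists the elements of `A` (once each) with their rounded values and is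
completed with the value `0` (at any position). -/
def S_sparse : Prop :=
  ∀ (p C η : ℝ), 1 < p → p < 2 → 1 ≤ C → 0 < η → ∃ (K L : ℕ) (β : Fin L → ℝ), 0 < L ∧
    ∀ (I : Type) [Fintype I] [DecidableEq I] [Nonempty I] (x : I → ℝ), ∑ i, |x i| ^ p ≤ C ^ p →
    ∃ c : Fin K → I × Fin L, ∑ i, (x i - cv β c i) ^ 2 ≤ η ∧ (∀ i, |cv β c i| ≤ C) ∧
      (∑ i, |cv β c i| ≤ K * C) ∧ (Finset.univ.filter fun i => cv β c i ≠ 0).card ≤ K

/-- Approximation of bounded matrices. Proof: with `p = s/(s-1) ∈ (1, 2)` take `K, L, β` from `S_sparse`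
for `C, η`. For every row `a`, `|(M x) a|^s ≤ ∑ |M x|^s ≤ C^s Qs x`, so by `S_dual`
`M = h + u G + w S`, `G' M = h' + u' G + w' S`, all rows of `h, u, w, ...` in the `C`-ball of `ℓ_p`. Take
the codes of the rows. `HS2 (h - h°) ≤ η k` etc., `HS2 (X G) ≤ K1^2 HS2 X` (the transpose of `G`
has the same operator norm), `HS2 (X S) ≤ HS2 X`, so the Hilbert-Schmidt norm of `M - Mo` is at most
`(1 + K1 + 1) sqrt (η k)`. -/
def S_approx : Prop :=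
  ∀ (s C η : ℝ), 2 < s → s ≤ 4 → 1 ≤ C → 0 < η → ∃ (K L : ℕ) (β : Fin L → ℝ), 0 < L ∧
    ∀ (K1 : ℝ), 1 ≤ K1 → ∀ (I : Type) [Fintype I] [DecidableEq I] [Nonempty I]
    (S : Matrix I I ℝ) (g g' : I → I → Bool) (M : Matrix I I ℝ), OPle 1 S → OPle K1 (Gm g) →
    Bdd s C S g g' M → ∃ c : Codes I K L, GoodC β C c ∧
      HS2 (M - Mo β c (Gm g) S) ≤ (2 + K1) ^ 2 * η * Fintype.card I ∧
      HS2 (Gm g' * M - Ro β c (Gm g) S) ≤ (2 + K1) ^ 2 * η * Fintype.card I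

/-- Matrices far from scalars have many greedy rows. Proof: let `c0 > 0` satisfy
`3 (2 + K1^2) C^2 c0^(2/s) ≤ ε/64` and `C^2 c0 ≤ ε/64`. If the rows of `M' - λ` are not greedy, `S_greedy`
gives `D` with `dim D < d`, so `dim D ≤ c0 k`, all rows at squared distance `< ε/8` of `D`. Let
`f_j` be an orthonormal basis of `D` (as vectors `I → ℝ`). `HS2 (M' - λ) = ∑_a dist(row_a, D)^2 +
∑_j |(M' - λ) f_j|^2 ≤ ε k/8 + (|M f|_HS + |M - M'|_HS + |λ| sqrt(dim D))^2 ≤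
ε k/8 + (3 sqrt(ε k)/8)^2 = 17 ε k/64` by `S_mass` and the hypotheses. But
`|M' - λ|_HS ≥ |M - λ|_HS - |M - M'|_HS ≥ (1 - 1/8) sqrt(ε k)`, squared `49 ε k/64`. -/
def S_far : Prop :=
  ∀ (s C K1 ε : ℝ), 2 < s → s ≤ 4 → 1 ≤ C → 1 ≤ K1 → 0 < ε → ∃ c0 : ℝ, 0 < c0 ∧ c0 ≤ 1 ∧
    ∀ (I : Type) [Fintype I] [DecidableEq I] [Nonempty I] (S : Matrix I I ℝ) (g : I → I → Bool)
    (M M' : Matrix I I ℝ) (c : ℝ), OPle 1 S → OPle K1 (Gm g) →
    (∀ x, ∑ a, |(M.mulVec x) a| ^ s ≤ C ^ s * Qs s (Gm g) S x) → |c| ≤ C →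
    HS2 (M - M') ≤ ε / 64 * Fintype.card I →
    ε * Fintype.card I < HS2 (M - c • (1 : Matrix I I ℝ)) →
    ∀ d : ℕ, (d : ℝ) ≤ c0 * Fintype.card I + 1 →
      Greedy (rowE (M' - c • (1 : Matrix I I ℝ))) d (ε / 8)

/-- Counting with at least half of the rows small. Proof: union over the set `A` of rows with
`g a ∈ Sm a`: for a fixed `A` with `2 |A| ≥ k` the number of `g` is at most
`∏_{a ∈ A} |Sm a| · |X|^(k - |A|) ≤ |X|^k 2^(-θ |A|) ≤ |X|^k 2^(-θ k/2)`, and there are `2^k` sets. -/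
def S_rowcount : Prop :=
  ∀ (I X : Type) [Fintype I] [DecidableEq I] [Fintype X] [DecidableEq X] (θ : ℝ)
    (Sm : I → Finset X), 0 ≤ θ →
    (∀ a, ((Sm a).card : ℝ) ≤ (Fintype.card X : ℝ) * (2 : ℝ) ^ (-θ)) →
    (Nat.card {g : I → X // Fintype.card I ≤ 2 * (Finset.univ.filter fun a => g a ∈ Sm a).card} : ℝ)
      ≤ 2 ^ Fintype.card I * ((Fintype.card X : ℝ) ^ Fintype.card I *
        (2 : ℝ) ^ (-(θ * (Fintype.card I : ℝ) / 2)))

/-- Counting with the rows in `J` small, the smallness depending on the rows outside `J`. Proof: the map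
`g ↦ g` restricted to the complement of `J`; each fibre has at most `∏_{a ∈ J} |Sm a|` elements. -/
def S_rowcount2 : Prop :=
  ∀ (I X : Type) [Fintype I] [DecidableEq I] [Fintype X] [DecidableEq X] (θ : ℝ) (J : Finset I)
    (Sm : (I → X) → I → Finset X), 0 ≤ θ →
    (∀ g g' : I → X, (∀ a, a ∉ J → g a = g' a) → Sm g = Sm g') →
    (∀ g a, ((Sm g a).card : ℝ) ≤ (Fintype.card X : ℝ) * (2 : ℝ) ^ (-θ)) →
    (Nat.card {g : I → X // ∀ a ∈ J, g a ∈ Sm g a} : ℝ) ≤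
      (Fintype.card X : ℝ) ^ Fintype.card I * (2 : ℝ) ^ (-(θ * (J.card : ℝ)))

/-- Numbers. Proof: take logarithms: `6 K k log2 (k L) + 4 k ≤ c k^2` for large `k`. -/
def S_numeric : Prop :=
  ∀ (K L : ℕ) (c : ℝ), 0 < c → ∃ k0 : ℕ, ∀ k : ℕ, k0 ≤ k →
    (((k * L : ℕ) : ℝ) ^ (6 * K * k)) * 2 ^ (4 * k) ≤ (2 : ℝ) ^ (c * (k : ℝ) ^ 2)

/-- A net. Proof: the points `y_i = n_i / (2 sqrt k)`, `n ∈ ℤ^I`, `∑ n_i^2 ≤ 25 k / 4`
(`k = |I| ≥ 1`). Given `x`, round `2 sqrt k x_i` to the nearest integer: `|x_i - y_i| ≤ 1/(4 sqrt k)`,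
so `∑ (x_i - y_i)^2 ≤ 1/16` and `|y| ≤ 5/4`, i.e. `∑ n_i^2 ≤ 25 k/4`. The number of such `n`: it is at most
`e^(25k/4) (∑_{n ∈ ℤ} e^(-n^2))^k ≤ (520 · 1.8)^k ≤ 1000^k` (sum over a finite box containing all of
them, `∑ e^(-n^2) ≤ 1 + 2 e^-1/(1 - e^-1)` is too weak; use
`1 + 2 (e^-1 + e^-4/(1 - e^-1)) ≤ 1.8`; `e^(25/4) ≤ 520`). -/
def S_net : Prop :=
  ∀ (I : Type) [Fintype I] [DecidableEq I] [Nonempty I], ∃ T : Finset (I → ℝ),
    (T.card : ℝ) ≤ 1000 ^ Fintype.card I ∧ (∀ y ∈ T, ∑ i, y i ^ 2 ≤ 25 / 16) ∧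
    ∀ x : I → ℝ, ∑ i, x i ^ 2 ≤ 1 → ∃ y ∈ T, ∑ i, (x i - y i) ^ 2 ≤ 1 / 16

/-- Hoeffding. Proof: for `λ > 0`, `∑_g exp (λ ∑_{a,b} sg (g a b) y_a x_b) =
∏_{a,b} 2 cosh (λ y_a x_b) ≤ 2^(k^2) exp (λ^2 |x|^2 |y|^2 / 2)` (`Real.cosh_le_exp_half_sq`), Markov with
`λ = t / (X Y)`. -/
def S_hoeff : Prop :=
  ∀ (I : Type) [Fintype I] [DecidableEq I] (x y : I → ℝ) (X Y t : ℝ), 0 < X → 0 < Y → 0 ≤ t →
    ∑ i, x i ^ 2 ≤ X → ∑ i, y i ^ 2 ≤ Y →
    (Nat.card {g : I → I → Bool // t ≤ ∑ a, ∑ b, sg (g a b) * y a * x b} : ℝ) ≤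
      2 ^ (Fintype.card I ^ 2) * Real.exp (-(t ^ 2 / (2 * X * Y)))

/-- Operator norm of sign matrices. Proof: `K1 = 20`. Let `T` be the net of `S_net` and
`t = (7/16) 20 sqrt k`. If `∑ sg (g a b) y_a x_b < t` for all `x, y ∈ T`, then
`|sg(g)|_op ≤ 20 sqrt k`: let `N0` be the operator norm of the matrix `sg (g a b)`; for unit vectors
`x, y` choose `x', y' ∈ T`: `y^T g x ≤ y'^T g x' + |y - y'| N0 |x'| + |y| N0 |x - x'| ≤
t + N0 (1/4 · 5/4 + 1/4) = t + (9/16) N0`, so `N0 ≤ (16/7) t`. By `S_hoeff` (`X = Y = 25/16`) the number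
of bad `g` is at most `1000^(2k) 2^(k^2) exp (- (49/1250) 400 k) = 2^(k^2) (10^6 e^(-15.68))^k ≤
2^(k^2) 2^(-k)` (`10^6 ≤ e^13.82`, `13.82 + 0.70 ≤ 15.68`). -/
def S_op : Prop :=
  ∃ K1 : ℝ, 1 ≤ K1 ∧ ∀ (I : Type) [Fintype I] [DecidableEq I] [Nonempty I],
    (Nat.card {g : I → I → Bool // ¬ OPle K1 (Gm g)} : ℝ) * 2 ^ Fintype.card I ≤
      2 ^ (Fintype.card I ^ 2)

/-- Off-diagonal counting. Proof: let `c0` be given by `S_far` for `s, C, K1, ε`, `η1 = ε c0 / 192`,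
`η > 0` with `(1 + K1)^2 (2 + K1)^2 η ≤ η1` and `(2 + K1)^2 η ≤ ε/64`, `K, L, β` by `S_approx`,
`d = ⌈c0 k⌉`. If `(g, g')` is bad with `M`, take the code `c` of `S_approx`; `Mo` has greedy rows
(`S_far` with `M' = Mo`, scalar `0`) and
`|G' Mo - Ro|_HS ≤ |G' (Mo - M)|_HS + |G' M - Ro|_HS ≤ (K1 + 1)(2 + K1) sqrt(η k)`, so
`HS2 (G' Mo - Ro) ≤ η1 k`; at least half of the rows `a` satisfy
`∑_b (G' Mo - Ro)_(ab)^2 ≤ 2 η1`, i.e. `‖∑_i sg (g' a i) rowE Mo i - sqrt k rowE Ro a‖^2 ≤ 2 η1 k`.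
For a fixed pair `(g, c)` with greedy rows `Mo` the number of such `r = g' a : I → Bool` is at most
`2^(k - d/2)` (`S_smallball`, `12 · 2 η1 k ≤ (ε/8) c0 k`), so by `S_rowcount` (`X = I → Bool`,
`θ = d/2`) the number of `g'` is at most `2^k 2^(k^2) 2^(-dk/4) ≤ 2^(k + k^2 - c0 k^2/4)`. There are
`2^(k^2)` matrices `g` and `(k L)^(6 K k)` codes; conclude by `S_numeric` with `c = c0/4`. -/
def S_off : Prop :=
  ∀ (s C K1 ε : ℝ), 2 < s → s ≤ 4 → 1 ≤ C → 1 ≤ K1 → 0 < ε → ∃ k0 : ℕ,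
    ∀ (I : Type) [Fintype I] [DecidableEq I] [Nonempty I], k0 ≤ Fintype.card I →
    ∀ S : Matrix I I ℝ, OPle 1 S →
    (Nat.card {p : (I → I → Bool) × (I → I → Bool) // OPle K1 (Gm p.1) ∧ OPle K1 (Gm p.2) ∧
      ∃ M, Bdd s C S p.1 p.2 M ∧ ε * Fintype.card I < HS2 M} : ℝ) * 2 ^ Fintype.card I ≤
      2 ^ (Fintype.card I ^ 2) * 2 ^ (Fintype.card I ^ 2)

/-- Independent sets. Proof: strong induction on `A.card`: the total number of pairs `a, c ∈ A`,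
`a ≠ c`, `c ∈ R a` is at most `K |A|`, so some `a ∈ A` has at most `2 K` elements `c ∈ A \ {a}` with
`c ∈ R a` or `a ∈ R c`; put `a` into `J`, remove `a` and these elements from `A`. -/
def S_indep : Prop :=
  ∀ (I : Type) [DecidableEq I] (R : I → Finset I) (K : ℕ), (∀ a, (R a).card ≤ K) →
    ∀ A : Finset I, ∃ J ⊆ A, A.card ≤ (2 * K + 1) * J.card ∧
      ∀ a ∈ J, ∀ c ∈ J, a ≠ c → c ∉ R a

/-- The choice of the rows `J` in the diagonal case. Proof: let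
`δ = min (1 / (2 (2 K + 1))) (η1 / (16 K1^2 (K+1)^2 C^2))`. Write `u = cm β (c 1)`, `G = Gm g`,
`err a = ∑_b ((G Mo - Ro) a b)^2`, `∑_a err a ≤ η1 k`: at most `k/4` indices have `err a > 4 η1`.
`∑_q ∑_a |u a q| ≤ k K C`, so at most `k/4` indices `q` have `∑_a |u a q| > 4 K C`. Let `A` be the set of
the remaining indices, `|A| ≥ k/2`. With `R a = {q : cm β (c 4) a q ≠ 0}` (`≤ K` elements)
`S_indep` gives `J0 ⊆ A` with `|J0| ≥ |A|/(2K+1) ≥ k/(2(2K+1)) ≥ δ k`; let `J ⊆ J0` have exactly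
`⌊δ k⌋` elements. `E = Mo - Mp` is `E a b = ∑_{q ∈ J} u a q * G q b`. For `a ∈ J`, since
`cm β (c 4) a q = 0` for `q ∈ J`, `q ≠ a`, `(Ro - Tp) a b = cm β (c 4) a a * G a b`, so
`(G Mp) a b - cm β (c 4) a a * G a b - Tp a b = (G Mo - Ro) a b - (G E) a b`, and
`(G E) a b = ∑_{q ∈ J} (∑_i G a i u i q) G q b` has row norm at most
`K1 (∑_{q ∈ J} (∑_i G a i u i q)^2)^(1/2) ≤ K1 (|J| (4 K C)^2 / k)^(1/2) ≤ 4 K1 K C sqrt δ ≤ sqrt η1`
(the entries of `G` are `± 1/sqrt k`; `|∑_q β_q G q ·| ≤ K1 |β|` as `G^T` has the same operator norm).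
So the row norm is at most `2 sqrt η1 + sqrt η1`. `HS2 E ≤ K1^2 ∑_{q ∈ J} ∑_i u i q^2 ≤
K1^2 |J| (4 K C)^2 ≤ η1 k`. -/
def S_diagJ : Prop :=
  ∀ (K : ℕ) (C K1 η1 : ℝ), 1 ≤ C → 1 ≤ K1 → 0 < η1 → ∃ δ : ℝ, 0 < δ ∧ δ ≤ 1 ∧
    ∀ (I : Type) [Fintype I] [DecidableEq I] [Nonempty I] (L : ℕ) (β : Fin L → ℝ)
    (c : Codes I K L) (S : Matrix I I ℝ) (g : I → I → Bool), GoodC β C c → OPle K1 (Gm g) →
    HS2 (Gm g * Mo β c (Gm g) S - Ro β c (Gm g) S) ≤ η1 * Fintype.card I →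
    ∃ J : Finset I, J.card = ⌊δ * Fintype.card I⌋₊ ∧
      (∀ a ∈ J, ∑ b, ((Gm g * Mp β c (Gm g) S J) a b - cm β (c 4) a a * Gm g a b -
        Tp β c (Gm g) S J a b) ^ 2 ≤ 9 * η1) ∧
      HS2 (Mo β c (Gm g) S - Mp β c (Gm g) S J) ≤ η1 * Fintype.card I

/-- Diagonal counting. Proof: `c0` from `S_far`, `η1 = min (ε c0 / 864) (ε / 256)`, `η > 0` with
`(1 + K1)^2 (2 + K1)^2 η ≤ η1` and `(2 + K1)^2 η ≤ ε/256`; `K, L, β` from `S_approx`; `δ` from `S_diagJ`;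
`d = ⌈c0 k⌉`. Let `g` be bad with `M`, `c` its code: `HS2 (G Mo - Ro) ≤ η1 k`; `J` by `S_diagJ`. For
`a ∈ J` put `λ = cm β (c 4) a a`, `|λ| ≤ C`. `|M - Mp|_HS ≤ |M - Mo|_HS + |Mo - Mp|_HS ≤
2 sqrt(ε k/256) = sqrt (ε k/64)`, so by `S_far` the rows of `Mp - λ` are `Greedy` with `d`, `ε/8`.
`(G Mp) a b - λ G a b = ∑_i G a i (Mp - λ) i b`, hence with `r = g a`,
`‖∑_i sg (r i) • rowE (Mp - λ) i - sqrt k • rowE Tp a‖^2 ≤ 9 η1 k`. `Mp`, `Tp` depend only on `c`, `S`,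
`J` and the rows of `g` outside `J`. So the bad `g` are contained in the union over `c` and `J`
(`|J| = ⌊δ k⌋`) of the sets of `S_rowcount2` with `Sm g a` = the set of these `r` if the rows of
`Mp - λ` are greedy, and empty otherwise; `|Sm g a| ≤ 2^(k - d/2)` by `S_smallball`
(`12 · 9 η1 k ≤ (ε/8) c0 k`). The number of bad `g` is at most
`(k L)^(6 K k) 2^k 2^(k^2) 2^(-(d/2) ⌊δ k⌋)`, `(d/2) ⌊δ k⌋ ≥ c0 δ k^2/4` for `k ≥ 2/δ`. Conclude by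
`S_numeric` with `c = c0 δ/4`. -/
def S_diag : Prop :=
  ∀ (s C K1 ε : ℝ), 2 < s → s ≤ 4 → 1 ≤ C → 1 ≤ K1 → 0 < ε → ∃ k0 : ℕ,
    ∀ (I : Type) [Fintype I] [DecidableEq I] [Nonempty I], k0 ≤ Fintype.card I →
    ∀ S : Matrix I I ℝ, OPle 1 S →
    (Nat.card {g : I → I → Bool // OPle K1 (Gm g) ∧ ∃ M, Bdd s C S g g M ∧
      ∀ c : ℝ, ε * Fintype.card I < HS2 (M - c • (1 : Matrix I I ℝ))} : ℝ) *
      2 ^ Fintype.card I ≤ 2 ^ (Fintype.card I ^ 2)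

/-- Counting tuples. Proof: the map `f ↦ (f n, f n')` (resp. `f ↦ f n`) is surjective with all fibres of the
same size. -/
def S_tuples : Prop :=
  ∀ (X : Type) [Fintype X] (N : ℕ) (n n' : Fin (N + 1)) (P : X → Prop) (Q : X × X → Prop),
    Nat.card {f : Fin (N + 1) → X // P (f n)} * Nat.card X =
      Nat.card {x : X // P x} * Nat.card X ^ (N + 1) ∧
    (n ≠ n' → Nat.card {f : Fin (N + 1) → X // Q (f n, f n')} * Nat.card X ^ 2 =
      Nat.card {x : X × X // Q x} * Nat.card X ^ (N + 1))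

/-- The rigid lemma. Proof: `K1` by `S_op`, `k0` larger than the numbers of `S_off`, `S_diag` and with
`3 (N+1)^2 < 2^k0`. A tuple `(g_n)` is bad if some `g_n` fails `OPle K1`, or some pair `n ≠ n'` is bad in
the sense of `S_off`, or some `g_n` is bad in the sense of `S_diag` (`Bdd s C S (g n) (g n') M` is
`Bdd s C S p.1 p.2 M` with `p = (g n, g n')`). By `S_tuples` the number of bad tuples is at most
`((N+1) + (N+1)^2 + (N+1)) 2^(-k) |X|^(N+1) < |X|^(N+1)`, `|X| = 2^(k^2)`; take a tuple which is not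
bad. -/
def S_rigid : Prop := Rigid

end Pool.Agent.Lib.MP_355270_an.CB
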