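import Pool.Agent.Lib.MP_355270_an.CB.P.AVG
import Pool.Agent.Lib.MP_355270_an.CB.P.Approx
import Pool.Agent.Lib.MP_355270_an.CB.P.Avg
import Pool.Agent.Lib.MP_355270_an.CB.P.Bessel
import Pool.Agent.Lib.MP_355270_an.CB.P.Beta
import Pool.Agent.Lib.MP_355270_an.CB.P.Beta0
import Pool.Agent.Lib.MP_355270_an.CB.P.Betaid
import Pool.Agent.Lib.MP_355270_an.CB.P.Betastep
import Pool.Agent.Lib.MP_355270_an.CB.P.Bior
import Pool.Agent.Lib.MP_355270_an.CB.P.Block
import Pool.Agent.Lib.MP_355270_an.CB.P.CTemb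
import Pool.Agent.Lib.MP_355270_an.CB.P.CTfin
import Pool.Agent.Lib.MP_355270_an.CB.P.CTl3
import Pool.Agent.Lib.MP_355270_an.CB.P.CTlp
import Pool.Agent.Lib.MP_355270_an.CB.P.CTls
import Pool.Agent.Lib.MP_355270_an.CB.P.CTmono
import Pool.Agent.Lib.MP_355270_an.CB.P.CTprod
import Pool.Agent.Lib.MP_355270_an.CB.P.CTre
import Pool.Agent.Lib.MP_355270_an.CB.P.CTsub
import Pool.Agent.Lib.MP_355270_an.CB.P.CxAsys
import Pool.Agent.Lib.MP_355270_an.CB.P.CxDec
import Pool.Agent.Lib.MP_355270_an.CB.P.CxDecW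
import Pool.Agent.Lib.MP_355270_an.CB.P.CxFrames
import Pool.Agent.Lib.MP_355270_an.CB.P.CxG
import Pool.Agent.Lib.MP_355270_an.CB.P.CxJ
import Pool.Agent.Lib.MP_355270_an.CB.P.CxOp
import Pool.Agent.Lib.MP_355270_an.CB.P.CxXi
import Pool.Agent.Lib.MP_355270_an.CB.P.DD
import Pool.Agent.Lib.MP_355270_an.CB.P.Davie
import Pool.Agent.Lib.MP_355270_an.CB.P.Diag
import Pool.Agent.Lib.MP_355270_an.CB.P.DiagJ
import Pool.Agent.Lib.MP_355270_an.CB.P.Dual
import Pool.Agent.Lib.MP_355270_an.CB.P.Enorm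
import Pool.Agent.Lib.MP_355270_an.CB.P.Evgl
import Pool.Agent.Lib.MP_355270_an.CB.P.Evnorm
import Pool.Agent.Lib.MP_355270_an.CB.P.Expmom
import Pool.Agent.Lib.MP_355270_an.CB.P.F1
import Pool.Agent.Lib.MP_355270_an.CB.P.FaFb
import Pool.Agent.Lib.MP_355270_an.CB.P.Far
import Pool.Agent.Lib.MP_355270_an.CB.P.FinalK
import Pool.Agent.Lib.MP_355270_an.CB.P.Glnorm
import Pool.Agent.Lib.MP_355270_an.CB.P.Greedy
import Pool.Agent.Lib.MP_355270_an.CB.P.HS
import Pool.Agent.Lib.MP_355270_an.CB.P.Hoeff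
import Pool.Agent.Lib.MP_355270_an.CB.P.Indep
import Pool.Agent.Lib.MP_355270_an.CB.P.Jensen
import Pool.Agent.Lib.MP_355270_an.CB.P.Lpdiag
import Pool.Agent.Lib.MP_355270_an.CB.P.Mass
import Pool.Agent.Lib.MP_355270_an.CB.P.Matest
import Pool.Agent.Lib.MP_355270_an.CB.P.Mom4
import Pool.Agent.Lib.MP_355270_an.CB.P.Net
import Pool.Agent.Lib.MP_355270_an.CB.P.Numeric
import Pool.Agent.Lib.MP_355270_an.CB.P.Off
import Pool.Agent.Lib.MP_355270_an.CB.P.Op
import Pool.Agent.Lib.MP_355270_an.CB.P.Phnorm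
import Pool.Agent.Lib.MP_355270_an.CB.P.PiBasis
import Pool.Agent.Lib.MP_355270_an.CB.P.PiOne
import Pool.Agent.Lib.MP_355270_an.CB.P.Rad2
import Pool.Agent.Lib.MP_355270_an.CB.P.Rad4
import Pool.Agent.Lib.MP_355270_an.CB.P.RadK
import Pool.Agent.Lib.MP_355270_an.CB.P.Rigid
import Pool.Agent.Lib.MP_355270_an.CB.P.Rowcount
import Pool.Agent.Lib.MP_355270_an.CB.P.Rowcount2
import Pool.Agent.Lib.MP_355270_an.CB.P.Seq
import Pool.Agent.Lib.MP_355270_an.CB.P.Signs
import Pool.Agent.Lib.MP_355270_an.CB.P.Smallball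
import Pool.Agent.Lib.MP_355270_an.CB.P.Sparse
import Pool.Agent.Lib.MP_355270_an.CB.P.Tuples
import Pool.Agent.Lib.MP_355270_an.CB.P.UAs
import Pool.Agent.Lib.MP_355270_an.CB.P.UBdd
import Pool.Agent.Lib.MP_355270_an.CB.P.UC1
import Pool.Agent.Lib.MP_355270_an.CB.P.UC2
import Pool.Agent.Lib.MP_355270_an.CB.P.UC3
import Pool.Agent.Lib.MP_355270_an.CB.P.UD
import Pool.Agent.Lib.MP_355270_an.CB.P.UE
import Pool.Agent.Lib.MP_355270_an.CB.P.UR4
import Pool.Agent.Lib.MP_355270_an.CB.P.UR5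
import Pool.Agent.Lib.MP_355270_an.CB.P.Uav
import Pool.Agent.Lib.MP_355270_an.CB.P.Ucomp
import Pool.Agent.Lib.MP_355270_an.CB.P.Uequiv
import Pool.Agent.Lib.MP_355270_an.CB.P.UiV
import Pool.Agent.Lib.MP_355270_an.CB.P.Ulam
import Pool.Agent.Lib.MP_355270_an.CB.P.UpH
import Pool.Agent.Lib.MP_355270_an.CB.P.Uprod
import Pool.Agent.Lib.MP_355270_an.CB.P.Utr
import Pool.Agent.Lib.MP_355270_an.CB.P.Uv
import Pool.Agent.Lib.MP_355270_an.CB.P.WG
import Pool.Agent.Lib.MP_355270_an.CB.P.Wasys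
import Pool.Agent.Lib.MP_355270_an.CB.P.Wframes
import Pool.Agent.Lib.MP_355270_an.CB.P.Wmul

/-!
# Assembly of the pieces
-/

namespace Pool.Agent.Lib.MP_355270_an.CB

theorem q_net : S_net := p_net

theorem q_hoeff : S_hoeff := p_hoeff

theorem q_op : S_op := p_op q_net q_hoeff

theorem q_greedy : S_greedy := p_greedy

theorem q_jensen : S_jensen := p_jensen

theorem q_rad4 : S_rad4 := p_rad4

theorem q_radK : S_radK := p_radK q_jensen q_rad4

theorem q_rad2 : S_rad2 := p_rad2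

theorem q_mass : S_mass := p_mass q_radK q_rad2

theorem q_far : S_far := p_far q_greedy q_mass

theorem q_dual : S_dual := p_dual

theorem q_sparse : S_sparse := p_sparse

theorem q_approx : S_approx := p_approx q_dual q_sparse

theorem q_expmom : S_expmom := p_expmom

theorem q_smallball : S_smallball := p_smallball q_expmom

theorem q_rowcount : S_rowcount := p_rowcount

theorem q_numeric : S_numeric := p_numeric

theorem q_off : S_off := p_off q_far q_approx q_smallball q_rowcount q_numeric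

theorem q_rowcount2 : S_rowcount2 := p_rowcount2

theorem q_indep : S_indep := p_indep

theorem q_diagJ : S_diagJ := p_diagJ q_indep

theorem q_diag : S_diag := p_diag q_far q_approx q_smallball q_rowcount2 q_numeric q_diagJ

theorem q_tuples : S_tuples := p_tuples

theorem q_rigid : S_rigid := p_rigid q_op q_off q_diag q_tuples

theorem q_mom4 : S_mom4 := p_mom4

theorem q_F1 : S_F1 := p_F1 q_mom4

theorem q_signs : S_signs := p_signs q_rad4

theorem q_DD : S_DD := p_DD q_F1 q_signs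

theorem q_evgl : S_evgl := p_evgl

theorem q_bior : S_bior := p_bior q_evgl

theorem q_evnorm : S_evnorm := p_evnorm

theorem q_bessel : S_bessel := p_bessel q_evnorm

theorem q_glnorm : S_glnorm := p_glnorm

theorem q_enorm : S_enorm := p_enorm q_glnorm

theorem q_beta0 : S_beta0 := p_beta0 q_bessel q_enorm

theorem q_FaFb : S_FaFb := p_FaFb q_bior

theorem q_betaid : S_betaid := p_betaid q_FaFb

theorem q_Phnorm : S_Phnorm := p_Phnorm q_glnorm

theorem q_betastep : S_betastep := p_betastep q_betaid q_Phnorm q_evnorm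

theorem q_beta : S_beta := p_beta q_beta0 q_betastep

theorem q_hS : S_hS := p_hS q_glnorm

theorem q_CTl3 : S_CTl3 := p_CTl3 q_jensen q_rad2

theorem q_CTsub : S_CTsub := p_CTsub

theorem q_davie : S_davie := p_davie q_DD q_bior q_bessel q_enorm q_beta q_hS q_CTl3 q_CTsub q_FaFb

theorem q_UAs : S_UAs := p_UAs

theorem q_Uv : S_Uv := p_Uv q_UAs

theorem q_UD : S_UD := p_UD q_UAs

theorem q_UiV : S_UiV := p_UiV q_UAs

theorem q_Uequiv : S_Uequiv := p_Uequiv q_UiV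

theorem q_Ucomp : S_Ucomp := p_Ucomp q_Uequiv

theorem q_UE : S_UE := p_UE q_UiV

theorem q_UC1 : S_UC1 := p_UC1 q_UAs q_radK q_jensen

theorem q_CTls : S_CTls := p_CTls q_jensen q_rad2

theorem q_CTmono : S_CTmono := p_CTmono

theorem q_CTprod : S_CTprod := p_CTprod

theorem q_CTemb : S_CTemb := p_CTemb

theorem q_UC2 : S_UC2 := p_UC2 q_CTls q_CTmono q_CTprod q_CTemb

theorem q_CTfin : S_CTfin := p_CTfin q_jensen q_rad2 q_CTemb

theorem q_UC3 : S_UC3 := p_UC3 q_Uequiv q_CTfin q_CTmono q_CTprod q_CTemb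

theorem q_UpH : S_UpH := p_UpH q_UiV

theorem q_UR4 : S_UR4 := p_UR4 q_UiV q_UpH q_UAs

theorem q_UBdd : S_UBdd := p_UBdd q_UpH q_UAs

theorem q_Ulam : S_Ulam := p_Ulam q_UpH q_Uv

theorem q_Utr : S_Utr := p_Utr

theorem q_matest : S_matest := p_matest q_Utr

theorem q_Uav : S_Uav := p_Uav

theorem q_Uprod : S_Uprod := p_Uprod q_Uav

theorem q_CTre : S_CTre := p_CTre

theorem q_avg : S_avg := p_avg

theorem q_AVG : S_AVG := p_AVG q_CTre q_avg

theorem q_UR5 : S_UR5 := p_UR5 q_UBdd q_Ulam q_Utr q_matest q_Uav q_Uprod q_AVG q_UC1 q_UiV q_UpH q_Uv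

theorem q_block : S_block := p_block q_rigid q_davie q_Uv q_UD q_Ucomp q_UE q_UC1 q_UC2 q_UC3 q_UR4 q_UR5

theorem q_seq : S_seq := p_seq q_block q_CTmono

theorem q_lpdiag : S_lpdiag := p_lpdiag

theorem q_Wasys : S_Wasys := p_Wasys

theorem q_WG : S_WG := p_WG q_lpdiag

theorem q_CTlp : S_CTlp := p_CTlp

theorem q_Wmul : S_Wmul := p_Wmul q_CTlp q_avg q_CTmono q_CTre

theorem q_Wframes : S_Wframes := p_Wframes q_Wmul

theorem q_CxOp : S_CxOp := p_CxOp

theorem q_CxJ : S_CxJ := p_CxJ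

theorem q_CxAsys : S_CxAsys := p_CxAsys q_CxJ

theorem q_CxXi : S_CxXi := p_CxXi q_CxJ

theorem q_CxDec : S_CxDec := p_CxDec q_CxJ

theorem q_CxDecW : S_CxDecW := p_CxDecW q_CxJ

theorem q_CxFrames : S_CxFrames := p_CxFrames q_CxJ q_CxXi q_CxDec q_CxDecW

theorem q_CxG : S_CxG := p_CxG q_CxJ q_CxOp

theorem q_finalK : S_finalK := p_finalK q_seq q_lpdiag q_Wasys q_WG q_Wframes q_CxOp q_CxAsys q_CxFrames q_CxG

theorem q_piOne : S_piOne := p_piOne

theorem q_piBasis : S_piBasis := p_piBasis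

end Pool.Agent.Lib.MP_355270_an.CB
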