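import Pool.Agent.Lib.MP_355270_an.CB.J

/-!
# Statements of the pieces of Part A

Each `S_xxx` is a closed proposition; its proof is in the docstring.
-/

open Filter Topology

namespace Pool.Agent.Lib.MP_355270_an.CB

/-- Tail variation. If `JBd z C` then the variation far out is small.
Proof: let `s` be the supremum of the numbers `pv z r k` over all `r` and monotone `k` (bounded by
`C ^ 2`). Choose `r0, k0` with `pv z r0 k0 > s - ε` and `M = k0 r0`. For a monotone `k` with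
`M ≤ k 0` concatenate: `K i = k0 i` for `i ≤ r0`, `K (r0 + 1 + i) = k i`. `K` is monotone and
`pv z (r0 + 1 + r) K = pv z r0 k0 + ‖z (k 0) - z (k0 r0)‖ ^ 2 + ∑ i < r, ‖z (k (i+1)) - z (k i)‖ ^ 2
≤ s`. -/
def S_TV : Prop :=
  ∀ (W : Type) [NormedAddCommGroup W] (z : ℕ → W) (C ε : ℝ), JBd z C → 0 < ε →
    ∃ M : ℕ, ∀ (r : ℕ) (k : ℕ → ℕ), Monotone k → M ≤ k 0 →
      ∑ i ∈ Finset.range r, ‖z (k (i + 1)) - z (k i)‖ ^ 2 ≤ ε

/-- Sequences of bounded variation converge. Proof: by `S_TV` (with `r = 1`, `k 0 = m`,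
`k 1 = n`) the sequence is Cauchy. -/
def S_conv : Prop :=
  S_TV → ∀ (W : Type) [NormedAddCommGroup W] [CompleteSpace W] (z : ℕ → W) (C : ℝ), JBd z C →
    ∃ w, Tendsto z atTop (𝓝 w)

/-- `JS V` is complete. Proof: a Cauchy sequence `x n` is coordinatewise Cauchy
(`‖(x n).val j - (x m).val j‖ ≤ ‖x n - x m‖`), the coordinates converge in the finite-dimensional
(closed, complete) spaces `V j` (here `W` is complete), say to `z j ∈ V j`. If `‖x n - x m‖ ≤ ε`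
for `n, m ≥ n0`, then for every `r`, monotone `k`: `pv ((x n).val - (x m).val) r k ≤ ε ^ 2` and
letting `m → ∞` (finite sums of continuous functions of finitely many coordinates)
`pv ((x n).val - z) r k ≤ ε ^ 2`; so `JBd ((x n).val - z) ε`, `z = (x n).val - (...)` is in `JS V`
and `x n → z`. (`Metric.complete_of_cauchySeq_tendsto`.) -/
def S_complete : Prop :=
  ∀ (𝕜 : Type) [RCLike 𝕜] (W : Type) [NormedAddCommGroup W] [NormedSpace 𝕜 W] [CompleteSpace W]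
    (V : ℕ → Submodule 𝕜 W), (∀ j, FiniteDimensional 𝕜 (V j)) → CompleteSpace (JS V)

/-- `XS V D` is closed in `JS V × W`. Proof: let `x` be in the closure, `ε > 0`, `y ∈ XS V D` with
`‖x - y‖ ≤ ε`. Then `‖x.1.val j - D x.2‖ ≤ ‖x.1.val j - y.1.val j‖ + ‖y.1.val j - D y.2‖ +
‖D‖ ‖y.2 - x.2‖ ≤ ε + o(1) + ‖D‖ ε`. -/
def S_closed : Prop :=
  ∀ (𝕜 : Type) [RCLike 𝕜] (W : Type) [NormedAddCommGroup W] [NormedSpace 𝕜 W]
    (V : ℕ → Submodule 𝕜 W) (D : W →L[𝕜] W), IsClosed (XS V D : Set (JS V × W))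

/-- `XS V D` is complete (`IsClosed.completeSpace_coe` and completeness of the product). -/
def S_completeX : Prop :=
  S_complete → S_closed →
  ∀ (𝕜 : Type) [RCLike 𝕜] (W : Type) [NormedAddCommGroup W] [NormedSpace 𝕜 W] [CompleteSpace W]
    (V : ℕ → Submodule 𝕜 W) (D : W →L[𝕜] W), (∀ j, FiniteDimensional 𝕜 (V j)) →
    CompleteSpace (XS V D)

/-- Upper estimate for disjointly supported successive elements.
Proof: let `y = ∑ i < r, u i`, `k` monotone. For each `l` at most two of the vectors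
`inc (u i).val k l` (`i < r`) are non-zero (`(u i).val (k l) ≠ 0` forces `a i ≤ k l ≤ b i`, which
determines `i`, and similarly for `k (l - 1)`). Hence
`‖inc y.val k l‖ ^ 2 ≤ 2 ∑ i < r, ‖inc (u i).val k l‖ ^ 2` (`(∑_{i ∈ T} x_i) ^ 2 ≤ |T| ∑ x_i ^ 2`),
and summing over `l` gives `pv y.val R k ≤ 2 ∑ i < r, pv (u i).val R k ≤ 2 r`. -/
def S_blocks : Prop :=
  ∀ (𝕜 : Type) [RCLike 𝕜] (W : Type) [NormedAddCommGroup W] [NormedSpace 𝕜 W]
    (V : ℕ → Submodule 𝕜 W) (r : ℕ) (u : ℕ → JS V) (a b : ℕ → ℕ), (∀ i, a i ≤ b i) →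
    (∀ i, b i < a (i + 1)) → (∀ i j, (j < a i ∨ b i < j) → (u i).val j = 0) →
    (∀ i, ‖u i‖ ≤ 1) → ‖∑ i ∈ Finset.range r, u i‖ ^ 2 ≤ 2 * r

/-- Lower estimate. `x` is constant after the index `a`, `y` vanishes up to the index `a`.
Proof: it suffices (`‖x‖ ^ 2` is the supremum of the `pv x.val r k`, see `JS.norm_le_iff`) to show
`pv x.val r k + pv y.val r' k' ≤ ‖x + y‖ ^ 2` for monotone `k, k'`. Replace `k i` by `min (k i) a`
and `k' i` by `max (k' i) a`: this does not change `pv x.val r k`, `pv y.val r' k'` (for `y`: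
`y.val (max j a) = y.val j`, as both are `0` if `j ≤ a`). Concatenate: `k 0, ..., k r, a, k' 0, ...,
k' r'`. Along this monotone path the increments of `x + y` are: those of `x` up to `k r` (there `y`
is `0`), then one more increment, then `(x + y)(k' 0) - (x + y)(a) = y (k' 0)`, then those of `y`. -/
def S_lower2 : Prop :=
  ∀ (𝕜 : Type) [RCLike 𝕜] (W : Type) [NormedAddCommGroup W] [NormedSpace 𝕜 W]
    (V : ℕ → Submodule 𝕜 W) (x y : JS V) (a : ℕ), (∀ j, a ≤ j → x.val j = x.val a) →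
    (∀ j, j ≤ a → y.val j = 0) → ‖x‖ ^ 2 + ‖y‖ ^ 2 ≤ ‖x + y‖ ^ 2

/-- Tails of functionals vanish. Proof: suppose not, for some `δ > 0`: for every `m` there are
`n ≥ m` and `z` with `‖f (incX n z - incX m z)‖ > δ ‖z‖`; then `z ≠ 0`, normalise `‖z‖ = 1/4`; the
element `u = trunc n z - trunc m z` is supported in `(m, n]`, `‖u‖ ≤ 1`, and
`‖f (u, 0)‖ > δ / 4`; multiply by a scalar of norm one to have `f (u, 0)` real `> δ / 4`. Choose
successively `m_0 ≤ n_0 ≤ m_1 ≤ n_1 ...` (`m_(i+1) = n_i`), `u_i` supported in `[m_i + 1, n_i]`. By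
`S_blocks` `‖∑ i < r, u_i‖ ^ 2 ≤ 2 r`, hence `r δ / 4 < ‖f‖ sqrt (2 r)` for all `r ≥ 1`
(note `‖(u, 0)‖ = ‖u‖` in `XS V D`), impossible for large `r`. -/
def S_tailf : Prop :=
  S_blocks →
  ∀ (𝕜 : Type) [RCLike 𝕜] (W : Type) [NormedAddCommGroup W] [NormedSpace 𝕜 W]
    (V : ℕ → Submodule 𝕜 W) (D : W →L[𝕜] W) (f : XS V D →L[𝕜] 𝕜) (δ : ℝ), 0 < δ →
    ∃ m : ℕ, ∀ n, m ≤ n → ∀ z : JS V, ‖f (incX V D n z - incX V D m z)‖ ≤ δ * ‖z‖

/-- The same for operators of finite rank: the sequence `T ∘ incX m` is Cauchy. Proof: the range of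
`T` is finite-dimensional; choose a basis `y_1, ..., y_d` of it with coordinate functionals, so
that `T x = ∑ i, f_i x • y_i` with `f_i` continuous (linear functionals on a finite-dimensional
space are continuous), and apply `S_tailf` to each `f_i` with `δ / (1 + ∑ ‖y_i‖)`; use that for
`m ≤ m' ≤ n` the difference `incX n - incX m'` is the difference of two differences. -/
def S_tailT : Prop :=
  S_tailf →
  ∀ (𝕜 : Type) [RCLike 𝕜] (W : Type) [NormedAddCommGroup W] [NormedSpace 𝕜 W]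
    (V : ℕ → Submodule 𝕜 W) (D : W →L[𝕜] W) (Y : Type) [NormedAddCommGroup Y] [NormedSpace 𝕜 Y]
    (T : XS V D →L[𝕜] Y), FR T → CauchySeq fun m => T.comp (incX V D m)

/-- Existence of `Tinf`. Proof: the range `R` of `T` is finite-dimensional, hence complete and
closed; `T` factors through `R`, the operators `T ∘ incX m : JS V → R` form a Cauchy sequence in
the complete space `JS V →L R` (`S_tailT`); take the limit and compose with the inclusion. -/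
def S_exInf : Prop :=
  S_tailT →
  ∀ (𝕜 : Type) [RCLike 𝕜] (W : Type) [NormedAddCommGroup W] [NormedSpace 𝕜 W]
    (V : ℕ → Submodule 𝕜 W) (D : W →L[𝕜] W) (Y : Type) [NormedAddCommGroup Y] [NormedSpace 𝕜 Y]
    (T : XS V D →L[𝕜] Y), FR T →
    ∃ Tinf : JS V →L[𝕜] Y, IsInf T Tinf ∧ (∀ z, ∃ x, Tinf z = T x) ∧ ‖Tinf‖ ≤ 2 * ‖T‖

/-- If `z j → 0` then `trunc m z → z`. Proof: `z - trunc m z` is `0` up to the index `m` and equal to
`z` afterwards. Along monotone `k` let `l` be the first index with `k l > m` (if there is none,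
`pv = 0`): `pv (z - trunc m z) r k = ‖z (k l)‖ ^ 2 + ∑_{l ≤ i < r} ‖z (k (i+1)) - z (k i)‖ ^ 2`,
the first term is small since `z j → 0`, the second by `S_TV` (apply it to `i ↦ k (l + i)`). -/
def S_truncTend : Prop :=
  S_TV →
  ∀ (𝕜 : Type) [RCLike 𝕜] (W : Type) [NormedAddCommGroup W] [NormedSpace 𝕜 W]
    (V : ℕ → Submodule 𝕜 W) (z : JS V), Tendsto z.val atTop (𝓝 0) →
    Tendsto (fun m => trunc V m z) atTop (𝓝 z)

/-- (P1). Proof: `x.1.1` tends to `D x.1.2 = 0`, so `incX m x.1.1 → x` by `S_truncTend`, hence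
`Tinf x.1.1 = lim T (incX m x.1.1) = T x`. -/
def S_P1 : Prop :=
  S_truncTend →
  ∀ (𝕜 : Type) [RCLike 𝕜] (W : Type) [NormedAddCommGroup W] [NormedSpace 𝕜 W]
    (V : ℕ → Submodule 𝕜 W) (D : W →L[𝕜] W) (Y : Type) [NormedAddCommGroup Y] [NormedSpace 𝕜 Y]
    (T : XS V D →L[𝕜] Y) (Tinf : JS V →L[𝕜] Y), IsInf T Tinf → ∀ x : XS V D, x.1.2 = 0 →
    Tinf x.1.1 = T x

/-- Finitely many coordinates control a truncated sequence. Proof: e.g. for a sequence `y` with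
`y j = 0` for `j > m`, `‖y‖ ≤ 2 ∑ j ≤ m, ‖y j‖`: `y = ∑ j ≤ m` (sequence with the single entry
`y j`), and a sequence with a single entry `w` satisfies `JBd _ (2 * ‖w‖)`. Apply it to
`y = trunc m (zν a) - trunc m z`. -/
def S_truncCoord : Prop :=
  ∀ (𝕜 : Type) [RCLike 𝕜] (W : Type) [NormedAddCommGroup W] [NormedSpace 𝕜 W]
    (V : ℕ → Submodule 𝕜 W) (α : Type) (l : Filter α) (zν : α → JS V) (z : JS V),
    (∀ j, Tendsto (fun a => (zν a).val j) l (𝓝 (z.val j))) →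
    ∀ m, Tendsto (fun a => trunc V m (zν a)) l (𝓝 (trunc V m z))

/-- (P2) `Tinf` is continuous for bounded coordinatewise convergence. Proof: given `δ > 0` choose `m`
with `‖T ∘ incX m - Tinf‖ ≤ δ`. Then `‖Tinf (zν a) - Tinf z‖ ≤ δ (C + ‖z‖) +
‖T (incX m (zν a) - incX m z)‖` and the last term tends to `0` by `S_truncCoord`. -/
def S_P2 : Prop :=
  S_truncCoord →
  ∀ (𝕜 : Type) [RCLike 𝕜] (W : Type) [NormedAddCommGroup W] [NormedSpace 𝕜 W]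
    (V : ℕ → Submodule 𝕜 W) (D : W →L[𝕜] W) (Y : Type) [NormedAddCommGroup Y] [NormedSpace 𝕜 Y]
    (T : XS V D →L[𝕜] Y) (Tinf : JS V →L[𝕜] Y), IsInf T Tinf →
    ∀ (α : Type) (l : Filter α) (zν : α → JS V) (z : JS V) (C : ℝ), (∀ a, ‖zν a‖ ≤ C) →
    (∀ j, Tendsto (fun a => (zν a).val j) l (𝓝 (z.val j))) →
    Tendsto (fun a => Tinf (zν a)) l (𝓝 (Tinf z))

/-- The operator `T♭`. Proof: let `E = ⋃ j, V j` (an increasing union of subspaces, dense in `W`). For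
`w ∈ V j` put `L w = R x_w`, `x_w = XS.mk (cst mono j ⟨D w, _⟩) w _` (its sequence is eventually equal to
`D w`). It does not depend on `j` and is linear on `E` because the difference of two elements of
`XS V D` with the same second coordinate is killed by `R`; `‖x_w‖ ≤ (‖D‖ + 1) ‖w‖`, so
`‖L w‖ ≤ (‖D‖ + 1) ‖R‖ ‖w‖`. `L` takes its values in the finite-dimensional (so complete) space
`range R`; extend it by density to `Tb : W → range R ⊆ Y` (e.g. `LinearMap.extend` /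
`ContinuousLinearMap.extend` along the inclusion of `⨆ j, V j` in `W`). The continuous maps `R` and
`x ↦ Tb x.1.2` agree on the dense set of the hypothesis (there `x.1.2 ∈ V M`, and
`x - x_w` has second coordinate `0`), hence everywhere. -/
def S_Tb : Prop :=
  ∀ (𝕜 : Type) [RCLike 𝕜] (W : Type) [NormedAddCommGroup W] [NormedSpace 𝕜 W]
    (V : ℕ → Submodule 𝕜 W) (D : W →L[𝕜] W), ASys V D →
    (Dense {x : XS V D | ∃ M, x.1.2 ∈ V M ∧ ∀ j, M ≤ j → x.1.1.val j = D x.1.2}) →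
    ∀ (Y : Type) [NormedAddCommGroup Y] [NormedSpace 𝕜 Y] (R : XS V D →L[𝕜] Y), FR R →
    (∀ x, x.1.2 = 0 → R x = 0) →
    ∃ Tb : W →L[𝕜] Y, FR Tb ∧ (∀ x, R x = Tb x.1.2) ∧ ‖Tb‖ ≤ (‖D‖ + 1) * ‖R‖

/-- Density. Proof: let `x = (z, w) : XS V D` and `ε > 0`. Choose `M0`, `w' ∈ V M0` with
`‖w - w'‖ ≤ ε`. For `m ≥ M0` let `z' = trunc m z + cst (m+1) (D w')` (`D w' ∈ V M0 ⊆ V (m+1)`), so
`x' = (z', w') ∈ XS V D` has the required form. `z - z'` vanishes up to the index `m` and is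
`z j - D w'` for `j > m`. Along monotone `k`, with `l` the first index with `k l > m`:
`pv (z - z') r k = ‖z (k l) - D w'‖ ^ 2 + ∑_{l ≤ i < r} ‖z (k (i+1)) - z (k i)‖ ^ 2`; the second
sum is `≤ ε ^ 2` for large `m` by `S_TV` and `‖z (k l) - D w'‖ ≤ ‖z (k l) - D w‖ + ‖D‖ ε ≤
(1 + ‖D‖) ε` for large `m`. -/
def S_denseX : Prop :=
  S_TV →
  ∀ (𝕜 : Type) [RCLike 𝕜] (W : Type) [NormedAddCommGroup W] [NormedSpace 𝕜 W]
    (V : ℕ → Submodule 𝕜 W) (D : W →L[𝕜] W), ASys V D →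
    Dense {x : XS V D | ∃ M, x.1.2 ∈ V M ∧ ∀ j, M ≤ j → x.1.1.val j = D x.1.2}

/-- (E2), first half. Proof: `T (incX m z) = T (T' (incX m z))`, and `T' (incX m z) → Tinf' z`,
`T (incX m z) → Tinf z` as `m → ∞`. -/
def S_E2 : Prop :=
  ∀ (𝕜 : Type) [RCLike 𝕜] (W : Type) [NormedAddCommGroup W] [NormedSpace 𝕜 W]
    (V : ℕ → Submodule 𝕜 W) (D : W →L[𝕜] W) (T T' : XS V D →L[𝕜] XS V D)
    (Tinf Tinf' : JS V →L[𝕜] XS V D), IsInf T Tinf → IsInf T' Tinf' → T.comp T' = T →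
    ∀ z, Tinf z = T (Tinf' z)

/-- The operator `D0 z = z - lim ζ`. Proof: for `z : JS V`, `l`, put `ζ l = (Tinf l z).1.1 : JS V`,
`‖ζ l‖ ≤ C ‖z‖`. For each `j` the points `(ζ l).val j` lie in a closed ball of the
finite-dimensional space `V j` (compact), so they converge along the ultrafilter
`Filter.hyperfilter ℕ` to a point `ζ∞ j ∈ V j`. `JBd ζ∞ (C ‖z‖)`: for each `r`, `k` the number
`pv ζ∞ r k` is the limit of `pv (ζ l).val r k ≤ (C ‖z‖) ^ 2`. By uniqueness of limits `z ↦ ζ∞` is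
linear, it is bounded by `C`. Put `D0 z = z - ζ∞`. If `z.val → 0`, the element `x = (z, 0)` is in
`XS V D`, `Tinf l z = T l x → x` (`hP1` and the convergence of `T l x`), so `(ζ l).val j → z.val j`
(coordinates are continuous) and `ζ∞ = z`. (`hyperfilter ℕ ≤ atTop`: `Nat.hyperfilter_le_atTop`.) -/
def S_D0 : Prop :=
  ∀ (𝕜 : Type) [RCLike 𝕜] (W : Type) [NormedAddCommGroup W] [NormedSpace 𝕜 W] [CompleteSpace W]
    (V : ℕ → Submodule 𝕜 W) (D : W →L[𝕜] W), ASys V D →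
    ∀ (T : ℕ → XS V D →L[𝕜] XS V D) (Tinf : ℕ → JS V →L[𝕜] XS V D) (C : ℝ),
    (∀ l, ‖Tinf l‖ ≤ C) → (∀ x, Tendsto (fun l => T l x) atTop (𝓝 x)) →
    (∀ l, ∀ x : XS V D, x.1.2 = 0 → Tinf l x.1.1 = T l x) →
    ∃ D0 : JS V →L[𝕜] JS V, (∀ z : JS V, Tendsto z.val atTop (𝓝 0) → D0 z = 0) ∧
      ∀ (z : JS V) (j : ℕ), Tendsto (fun l => (Tinf l z).1.1.val j) (hyperfilter ℕ : Filter ℕ)
        (𝓝 ((z - D0 z).val j))

/-- The output of a commuting approximative basis of `XS V D`. Proof. Let `T` be a commuting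
approximative basis, `‖T l‖ ≤ C0` (Banach-Steinhaus, `XS V D` is complete). Let `Tinf l` be given by
`S_exInf` (`‖Tinf l‖ ≤ 2 C0`), `R l x = T l x - Tinf l x.1.1` (finite rank because `Tinf l z` is in
the range of `T l`; vanishes if `x.1.2 = 0` by `S_P1`), `Tb l` from `S_Tb`,
`τ l = prW ∘ Tb l`, `b l j x = prW (Tinf l (cst j x))`. (E1): for `x ∈ V j` the element
`y = (cst j (D x), x) : XS V D` satisfies `prW (T l y) = b l j (D x) + τ l x` and `T l y → y`.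
(E2): for `l < l'`, `T l ∘ T l' = T l`, `S_E2` gives `Tinf l z = T l (Tinf l' z) =
Tinf l ζ + Tb l ω` with `Tinf l' z = (ζ, ω)`, so `Tb l ω = Tinf l (z - ζ)`. Take `z = cst j x`:
`ω = b l' j x`, and along the hyperfilter `z - ζ^(l')` is bounded and tends coordinatewise to
`D0 z` (`S_D0`), so `τ l (b l' j x) → prW (Tinf l (D0 (cst j x)))` by `S_P2`. Here
`‖prW (Tinf l u)‖ ≤ 2 C0 ‖u‖`. -/
def S_ext : Prop :=
  S_TV → S_blocks → S_completeX → S_exInf → S_P1 → S_P2 → S_truncCoord → S_truncTend → S_Tb →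
  S_denseX → S_E2 → S_D0 → S_complete → S_closed → S_tailT → S_tailf →
  ∀ (𝕜 : Type) [RCLike 𝕜] (W : Type) [NormedAddCommGroup W] [NormedSpace 𝕜 W] [CompleteSpace W]
    (V : ℕ → Submodule 𝕜 W) (D : W →L[𝕜] W) (h : ASys V D), HasCAB 𝕜 (XS V D) →
    ∃ (C : ℝ) (D0 : JS V →L[𝕜] JS V) (τ : ℕ → W →L[𝕜] W) (b : ℕ → ∀ j, V j →L[𝕜] W),
      0 ≤ C ∧ (∀ z : JS V, Tendsto z.val atTop (𝓝 0) → D0 z = 0) ∧
      (∀ l, FR (τ l)) ∧ (∀ l, ‖τ l‖ ≤ C) ∧ (∀ l j, ‖b l j‖ ≤ C) ∧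
      (∀ j (x : V j), Tendsto (fun l => b l j ⟨D (x : W), h.inv j _ x.2⟩ + τ l (x : W)) atTop
        (𝓝 (x : W))) ∧
      (∀ l j (x : V j), ∃ y : W, ‖y‖ ≤ C * ‖D0 (cst h.mono j x)‖ ∧
        Tendsto (fun l' => τ l (b l' j x)) (hyperfilter ℕ : Filter ℕ) (𝓝 y))

/-- Coordinates of `D0 (cst x_i)` tend to `0`. Proof: fix `m`. The vectors
`s i = (D0 (cst (j i) x_i)).val m ∈ V m` are bounded (take `S = {i}` in `hup`: `‖x i‖ ≤ 2`). If they do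
not tend to `0`, then by compactness (closed balls of `V m` are compact) there is an infinite set
`A` of indices along which `s i → s`, `s ≠ 0`; taking `A` smaller we may assume
`‖s i - s‖ ≤ ‖s‖ / 2` for `i ∈ A`. For finite `S ⊆ A`: `‖∑_{i ∈ S} s i‖ ≥ |S| ‖s‖ / 2`. On the other
hand, with `J ≥ j i` for `i ∈ S`, `∑_{i ∈ S} D0 (cst (j i) x_i) = D0 (cst J (∑ x_i))` (the
difference `cst (j i) x_i - cst J x_i` is eventually `0`, so `D0` kills it), hence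
`‖∑ s i‖ ≤ ‖D0‖ ‖∑_{i ∈ S} x i‖ ≤ ‖D0‖ 2 |S| ^ (1/3)`, i.e.
`‖∑ s i‖ ^ 3 ≤ ‖D0‖ ^ 3 8 |S|`. So `|S| ^ 3 (‖s‖/2) ^ 3 ≤ 8 ‖D0‖ ^ 3 |S|`, false for large `|S|`. -/
def S_L3coord : Prop :=
  ∀ (𝕜 : Type) [RCLike 𝕜] (W : Type) [NormedAddCommGroup W] [NormedSpace 𝕜 W] [CompleteSpace W]
    (V : ℕ → Submodule 𝕜 W) (D : W →L[𝕜] W) (h : ASys V D) (D0 : JS V →L[𝕜] JS V),
    (∀ z : JS V, Tendsto z.val atTop (𝓝 0) → D0 z = 0) →
    ∀ (j : ℕ → ℕ) (x : ∀ i, V (j i)),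
    (∀ (S : Finset ℕ) (c : ℕ → 𝕜), (∀ i, ‖c i‖ ≤ 1) →
      ‖∑ i ∈ S, c i • (x i : W)‖ ^ 3 ≤ 8 * (S.card : ℝ)) →
    ∀ m, Tendsto (fun i => (D0 (cst h.mono (j i) (x i))).val m) atTop (𝓝 0)

/-- Norm of a finite sum. Proof: with `J ≥ j i` for all `i ∈ S`,
`∑_{i ∈ S} D0 (cst (j i) x_i) = D0 (cst J (∑_{i ∈ S} x_i))` because `cst (j i) x_i - cst J x_i` is
eventually zero and `D0` kills it; `‖cst J y‖ ≤ ‖y‖`; use the hypothesis with `c = 1`. -/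
def S_L3sum : Prop :=
  ∀ (𝕜 : Type) [RCLike 𝕜] (W : Type) [NormedAddCommGroup W] [NormedSpace 𝕜 W]
    (V : ℕ → Submodule 𝕜 W) (D : W →L[𝕜] W) (h : ASys V D) (D0 : JS V →L[𝕜] JS V),
    (∀ z : JS V, Tendsto z.val atTop (𝓝 0) → D0 z = 0) →
    ∀ (j : ℕ → ℕ) (x : ∀ i, V (j i)),
    (∀ (S : Finset ℕ) (c : ℕ → 𝕜), (∀ i, ‖c i‖ ≤ 1) →
      ‖∑ i ∈ S, c i • (x i : W)‖ ^ 3 ≤ 8 * (S.card : ℝ)) →
    ∀ S : Finset ℕ, ‖∑ i ∈ S, D0 (cst h.mono (j i) (x i))‖ ^ 3 ≤ 8 * ‖D0‖ ^ 3 * (S.card : ℝ)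

/-- Freezing converges. Proof: `z - frz m z` is `0` up to the index `m` and `z j - z m` afterwards. Along
monotone `k`, with `l` the first index with `k l > m`, its variation is
`‖z (k l) - z m‖ ^ 2 + ∑_{l ≤ i < r} ‖z (k (i+1)) - z (k i)‖ ^ 2`, which is the variation sum of
`S_TV` along `m, k l, k (l+1), ...`; so it is `≤ ε` for `m ≥ M`. -/
def S_frz : Prop :=
  S_TV →
  ∀ (𝕜 : Type) [RCLike 𝕜] (W : Type) [NormedAddCommGroup W] [NormedSpace 𝕜 W]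
    (V : ℕ → Submodule 𝕜 W) (hV : Monotone V) (z : JS V),
    Tendsto (fun m => frz hV m z) atTop (𝓝 z)

/-- Gliding hump. Proof: let `‖y i‖ ≥ δ > 0` for infinitely many `i`. We show by induction on `q`: for
every `q` there are a finite set `S` of such indices, `S.card = q`, an index `a` and an element `u`
of `JS V` which is constant after `a`, with `‖u‖ ^ 2 ≥ q (δ/2) ^ 2` and
`‖∑_{i ∈ S} y i - u‖ ≤ (δ/8) (1 - 2 ^ (-q))`. Step: given these for `q`, choose `i ∉ S` with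
`‖y i‖ ≥ δ` and `‖trunc a (y i)‖ ≤ η`, `η = (δ/8) 2 ^ (-q-2)` (possible for all large `i` by
`S_truncCoord` and the hypothesis on the coordinates), then `a' > a` with
`‖y i - frz a' (y i)‖ ≤ η` (`S_frz`). Put `w = frz a' (y i - trunc a (y i))`: it vanishes up to `a`, is
constant after `a'`, `‖w - y i‖ ≤ 2 η` (`‖frz a' x‖ ≤ ‖x‖`), so `‖w‖ ≥ δ - 2 η ≥ δ / 2`. By
`S_lower2`, `‖u + w‖ ^ 2 ≥ ‖u‖ ^ 2 + ‖w‖ ^ 2 ≥ (q + 1) (δ/2) ^ 2`, and `u + w` is constant after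
`a'`. At the end: `‖∑_{i ∈ S} y i‖ ≥ ‖u‖ - δ/8 ≥ sqrt q δ / 2 - δ / 8 ≥ sqrt q δ / 4` for
`q ≥ 1`. So `c = (δ/4) ^ 2` works. -/
def S_hump : Prop :=
  S_truncCoord → S_frz → S_lower2 →
  ∀ (𝕜 : Type) [RCLike 𝕜] (W : Type) [NormedAddCommGroup W] [NormedSpace 𝕜 W]
    (V : ℕ → Submodule 𝕜 W), Monotone V → ∀ (y : ℕ → JS V),
    (∀ m, Tendsto (fun i => (y i).val m) atTop (𝓝 0)) →
    ¬ Tendsto (fun i => ‖y i‖) atTop (𝓝 0) →
    ∃ c : ℝ, 0 < c ∧ ∀ q : ℕ, ∃ S : Finset ℕ, S.card = q ∧ c * q ≤ ‖∑ i ∈ S, y i‖ ^ 2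

/-- (L3). Proof: if not, `S_hump` (with `y i = D0 (cst (j i) x_i)`, `S_L3coord`) gives `c > 0` and sets
`S`, `S.card = q`, with `c q ≤ ‖∑ y‖ ^ 2`, while `‖∑ y‖ ^ 3 ≤ 8 ‖D0‖ ^ 3 q` (`S_L3sum`). Hence
`(c q) ^ 3 ≤ ‖∑ y‖ ^ 6 ≤ 64 ‖D0‖ ^ 6 q ^ 2` for all `q`, impossible. -/
def S_L3 : Prop :=
  S_hump → S_L3coord → S_L3sum → S_truncCoord → S_frz → S_lower2 → S_TV →
  ∀ (𝕜 : Type) [RCLike 𝕜] (W : Type) [NormedAddCommGroup W] [NormedSpace 𝕜 W] [CompleteSpace W]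
    (V : ℕ → Submodule 𝕜 W) (D : W →L[𝕜] W) (h : ASys V D) (D0 : JS V →L[𝕜] JS V),
    (∀ z : JS V, Tendsto z.val atTop (𝓝 0) → D0 z = 0) →
    ∀ (j : ℕ → ℕ) (x : ∀ i, V (j i)),
    (∀ (S : Finset ℕ) (c : ℕ → 𝕜), (∀ i, ‖c i‖ ≤ 1) →
      ‖∑ i ∈ S, c i • (x i : W)‖ ^ 3 ≤ 8 * (S.card : ℝ)) →
    Tendsto (fun i => ‖D0 (cst h.mono (j i) (x i))‖) atTop (𝓝 0)

/-- The arithmetic at the end. Proof: `‖β N‖ ≥ 3/4` because `β N = 1 - t N`. If `n < N` and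
`‖β (n+1)‖ ≥ 3/4` then `‖β n‖ ≥ 1/2`, so `‖t n‖ ≤ 1/8` and `‖β n‖ ≥ ‖(n/N) β n‖ = ‖1 - t n‖ ≥ 7/8`.
By descending induction `‖β 0‖ ≥ 3/4`; but `t 0 = 1`, so `‖t 0 β 0‖ ≥ 3/4 > 1/16`. -/
def S_arith : Prop :=
  ∀ (𝕜 : Type) [RCLike 𝕜] (N : ℕ) (β t : ℕ → 𝕜), 1 ≤ N →
    (∀ n, n ≤ N → ((n : 𝕜) / (N : 𝕜)) * β n + t n = 1) → ‖t N‖ ≤ 1 / 4 →
    (∀ n, n ≤ N → ‖t n * β n‖ ≤ 1 / 16) → (∀ n, n < N → ‖β n - β (n + 1)‖ ≤ 1 / 4) → False

/-- One block gives a contradiction. Proof: write `M_n(x) = av (Ξ i) x`. `β_l n = av Ξ (b l (jj i) v_n)`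
and `t_l n = av Ξ (τ l v_n)` are bounded in `l` (by `2 C`), hence converge along the hyperfilter
`U` to `β n`, `t n` (`𝕜` is proper). By (E1) (with `D v = (n/N) v` and linearity of `b l j`)
`(n/N) β_l n + t_l n → av Ξ v_n = 1`. `‖t_l N‖ ≤ ε i ‖τ l‖ ≤ 1/4` (`hfr`). `hmul` with `A = τ l`,
`B = b l' (jj i)` restricted to `F i` (norm `≤ C`): `‖av Ξ (τ l (b l' v)) - t_l n β_l' n‖ ≤ ε i C C`; let
`l' → U`: `‖av Ξ y - t_l n β n‖ ≤ ε i C ^ 2` with `‖y a‖ ≤ C ‖D0 (cst v a)‖ ≤ C δ`, so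
`‖t_l n β n‖ ≤ ε i C ^ 2 + C δ ≤ 1/16`; let `l → U`. Finally
`‖β_l n - β_l (n+1)‖ = ‖av Ξ (b l (v_n - v_(n+1)))‖ ≤ C ν i ≤ 1/4`. Conclude by `S_arith`. -/
def S_core : Prop :=
  S_arith →
  ∀ (𝕜 : Type) [RCLike 𝕜] (W : Type) [NormedAddCommGroup W] [NormedSpace 𝕜 W] [CompleteSpace W]
    (V : ℕ → Submodule 𝕜 W) (D : W →L[𝕜] W) (h : ASys V D) (Fr : Frames V D) (i : ℕ)
    (C δ : ℝ) (D0 : JS V →L[𝕜] JS V) (τ : ℕ → W →L[𝕜] W) (b : ℕ → V (Fr.jj i) →L[𝕜] W),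
    0 ≤ C → (∀ l, FR (τ l)) → (∀ l, ‖τ l‖ ≤ C) → (∀ l, ‖b l‖ ≤ C) →
    (∀ x : V (Fr.jj i), Tendsto (fun l => b l ⟨D (x : W), h.inv _ _ x.2⟩ + τ l (x : W)) atTop
      (𝓝 (x : W))) →
    (∀ l (x : V (Fr.jj i)), ∃ y : W, ‖y‖ ≤ C * ‖D0 (cst h.mono (Fr.jj i) x)‖ ∧
      Tendsto (fun l' => τ l (b l' x)) (hyperfilter ℕ : Filter ℕ) (𝓝 y)) →
    (∀ n a, n ≤ Fr.N i →
      ‖D0 (cst h.mono (Fr.jj i) ⟨(Fr.v i n a : W), Fr.hF i (Fr.v i n a).2⟩)‖ ≤ δ) →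
    Fr.ε i * C ≤ 1 / 4 → Fr.ε i * C ^ 2 + C * δ ≤ 1 / 16 → C * Fr.ν i ≤ 1 / 4 → False

/-- Main theorem of Part A, negative half. Proof: `S_ext` gives `C, D0, τ, b`. For each `i` let
`(n_i, a_i)` maximise `‖D0 (cst (v i n a))‖` over the finite set `n ≤ N i`, `a ∈ ι i`, and `δ_i` the
maximum. By `S_L3` (for `x i = v i n_i a_i`, hypothesis `hup`) `δ_i → 0`. As `ε i → 0`, `ν i → 0`, some `i`
satisfies the numerical hypotheses of `S_core`: contradiction. -/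
def S_noCAB : Prop :=
  S_core → S_ext → S_L3 → S_arith → S_hump → S_L3coord → S_L3sum → S_frz → S_lower2 →
  S_TV → S_blocks → S_completeX → S_exInf → S_P1 → S_P2 → S_truncCoord → S_truncTend → S_Tb →
  S_denseX → S_E2 → S_D0 → S_complete → S_closed → S_tailT → S_tailf →
  ∀ (𝕜 : Type) [RCLike 𝕜] (W : Type) [NormedAddCommGroup W] [NormedSpace 𝕜 W] [CompleteSpace W]
    (V : ℕ → Submodule 𝕜 W) (D : W →L[𝕜] W), ASys V D → Frames V D → ¬ HasCAB 𝕜 (XS V D)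

/-- The operator `T1_m`. Proof: `T1 x = (mapJ D (frz m x.1.1), x.1.1.val m)`: the sequence
`D (z (min j m))` is eventually equal to `D (z m)`. Finite rank: the operator factors through the
linear map `x ↦ (x.1.1.val j)_{j ≤ m}` into the finite-dimensional space `∏_{j ≤ m} V j`. -/
def S_T1 : Prop :=
  ∀ (𝕜 : Type) [RCLike 𝕜] (W : Type) [NormedAddCommGroup W] [NormedSpace 𝕜 W]
    (V : ℕ → Submodule 𝕜 W) (D : W →L[𝕜] W), ASys V D → ∀ m : ℕ,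
    ∃ T1 : XS V D →L[𝕜] XS V D, FR T1 ∧ ‖T1‖ ≤ ‖D‖ + 1 ∧
      (∀ x j, (T1 x).1.1.val j = D (x.1.1.val (min j m))) ∧ ∀ x, (T1 x).1.2 = x.1.1.val m

/-- The operator `T2`. `T2 x = (G z_0, ..., G z_m, G D w, G D w, ...; G w)` for `x = (z, w)`. The
sequence is in `JS V`: `G z_j ∈ V j`, `G D w ∈ V m ⊆ V j` for `j > m`; its limit is `G D w = D G w`.
Norm: the sequence `z_0, ..., z_m, D w, D w, ...` satisfies `JBd _ ‖z‖` because `D w = lim z`: for monotone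
`k`, `r` the variation is the limit for `n → ∞` of the variation of `z` along the monotone path
`k i` if `k i ≤ m`, `max n m` otherwise (all indices `> m` give the same value). Apply `JBd.mapJ`.
Finite rank: `T2 x` depends linearly on `(z_0, ..., z_m) ∈ ∏_{j ≤ m} V j` and on
`(G D w, G w) ∈ V m × V m`. -/
def S_T2 : Prop :=
  ∀ (𝕜 : Type) [RCLike 𝕜] (W : Type) [NormedAddCommGroup W] [NormedSpace 𝕜 W]
    (V : ℕ → Submodule 𝕜 W) (D : W →L[𝕜] W), ASys V D → ∀ (m : ℕ) (G : W →L[𝕜] W),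
    (∀ j, ∀ x ∈ V j, G x ∈ V j) → (∀ x, G x ∈ V m) → (∀ x, D (G x) = G (D x)) →
    ∃ T2 : XS V D →L[𝕜] XS V D, FR T2 ∧ ‖T2‖ ≤ ‖G‖ ∧
      (∀ x j, (T2 x).1.1.val j = if j ≤ m then G (x.1.1.val j) else G (D x.1.2)) ∧
      ∀ x, (T2 x).1.2 = G x.1.2

/-- Main theorem of Part A, positive half. Proof: choose `m i ≥ i` with `G i x ∈ V (m i)` for all `x`
and let `T i = T1 (m i) + T2 (m i) (G i)` (`S_T1`, `S_T2`), of finite rank, `‖T i‖ ≤ ‖D‖ + 1 + C`.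
On the dense set of `S_denseX`: let `x = (z, w)`, `w ∈ V M`, `z j = D w` for `j ≥ M`. For `i ≥ M`
(so `m = m i ≥ M`), `z m = D w`, and `T i x - x` has the sequence `D z_j + G i z_j - z_j` (for
`j > m` too, since there `z_j = D w`, `D (z_m) = D z_j`) and the second coordinate
`D w + G i w - w`; both tend to `0`: the sequence is the image of `z` under the operator
`D + G i - 1` and `z` is a finite sum of elements `cst j u` (`z = ∑_{j ≤ M} cst j (z_j - z_(j-1))`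
if `z_j - z_(j-1) ∈ V j`, which holds), for which `‖(D + G i - 1)(cst j u)‖ ≤ ‖(D + G i - 1) u‖ → 0`.
A uniformly bounded sequence of operators converging to the identity on a dense set converges
everywhere. -/
def S_AB : Prop :=
  S_T1 → S_T2 → S_denseX → S_TV →
  ∀ (𝕜 : Type) [RCLike 𝕜] (W : Type) [NormedAddCommGroup W] [NormedSpace 𝕜 W]
    (V : ℕ → Submodule 𝕜 W) (D : W →L[𝕜] W), ASys V D →
    ∀ (G : ℕ → W →L[𝕜] W) (C : ℝ), (∀ i, ‖G i‖ ≤ C) → (∀ i j, ∀ x ∈ V j, G i x ∈ V j) →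
    (∀ i, ∃ m, ∀ x, G i x ∈ V m) → (∀ i x, D (G i x) = G i (D x)) →
    (∀ w, Tendsto (fun i => G i w) atTop (𝓝 (w - D w))) → HasAB 𝕜 (XS V D)

end Pool.Agent.Lib.MP_355270_an.CB
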