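import Pool.Agent.Lib.MP_355270_an.CB.DefD

/-!
# Statements of Part B: averages over signs, the class `CT`, the Davie space
-/

open Filter Topology
open scoped ENNReal

namespace Pool.Agent.Lib.MP_355270_an.CB

/-! ### Averages over signs -/

/-- Second moment in a Hilbert space. Proof: expand the square of the norm; for `i ≠ j`
`∑_θ sg (θ i) sg (θ j) = 0` (flip the sign `i`). -/
def S_rad2 : Prop :=
  ∀ (H : Type) [NormedAddCommGroup H] [InnerProductSpace ℝ H] (ι : Type) [Fintype ι]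
    [DecidableEq ι] (c : ι → H),
    rad (fun θ => ‖∑ i, sg (θ i) • c i‖ ^ 2) = ∑ i, ‖c i‖ ^ 2

/-- Fourth moment. Proof: for a finset `T` let `X_T = ∑_{i ∈ T} sg (θ i) c i`. By induction on `T`
`rad (X_T ^ 4) ≤ 3 (∑_{i ∈ T} c i ^ 2) ^ 2` and `rad (X_T ^ 2) = ∑_{i ∈ T} c i ^ 2`: for `i ∉ T`,
`(X + sg (θ i) c) ^ 4 = X ^ 4 + 6 c ^ 2 X ^ 2 + c ^ 4 + sg (θ i) (4 X ^ 3 c + 4 X c ^ 3)` and the average
of the last term vanishes (flip the sign `i`, on which `X` does not depend). -/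
def S_rad4 : Prop :=
  ∀ (ι : Type) [Fintype ι] [DecidableEq ι] (c : ι → ℝ),
    rad (fun θ => (∑ i, sg (θ i) * c i) ^ 4) ≤ 3 * (∑ i, c i ^ 2) ^ 2

/-- Jensen's inequality (power means). Proof: `Real.rpow_arith_mean_le_arith_mean_rpow` with the
weights `2 ^ (-|ι|)`, the function `f ^ p` and the exponent `q / p ≥ 1`. -/
def S_jensen : Prop :=
  ∀ (ι : Type) [Fintype ι] [DecidableEq ι] (f : (ι → Bool) → ℝ) (p q : ℝ), (∀ θ, 0 ≤ f θ) →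
    0 < p → p ≤ q → rad (fun θ => f θ ^ p) ≤ (rad fun θ => f θ ^ q) ^ (p / q)

/-- Moments of order at most 4. Proof: `S_jensen` with exponents `s ≤ 4` and `S_rad4`:
`rad |X|^s ≤ (rad |X|^4) ^ (s/4) ≤ (3 (∑ c ^ 2) ^ 2) ^ (s/4) ≤ 3 (∑ c ^ 2) ^ (s/2)`. -/
def S_radK : Prop :=
  ∀ (ι : Type) [Fintype ι] [DecidableEq ι] (c : ι → ℝ) (s : ℝ), 0 < s → s ≤ 4 →
    rad (fun θ => |∑ i, sg (θ i) * c i| ^ s) ≤ 3 * (∑ i, c i ^ 2) ^ (s / 2)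

/-! ### The class `CT` -/

/-- Reindexing. Proof: `Fintype.equivFin` and `Fintype.sum_equiv`. -/
def S_CTre : Prop :=
  ∀ (Y : Type) [NormedAddCommGroup Y] [NormedSpace ℝ Y] (r K : ℝ), CT Y r K →
    ∀ (ι : Type) [Fintype ι] [DecidableEq ι] (y : ι → Y),
      (∑ b, ‖y b‖ ^ r) ^ (3 / r) ≤ K ^ 3 * rad fun θ : ι → Bool => ‖∑ b, sg (θ b) • y b‖ ^ 3

/-- `ℓ_s` (finite index set, `s ≥ 3`) has `CT s 1`. Proof: put `t = s / 3 ≥ 1` and, for a sign `θ`,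
`X θ p = ∑_b sg (θ b) y_b p`. The vector `f θ p = |X θ p| ^ 3` has `ℓ_t` norm
`(∑_p |X θ p| ^ s) ^ (3/s) = ‖∑_b sg (θ b) y_b‖ ^ 3`. By the triangle inequality in `ℓ_t`
(`Real.Lp_add_le` iterated, or convexity of the norm of `PiLp t`) `rad ‖f θ‖_t ≥ ‖rad f‖_t`. For each `p`
`rad |X θ p| ^ 3 ≥ (rad |X θ p| ^ 2) ^ (3/2) = (∑_b |y_b p| ^ 2) ^ (3/2)` (`S_jensen`, `S_rad2` with
`H = ℝ`), so `‖rad f‖_t ^ t ≥ ∑_p (∑_b |y_b p| ^ 2) ^ (s/2) ≥ ∑_p ∑_b |y_b p| ^ s`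
(superadditivity of `x ^ (s/2)`) `= ∑_b ‖y_b‖ ^ s`. -/
def S_CTls : Prop :=
  ∀ (P : Type) [Fintype P] (s : ℝ) [Fact (1 ≤ ENNReal.ofReal s)], 3 ≤ s →
    CT (PiLp (ENNReal.ofReal s) (fun _ : P => ℝ)) s 1

/-- `ℓ_3` of any index set has `CT 3 1`. Proof: `‖f‖ ^ 3 = ∑' ω, |f ω| ^ 3`; for each `ω`
`rad |∑_b sg (θ b) y_b ω| ^ 3 ≥ (∑_b |y_b ω| ^ 2) ^ (3/2) ≥ ∑_b |y_b ω| ^ 3`; sum over `ω` (all sums
converge, `rad` is a finite sum). -/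
def S_CTl3 : Prop :=
  ∀ (Ω : Type), CT (lp (fun _ : Ω => ℝ) 3) 3 1

/-- Subspaces. Proof: trivial, the norm is the norm of the space. -/
def S_CTsub : Prop :=
  ∀ (Y : Type) [NormedAddCommGroup Y] [NormedSpace ℝ Y] (r K : ℝ) (Z : Submodule ℝ Y), CT Y r K →
    CT Z r K

/-- Monotonicity. Proof: `(∑ a ^ r) ^ (1/r) ≤ (∑ a ^ s) ^ (1/s)` for `s ≤ r`, cube it. -/
def S_CTmono : Prop :=
  ∀ (Y : Type) [NormedAddCommGroup Y] [NormedSpace ℝ Y] (s r K K' : ℝ), 0 < s → s ≤ r → 0 ≤ K →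
    K ≤ K' → CT Y s K → CT Y r K'

/-- Products (max norm). Proof:
`(∑ max (x_b, y_b) ^ r) ^ (3/r) ≤ (∑ x_b ^ r + ∑ y_b ^ r) ^ (3/r) ≤ (∑ x_b ^ r) ^ (3/r) +
(∑ y_b ^ r) ^ (3/r)` (as `3 / r ≤ 1`, `Real.rpow_add_le_add_rpow`), and
`E ‖X‖ ^ 3 + E ‖Y‖ ^ 3 ≤ 2 E max ^ 3`. -/
def S_CTprod : Prop :=
  ∀ (Y Z : Type) [NormedAddCommGroup Y] [NormedSpace ℝ Y] [NormedAddCommGroup Z]
    [NormedSpace ℝ Z] (r K : ℝ), 3 ≤ r → 0 ≤ K → CT Y r K → CT Z r K → CT (Y × Z) r (2 * K)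

/-- Embeddings. Proof: `‖y_b‖ ≤ c⁻¹ ‖L y_b‖` and
`‖∑ sg (θ b) • L y_b‖ = ‖L (∑ ...)‖ ≤ C ‖∑ sg (θ b) • y_b‖`. -/
def S_CTemb : Prop :=
  ∀ (Y Z : Type) [NormedAddCommGroup Y] [NormedSpace ℝ Y] [NormedAddCommGroup Z]
    [NormedSpace ℝ Z] (L : Y →ₗ[ℝ] Z) (c C r K : ℝ), 0 < c → 0 ≤ C → 0 < r → 0 ≤ K →
    (∀ y, c * ‖y‖ ≤ ‖L y‖) → (∀ y, ‖L y‖ ≤ C * ‖y‖) → CT Z r K → CT Y r (K * C / c)

/-- Finite-dimensional spaces. Proof: `EuclideanSpace ℝ (Fin n)` (or any Hilbert space) has `CT 3 1`: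
`E ‖X‖ ^ 3 ≥ (E ‖X‖ ^ 2) ^ (3/2) = (∑ ‖y_b‖ ^ 2) ^ (3/2) ≥ ∑ ‖y_b‖ ^ 3` (`S_jensen`, `S_rad2`); `Y` is
isomorphic to it, use `S_CTemb`. -/
def S_CTfin : Prop :=
  ∀ (Y : Type) [NormedAddCommGroup Y] [NormedSpace ℝ Y] [FiniteDimensional ℝ Y],
    ∃ K : ℝ, 1 ≤ K ∧ CT Y 3 K

/-- `ℓ_3`-sums. Proof: `‖y‖ ^ 3 = ∑' i, ‖y i‖ ^ 3`, so
`E ‖∑ θ y_b‖ ^ 3 = ∑' i, E ‖∑ θ y_b i‖ ^ 3 ≥ K ^ (-3) ∑' i, (∑_b ‖y_b i‖ ^ r) ^ (3/r)`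
(for `i = i0` both sides are `0`). With `t = r / 3 ≥ 1` and the vectors `f_i = (‖y_b i‖ ^ 3)_b` in `ℓ_t`
of `Fin m`: `∑_i ‖f_i‖_t ≥ ‖∑_i f_i‖_t = (∑_b (∑_i ‖y_b i‖ ^ 3) ^ t) ^ (1/t) =
(∑_b ‖y_b‖ ^ r) ^ (3/r)` (triangle inequality for finite partial sums, then pass to the limit). -/
def S_CTlp : Prop :=
  ∀ (U : ℕ → Type) [∀ i, NormedAddCommGroup (U i)] [∀ i, NormedSpace ℝ (U i)] (r K : ℝ) (i0 : ℕ),
    3 ≤ r → 0 ≤ K → (∀ i, i ≠ i0 → CT (U i) r K) →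
    ∀ (m : ℕ) (y : Fin m → lp U 3), (∀ b, y b i0 = 0) →
      (∑ b, ‖y b‖ ^ r) ^ (3 / r) ≤
        K ^ 3 * rad fun θ : Fin m → Bool => ‖∑ b, sg (θ b) • y b‖ ^ 3

/-- The averaging estimate (AVG), as an inequality between numbers. Proof: by the power mean
inequality `(1/k) ∑ a_b ≤ ((1/k) ∑ a_b ^ r) ^ (1/r) = k ^ (-1/r) (∑ a_b ^ r) ^ (1/r)`, and
`(∑ a_b ^ r) ^ (1/r) = ((∑ a_b ^ r) ^ (3/r)) ^ (1/3) ≤ (K ^ 3 R) ^ (1/3) ≤ K C (10 k) ^ (1/s)`. -/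
def S_avg : Prop :=
  ∀ (ι : Type) [Fintype ι] [Nonempty ι] (a : ι → ℝ) (r s K C R : ℝ), (∀ b, 0 ≤ a b) → 1 ≤ r →
    0 < s → 0 ≤ K → 0 ≤ C → (∑ b, a b ^ r) ^ (3 / r) ≤ K ^ 3 * R →
    R ≤ C ^ 3 * (10 * (Fintype.card ι : ℝ)) ^ (3 / s) →
    (1 / (Fintype.card ι : ℝ)) * ∑ b, a b ≤
      K * C * (10 * (Fintype.card ι : ℝ)) ^ (1 / s) * (Fintype.card ι : ℝ) ^ (-(1 / r))

/-! ### The choices in the Davie space -/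

/-- Fourth moment of independent mean zero variables. `f i : Ω → ℝ`, `|f i ω| ≤ M`,
`∑_ω f i ω = 0`. Proof: for a finset `T ⊆ I` let `X_T ρ = ∑_{i ∈ T} f i (ρ i)` and write `E` for
the average over all `ρ : I → Ω`. By induction `E X_T ^ 2 ≤ |T| M ^ 2`, `E X_T ^ 4 ≤ 3 |T| ^ 2 M ^ 4`:
for `i ∉ T`, `X_T` does not depend on `ρ i`, so the terms linear in `f i (ρ i)` average to `0` and
`E (X + Y) ^ 4 = E X ^ 4 + 6 E X ^ 2 Y ^ 2 + 4 E X Y ^ 3 + E Y ^ 4` with `E X Y ^ 3 = E X · E Y ^ 3 = 0`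
(independence: `E X = 0`); so `≤ 3 n ^ 2 M ^ 4 + 6 n M ^ 4 + M ^ 4 ≤ 3 (n+1) ^ 2 M ^ 4`. (One may
reindex to `I = Fin n` and use `Fin.consEquiv` / `Fin.snocEquiv` for the averages.) -/
def S_mom4 : Prop :=
  ∀ (I Ω : Type) [Fintype I] [DecidableEq I] [Fintype Ω] [Nonempty Ω] (f : I → Ω → ℝ) (M : ℝ),
    (∀ i ω, |f i ω| ≤ M) → (∀ i, ∑ ω, f i ω = 0) →
    ∑ ρ : I → Ω, (∑ i, f i (ρ i)) ^ 4 ≤
      (Fintype.card (I → Ω) : ℝ) * (4 * (Fintype.card I : ℝ) ^ 2 * M ^ 4)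

/-- Choice of the characters. Proof: let `φ : I × Fin 4 ≃ Γ` and `ψ : I × Bool ≃ I2` be any bijections
(cardinalities). For `ρ : I → Fin 4` put `a i = φ (i, ρ i)` and
`b (ψ (i, c)) = φ (i, ρ i + 1)` or `φ (i, ρ i + 2)` according to `c` (addition in `Fin 4`): injective,
disjoint ranges. For `x : X`,
`∑_j w (b j) x - 2 ∑_j w (a j) x = ∑_i f_i (ρ i)`, where
`f_i (u) = w (φ (i, u+1)) x + w (φ (i, u+2)) x - 2 w (φ (i, u)) x`, `|f_i u| ≤ 4` and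
`∑_{u : Fin 4} f_i u = 0` (each `w (φ (i, v)) x` occurs with coefficients `1 + 1 - 2`). By `S_mom4` with
`M = 4` the average over `ρ` of `∑_x (...) ^ 4` is at most `|X| 1024 |I| ^ 2`; some `ρ` does it. -/
def S_F1 : Prop :=
  ∀ (I I2 Γ X : Type) [Fintype I] [DecidableEq I] [Fintype I2] [Fintype Γ] [DecidableEq Γ]
    [Fintype X] (w : Γ → X → ℝ), Fintype.card Γ = 4 * Fintype.card I →
    Fintype.card I2 = 2 * Fintype.card I → (∀ c x, |w c x| ≤ 1) →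
    ∃ (a : I → Γ) (b : I2 → Γ), Function.Injective a ∧ Function.Injective b ∧
      (∀ i j, a i ≠ b j) ∧
      ∑ x, (∑ j, w (b j) x - 2 * ∑ j, w (a j) x) ^ 4 ≤
        1024 * (Fintype.card I : ℝ) ^ 2 * (Fintype.card X : ℝ)

/-- Choice of signs. Proof: average `∑_x (∑_j sg (σ j) c j x) ^ 4` over `σ` and use `S_rad4`. -/
def S_signs : Prop :=
  ∀ (J X : Type) [Fintype J] [DecidableEq J] [Fintype X] (c : J → X → ℝ),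
    ∃ σ : J → Bool, ∑ x, (∑ j, sg (σ j) * c j x) ^ 4 ≤ ∑ x, 3 * (∑ j, c j x ^ 2) ^ 2

/-- Existence of the choices. Proof: for each `t` choose `a t`, `b t` by `S_F1` with
`I = Fin (κ+t) → Bool`, `I2 = Fin (κ+t+1) → Bool`, `Γ = Fin (κ+t+2) → Bool`, `X = Γ × Γ`,
`w c (g, h) = walsh c g * walsh c h`. Then `σ (t+1)` by `S_signs` with `X = Γ_(t+1) × Γ_t`,
`c j (g, h) = walsh (a (t+1) j) g * walsh (b t j) h` (squares are `1`, `walsh_sq`) and `σ 0` with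
`X = I × Γ_0`, `c j (i, g) = Sw κ i j * walsh (a 0 j) g` (`∑_j (Sw κ i j) ^ 2 = 1`). -/
def S_DD : Prop := ∀ κ : ℕ, Nonempty (DD κ)

/-! ### The Davie space -/

/-- Norm of a glued function. Proof: `gl κ t φ` has the values `nu ^ (-1/3) φ g` at the points
`⟨t, g⟩` and `0` elsewhere; `lp.norm_rpow_eq_tsum`. More generally for a finite sum over levels. -/
def S_glnorm : Prop :=
  ∀ (κ : ℕ) (n : ℕ) (φ : ∀ t : ℕ, (Fin (κ + t + 2) → Bool) → ℝ),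
    ‖∑ t ∈ Finset.range n, gl κ t (φ t)‖ ^ 3 =
      ∑ t ∈ Finset.range n, (∑ g, |φ t g| ^ 3) / nu κ t

/-- Values of a glued function. Proof: direct. -/
def S_evgl : Prop :=
  ∀ (κ t t' : ℕ) (φ : (Fin (κ + t + 2) → Bool) → ℝ),
    (∀ g, ev κ t g (gl κ t φ) = φ g) ∧ (t ≠ t' → ∀ g, ev κ t' g (gl κ t φ) = 0)

/-- Norms of the values. Proof: `∑_g |f ⟨t, g⟩| ^ 3 ≤ ‖f‖ ^ 3` (`lp.sum_rpow_le_norm_rpow`) and
`|ev κ t g f| ^ 3 = nu κ t |f ⟨t, g⟩| ^ 3`. -/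
def S_evnorm : Prop :=
  ∀ (κ t : ℕ) (f : L3 κ), (∑ g, |ev κ t g f| ^ 3) / nu κ t ≤ ‖f‖ ^ 3

/-- Biorthogonality. Proof: `walsh_orth` (the `a t j` and the `b t j` are all different), `S_evgl`. For
`t' = t`: `Fa t j (e t j') = (1/nu) ∑_g sg walsh(a j) g * sg walsh(a j') g`. -/
def S_bior : Prop :=
  ∀ (κ : ℕ) (d : DD κ) (t : ℕ),
    (∀ j j', d.Fa t j (d.e t j') = if j = j' then 1 else 0) ∧
    (∀ (j j' : Fin (κ + t + 1) → Bool), d.Fb t j (d.e (t + 1) j') = if j = j' then 1 else 0) ∧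
    (∀ j t' j', t' ≠ t → d.Fa t j (d.e t' j') = 0) ∧
    (∀ (j : Fin (κ + t + 1) → Bool) t' j', t' ≠ t + 1 → d.Fb t j (d.e t' j') = 0)

/-- The two formulas for the coefficients agree on `V`. Proof: by `S_bior` both are continuous and
agree on the generators `e t' j'`. -/
def S_FaFb : Prop :=
  ∀ (κ : ℕ) (d : DD κ) (t : ℕ) (j : Fin (κ + t + 1) → Bool) (f : d.V),
    d.Fa (t + 1) j (f : L3 κ) = d.Fb t j (f : L3 κ)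

/-- Bessel. Proof: the functions `g ↦ sg walsh (a t j) g` are orthonormal for the normalised counting
measure on the points of level `t`, so `∑_j (Fa t j f) ^ 2 ≤ (1/nu) ∑_g (ev g f) ^ 2 ≤
((1/nu) ∑_g |ev g f| ^ 3) ^ (2/3) ≤ ‖f‖ ^ 2` (Bessel, power means, `S_evnorm`). -/
def S_bessel : Prop :=
  ∀ (κ : ℕ) (d : DD κ) (t : ℕ) (f : L3 κ), ∑ j, (d.Fa t j f) ^ 2 ≤ ‖f‖ ^ 2

/-- Norms of the vectors (`S_glnorm`: the cube of the norm is `1` resp. `2`). -/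
def S_enorm : Prop :=
  ∀ (κ : ℕ) (d : DD κ), (∀ j, ‖d.e 0 j‖ ≤ 1) ∧ ∀ t j, ‖d.e t j‖ ≤ 2

/-- `β_t(T) → 0` for operators of finite rank. Proof: `T x = ∑_{i<n} f_i x • y_i` with continuous
functionals `f_i` and `y_i ∈ V`; `|∑_j f_i (e t j) Fa t j (y_i)| ≤ ∑_j 2 ‖f_i‖ |Fa t j y_i| ≤
2 ‖f_i‖ (2 ^ (κ+t)) ^ (1/2) (∑_j (Fa t j y_i) ^ 2) ^ (1/2) ≤ 2 ‖f_i‖ 2 ^ ((κ+t)/2) ‖y_i‖`. -/
def S_beta0 : Prop :=
  ∀ (κ : ℕ) (d : DD κ) (T : d.V →L[ℝ] d.V), FR T → Tendsto (d.beta T) atTop (𝓝 0)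

/-- The trace identity. Proof: `β_(t+1) = 2 ^ -(κ+t+1) ∑_j Fb t j (T e_(t+1) j)` (`S_FaFb`) and
`β_t = 2 · 2 ^ -(κ+t+1) ∑_j Fa t j (T e_t j)`; insert the definitions of `Fa`, `Fb` as averages over
`g` of level `t` and exchange the sums; use linearity of `T` and `ev`. -/
def S_betaid : Prop :=
  ∀ (κ : ℕ) (d : DD κ) (T : d.V →L[ℝ] d.V) (t : ℕ),
    d.beta T (t + 1) - d.beta T t =
      (1 / 2 ^ (κ + t + 1)) * ((1 / nu κ t) * ∑ g, ev κ t g ((T (d.Ph t g) : d.V) : L3 κ))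

/-- The size of `Φ_g`. Proof: write `k = κ + t`, `avg` for normalised averages. `Φ_g` lives on the levels
`t - 1` (if `t > 0`), `t`, `t + 1`. On level `t + 1`: `∑_j walsh (b t j) g sg (σ (t+1) j) walsh (a (t+1) j) h`,
average of fourth powers over `g, h` at most `3 · 4 ^ (k+1)` (`F2`). On level `t`:
`∑_j walsh (b t j) g walsh (b t j) h - 2 ∑_j walsh (a t j) g walsh (a t j) h` (`sg ^ 2 = 1`), average of
fourth powers at most `1024 · 4 ^ k` (`F1`). On level `t - 1` (if `t = t' + 1`):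
`-2 ∑_j sg (σ t j) walsh (a t j) g walsh (b t' j) h`, fourth powers at most `16 · 3 · 4 ^ k`
(`F2` for `t'`). By the power mean inequality (avg of cubes `≤` (avg of fourth powers) `^ (3/4)`) and
`S_glnorm`, `avg_g ‖Φ_g‖ ^ 3 ≤ (12 ^ (3/4) + 1024 ^ (3/4) + 48 ^ (3/4)) 2 ^ (3k/2) ≤
(6.5 + 181.1 + 18.3) 2 ^ (3k/2) ≤ 216 · 2 ^ (3k/2)`. -/
def S_Phnorm : Prop :=
  ∀ (κ : ℕ) (d : DD κ) (t : ℕ),
    (1 / nu κ t) * ∑ g, ‖d.Ph t g‖ ^ 3 ≤ 216 * ((2 : ℝ) ^ (κ + t)) ^ (3 / 2 : ℝ)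

/-- One step. Proof: by `S_betaid`, `|ev κ t g f| ≤ nu ^ (1/3) ‖f‖` (`S_evnorm`) and
`avg_g ‖Φ_g‖ ≤ (avg_g ‖Φ_g‖ ^ 3) ^ (1/3) ≤ 6 · 2 ^ (k/2)` the left side is at most
`2 ^ (-k-1) 2 ^ ((k+2)/3) ‖T‖ 6 · 2 ^ (k/2) = 3 · 2 ^ (2/3) · 2 ^ (-k/6) ‖T‖ ≤ 5 · 2 ^ (-k/6) ‖T‖`,
`k = κ + t` (`3 · 2 ^ (2/3) = 108 ^ (1/3) < 5`). -/
def S_betastep : Prop :=
  ∀ (κ : ℕ) (d : DD κ) (T : d.V →L[ℝ] d.V) (t : ℕ),
    |d.beta T (t + 1) - d.beta T t| ≤ 5 * (2 : ℝ) ^ (-((κ + t : ℕ) : ℝ) / 6) * ‖T‖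

/-- Summation. Proof: `|β_0| ≤ |β_n| + ∑_{t<n} |β_(t+1) - β_t|`, let `n → ∞`;
`∑_t 5 · 2 ^ (-(κ+t)/6) = 5 · 2 ^ (-κ/6) / (1 - 2 ^ (-1/6)) ≤ 50 · 2 ^ (-κ/6)`, because
`2 ^ (-1/6) ≤ 0.9` (`0.9 ^ 6 = 0.531 ≥ 1/2`). -/
def S_beta : Prop :=
  ∀ (κ : ℕ) (d : DD κ) (T : d.V →L[ℝ] d.V), FR T →
    |d.beta T 0| ≤ 50 * (2 : ℝ) ^ (-(κ : ℝ) / 6) * ‖T‖

/-- The vectors `y_j = ∑_a S_(ja) e_a`. Proof: `y_j = gl κ 0 (φ_j)`,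
`φ_j g = ∑_a S_(ja) sg (σ 0 a) walsh (a 0 a) g`. `‖y_j‖ ^ 3 = avg_g |φ_j g| ^ 3` (`S_glnorm`);
`avg_j ‖y_j‖ ≤ (avg_j avg_g |φ_j g| ^ 4) ^ (1/4) ≤ 3 ^ (1/4) ≤ 2` by `F3` and power means. -/
def S_hS : Prop :=
  ∀ (κ : ℕ) (d : DD κ),
    (1 / (2 : ℝ) ^ κ) * ∑ j : Fin κ → Bool, ‖∑ a : Fin κ → Bool, Sw κ j a • d.eV 0 a‖ ≤ 2

/-- Existence of the Davie space. Proof: let `d : DD κ` (`S_DD`). `V = d.V` (a closed subspace of a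
Banach space), `e = d.eV 0`, `F a = (d.Fa 0 a)` restricted to `V`, `Vs n` = the preimage in `V` of
`d.Sp n` (`Submodule.comap d.V.subtype (d.Sp n)`; `d.Sp n` is spanned by finitely many vectors, and is
contained in `V`; the union of the `d.Sp n` is the algebraic span of all `e t j`, dense in its
closure `V`). `hF`: `S_bior`; `hF2`: `S_bessel`; `he`: `S_enorm`; `htr`: `S_beta`
(`Fin (κ + 0) = Fin κ` definitionally); `hS`: `S_hS`; `hCT`: `S_CTl3`, `S_CTsub`. -/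
def S_davie : Prop := ∀ κ : ℕ, Nonempty (DavieSp κ)

end Pool.Agent.Lib.MP_355270_an.CB
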