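import Pool.Agent.Lib.MP_355270_an.CB.StmU

/-!
# Passing to real or complex scalars

`Cx 𝕜 W` is the space of real-linear maps `𝕜 → W` with the scalar multiplication
`(c • f) z = f (c z)`: for `𝕜 = ℝ` it is `W`, for `𝕜 = ℂ` it is a complexification of `W`.
-/

open Filter Topology
open scoped ENNReal

namespace Pool.Agent.Lib.MP_355270_an.CB

/-- The scalar extension of a real normed space. -/
def Cx (𝕜 : Type) [RCLike 𝕜] (W : Type) [NormedAddCommGroup W] [NormedSpace ℝ W] : Type :=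
  𝕜 →L[ℝ] W

namespace Cx

variable {𝕜 : Type} [RCLike 𝕜] {W : Type} [NormedAddCommGroup W] [NormedSpace ℝ W]

noncomputable instance : NormedAddCommGroup (Cx 𝕜 W) :=
  inferInstanceAs (NormedAddCommGroup (𝕜 →L[ℝ] W))

noncomputable instance [CompleteSpace W] : CompleteSpace (Cx 𝕜 W) :=
  inferInstanceAs (CompleteSpace (𝕜 →L[ℝ] W))

/-- The value of an element. -/
def ap (f : Cx 𝕜 W) : 𝕜 →L[ℝ] W := f

/-- Constructor. -/
def of (f : 𝕜 →L[ℝ] W) : Cx 𝕜 W := f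

@[simp] theorem ap_of (f : 𝕜 →L[ℝ] W) : ap (of f) = f := rfl
@[simp] theorem ap_add (f g : Cx 𝕜 W) : ap (f + g) = ap f + ap g := rfl
@[simp] theorem ap_sub (f g : Cx 𝕜 W) : ap (f - g) = ap f - ap g := rfl
@[simp] theorem ap_neg (f : Cx 𝕜 W) : ap (-f) = -ap f := rfl
@[simp] theorem ap_zero : ap (0 : Cx 𝕜 W) = 0 := rfl
theorem norm_ap (f : Cx 𝕜 W) : ‖ap f‖ = ‖f‖ := rfl

theorem ext {f g : Cx 𝕜 W} (h : ∀ z, ap f z = ap g z) : f = g := ContinuousLinearMap.ext h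

noncomputable instance : SMul 𝕜 (Cx 𝕜 W) :=
  ⟨fun c f => of ((ap f).comp (ContinuousLinearMap.mul ℝ 𝕜 c))⟩

@[simp] theorem ap_smul (c : 𝕜) (f : Cx 𝕜 W) (z : 𝕜) : ap (c • f) z = ap f (c * z) := rfl

noncomputable instance : Module 𝕜 (Cx 𝕜 W) where
  one_smul f := ext fun z => by rw [ap_smul, one_mul]
  mul_smul c d f := ext fun z => by
    rw [ap_smul, ap_smul, ap_smul, mul_comm c d, mul_assoc]
  smul_zero c := ext fun z => by simp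
  smul_add c f g := ext fun z => by simp
  add_smul c d f := ext fun z => by
    rw [ap_smul, ap_add, add_apply, ap_smul, ap_smul, add_mul, map_add]
  zero_smul f := ext fun z => by simp

noncomputable instance : NormedSpace 𝕜 (Cx 𝕜 W) where
  norm_smul_le c f := by
    rw [← norm_ap (c • f)]
    refine ContinuousLinearMap.opNorm_le_bound _ (by positivity) fun z => ?_
    rw [ap_smul]
    refine ((ap f).le_opNorm _).trans ?_
    rw [norm_mul, norm_ap]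
    exact le_of_eq (by ring)

/-- The real vectors. -/
noncomputable def J (x : W) : Cx 𝕜 W := of ((RCLike.reCLM : 𝕜 →L[ℝ] ℝ).smulRight x)

@[simp] theorem ap_J (x : W) (z : 𝕜) : ap (J x) z = RCLike.re z • x := rfl

/-- The scalar extension of a subspace. -/
def sub (𝕜 : Type) [RCLike 𝕜] (E : Submodule ℝ W) : Submodule 𝕜 (Cx 𝕜 W) where
  carrier := {f | ∀ z, ap f z ∈ E}
  zero_mem' := fun _ => E.zero_mem
  add_mem' := fun ha hb z => E.add_mem (ha z) (hb z)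
  smul_mem' := fun _ _ ha _ => ha _

theorem J_mem {E : Submodule ℝ W} {x : W} (hx : x ∈ E) : (J x : Cx 𝕜 W) ∈ sub 𝕜 E :=
  fun _ => E.smul_mem _ hx

end Cx

open Cx

/-- Facts on `J`. Proof: `ap (J x) z = re z • x`, `|re z| ≤ ‖z‖`, `re 1 = 1`. The decomposition:
`z = re z + im z * I`, so `ap f z = re z • ap f 1 + im z • ap f I`, and
`ap (I • J y) z = re (I z) • y = - im z • y` (for `𝕜 = ℝ`, `I = 0`, `im = 0`;
`RCLike.re_add_im`, `RCLike.mul_re`, `RCLike.I_re`, and `RCLike.I_mul_I` cases). -/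
def S_CxJ : Prop :=
  ∀ (𝕜 : Type) [RCLike 𝕜] (W : Type) [NormedAddCommGroup W] [NormedSpace ℝ W],
    (∀ x : W, ‖(J x : Cx 𝕜 W)‖ = ‖x‖) ∧ (∀ x y : W, (J (x + y) : Cx 𝕜 W) = J x + J y) ∧
    (∀ (r : ℝ) (x : W), (J (r • x) : Cx 𝕜 W) = (r : 𝕜) • J x) ∧
    (∀ f : Cx 𝕜 W, f = J (ap f 1) - (RCLike.I : 𝕜) • J (ap f RCLike.I)) ∧
    (∀ (f : Cx 𝕜 W) (z : 𝕜), ‖ap f z‖ ≤ ‖f‖ * ‖z‖)

/-- Extension of a functional. Proof: linearity: with `c = a + b I`: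
`Ξ (f c) - I Ξ (f (c I)) = c (Ξ (f 1) - I Ξ (f I))` (`ap f` is real-linear; if `I = 0` all is real).
Norm: let `ζ = Ξ_C f`, `u` of norm one with `u ζ = ‖ζ‖`; `‖ζ‖ = re (Ξ_C (u • f)) = Ξ (ap f u) ≤
‖Ξ‖ ‖f‖`. (Alternatively `LinearMap.extendTo𝕜'` / `ContinuousLinearMap.extendTo𝕜'`.) -/
def S_CxXi : Prop :=
  ∀ (𝕜 : Type) [RCLike 𝕜] (W : Type) [NormedAddCommGroup W] [NormedSpace ℝ W] (Ξ : W →L[ℝ] ℝ),
    ∃ Ξc : Cx 𝕜 W →L[𝕜] 𝕜,
      (∀ f, Ξc f = (Ξ (ap f 1) : 𝕜) - RCLike.I * (Ξ (ap f RCLike.I) : 𝕜)) ∧ ‖Ξc‖ ≤ ‖Ξ‖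

/-- Extension of an operator. Proof: `f ↦ T ∘ f`. -/
def S_CxOp : Prop :=
  ∀ (𝕜 : Type) [RCLike 𝕜] (W : Type) [NormedAddCommGroup W] [NormedSpace ℝ W] (T : W →L[ℝ] W),
    ∃ Tc : Cx 𝕜 W →L[𝕜] Cx 𝕜 W, (∀ f z, ap (Tc f) z = T (ap f z)) ∧ ‖Tc‖ ≤ ‖T‖

/-- Decomposition of an operator. Proof: `T1 x = ap (T (J x)) 1`, `T2 x = ap (T (J x)) I` (bounded
real-linear: `T (J (r • x)) = (r : 𝕜) • T (J x)` and `ap ((r : 𝕜) • f) z = ap f (r z) = r • ap f z`);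
`‖I‖ ≤ 1`; the formula is `S_CxJ` for `f = T (J x)`. -/
def S_CxDec : Prop :=
  ∀ (𝕜 : Type) [RCLike 𝕜] (W : Type) [NormedAddCommGroup W] [NormedSpace ℝ W]
    (E : Submodule ℝ W) (T : sub 𝕜 E →L[𝕜] Cx 𝕜 W),
    ∃ T1 T2 : E →L[ℝ] W, ‖T1‖ ≤ ‖T‖ ∧ ‖T2‖ ≤ ‖T‖ ∧
      ∀ x : E, T ⟨J (x : W), J_mem x.2⟩ = J (T1 x) - (RCLike.I : 𝕜) • J (T2 x)

/-- The same for operators on the whole space, with finite rank: if `T` has finite-dimensional range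
over `𝕜` (so also over `ℝ`), the ranges of `T1`, `T2` are contained in the images of this range under the
real-linear maps `f ↦ ap f 1`, `f ↦ ap f I`. -/
def S_CxDecW : Prop :=
  ∀ (𝕜 : Type) [RCLike 𝕜] (W : Type) [NormedAddCommGroup W] [NormedSpace ℝ W]
    (T : Cx 𝕜 W →L[𝕜] Cx 𝕜 W),
    ∃ T1 T2 : W →L[ℝ] W, ‖T1‖ ≤ ‖T‖ ∧ ‖T2‖ ≤ ‖T‖ ∧ (FR T → FR T1 ∧ FR T2) ∧
      ∀ x : W, T (J x) = J (T1 x) - (RCLike.I : 𝕜) • J (T2 x)

/-- The chain. Proof: monotone clear; finite-dimensional: every `f ∈ sub 𝕜 (V j)` is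
`J (ap f 1) - I • J (ap f I)`, so `sub 𝕜 (V j)` is the `𝕜`-span of the images of a basis of `V j`
under `J`; dense: approximate `ap f 1` and `ap f I` by elements of a common `V j`
(`‖J x‖ = ‖x‖`); invariant: clear. -/
def S_CxAsys : Prop :=
  ∀ (𝕜 : Type) [RCLike 𝕜] (W : Type) [NormedAddCommGroup W] [NormedSpace ℝ W]
    (V : ℕ → Submodule ℝ W) (D : W →L[ℝ] W) (Dc : Cx 𝕜 W →L[𝕜] Cx 𝕜 W), ASys V D →
    (∀ f z, ap (Dc f) z = D (ap f z)) → ASys (fun j => sub 𝕜 (V j)) Dc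

/-- The frames. Proof: keep `N`, `ι`, `jj`; `F i` becomes `sub 𝕜 (F i)`, `v i n a` becomes `J (v i n a)`,
`Ξ` becomes `Ξc` (`S_CxXi`), `ν` the same, `ε` becomes `4 ε`. `Ξc (J x) = Ξ x` because `re I = 0`;
`Ξc (J x - I • J y) = Ξ x - I Ξ y`. `hfr`: with `S_CxDecW`, `av Ξc (T (J v)) = av Ξ (T1 v) -
I av Ξ (T2 v)`, of norm `≤ 2 ε ‖T‖`. `hmul`: with `A1, A2` (`S_CxDecW`) and `B1, B2` (`S_CxDec` with
`E = F i`), `A (B (J v)) = J A1 B1 v - I • J A2 B1 v - I • (J A1 B2 v - I • J A2 B2 v)`, so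
`av (A B) = av(A1 B1) - I av(A2 B1) - I av(A1 B2) + I * I av(A2 B2)` and
`av A * av B = (av A1 - I av A2)(av B1 - I av B2)`: the difference is at most `4 ε ‖A‖ ‖B‖`
(`‖I‖ ≤ 1`). `hup`: `x i = J (y i)`; `ap (∑ c i • J (y i)) z = ∑ re (c i z) • y i`; for `‖z‖ = 1` the
coefficients are `≤ 1` in absolute value, so the real `hup` gives `‖...‖^3 ≤ 8 |S|`. -/
def S_CxFrames : Prop :=
  ∀ (𝕜 : Type) [RCLike 𝕜] (W : Type) [NormedAddCommGroup W] [NormedSpace ℝ W]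
    (V : ℕ → Submodule ℝ W) (D : W →L[ℝ] W) (Dc : Cx 𝕜 W →L[𝕜] Cx 𝕜 W),
    (∀ f z, ap (Dc f) z = D (ap f z)) → Nonempty (Frames V D) →
    Nonempty (Frames (fun j => sub 𝕜 (V j)) Dc)

/-- The operators `G`. Proof: `Gc i f = G i ∘ f` (`S_CxOp`). Convergence:
`‖(f - Dc f) - Gc i f‖ ≤ ‖ap _ 1‖ + ‖ap _ I‖` (`S_CxJ`) and the values at `1` and `I` tend to `0`. -/
def S_CxG : Prop :=
  ∀ (𝕜 : Type) [RCLike 𝕜] (W : Type) [NormedAddCommGroup W] [NormedSpace ℝ W]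
    (V : ℕ → Submodule ℝ W) (D : W →L[ℝ] W) (Dc : Cx 𝕜 W →L[𝕜] Cx 𝕜 W),
    (∀ f z, ap (Dc f) z = D (ap f z)) → ∀ (G : ℕ → W →L[ℝ] W) (C : ℝ), (∀ i, ‖G i‖ ≤ C) →
    (∀ i j, ∀ x ∈ V j, G i x ∈ V j) → (∀ i, ∃ m, ∀ x, G i x ∈ V m) →
    (∀ i x, D (G i x) = G i (D x)) → (∀ w, Tendsto (fun i => G i w) atTop (𝓝 (w - D w))) →
    ∃ Gc : ℕ → Cx 𝕜 W →L[𝕜] Cx 𝕜 W, (∀ i, ‖Gc i‖ ≤ C) ∧
      (∀ i j, ∀ x ∈ sub 𝕜 (V j), Gc i x ∈ sub 𝕜 (V j)) ∧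
      (∀ i, ∃ m, ∀ x, Gc i x ∈ sub 𝕜 (V m)) ∧ (∀ i x, Dc (Gc i x) = Gc i (Dc x)) ∧
      ∀ w, Tendsto (fun i => Gc i w) atTop (𝓝 (w - Dc w))

/-- **The main theorem for real and complex scalars.** Proof: as `S_final`, with the scalar extensions:
take `B` by `S_seq`, `D` by `S_lpdiag`, `Dc` by `S_CxOp`, `X = XS (fun j => sub 𝕜 (VW B j)) Dc`; `HasAB` by
`p_AB` with `S_CxAsys`, `S_WG`, `S_CxG`; `¬ HasCAB` by `p_noCAB` with `S_CxFrames`, `S_Wframes`. -/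
def S_finalK : Prop :=
  ∀ (𝕜 : Type) [RCLike 𝕜], ∃ (X : Type) (_ : NormedAddCommGroup X) (_ : NormedSpace 𝕜 X),
    CompleteSpace X ∧ HasAB 𝕜 X ∧ ¬ HasCAB 𝕜 X

/-! ### Consequences: `π`-bases -/

/-- A sequence of finite rank projections with increasing ranges converging pointwise to the identity. -/
def IsPiBasis (𝕜 : Type) [RCLike 𝕜] {E : Type*} [NormedAddCommGroup E] [NormedSpace 𝕜 E]
    (u : ℕ → E →L[𝕜] E) : Prop :=
  (∀ n x, u n (u n x) = u n x) ∧ (∀ n, FR (u n)) ∧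
    (∀ m n, m ≤ n → (u m).toLinearMap.range ≤ (u n).toLinearMap.range) ∧
    ∀ x, Tendsto (fun n => u n x) atTop (𝓝 x)

/-- A `π_1`-basis in an equivalent norm gives a commuting approximative basis. Proof. Let `R n` be the
(finite-dimensional) range of `u n`; `u n x = x` for `x ∈ R n`, `R m ≤ R n` for `m ≤ n`. For
`n ≤ m` let `P n m = u n ∘ u (n+1) ∘ ... ∘ u m`; `N (P n m x) ≤ N x`, so `‖P n m x‖ ≤ (C/c) ‖x‖`, and
`P n m x ∈ R n`. The points `P n m x`, `m → ∞`, lie in a compact subset of `R n`; let `Q n x` be their limit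
along `hyperfilter ℕ`. `Q n` is linear, bounded by `C/c`, with values in `R n` (closed), and `Q n x = x`
for `x ∈ R n`. If `n < m` and `y ∈ R m` then `P n l y = P n (m-1) y` for `l ≥ m` (as `u i y = y` for `i ≥ m`),
so `Q n y = P n (m-1) y`, and `Q n (Q m x) = P n (m-1) (Q m x) = lim_l P n (m-1) (P m l x) =
lim_l P n l x = Q n x`. `Q m (Q n x) = Q n x`. `Q n x → x` on the dense set `⋃ R n` (dense since
`u n x → x`), and the `Q n` are uniformly bounded. -/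
def S_piOne : Prop :=
  ∀ (𝕜 : Type) [RCLike 𝕜] (E : Type) [NormedAddCommGroup E] [NormedSpace 𝕜 E] (N : Seminorm 𝕜 E)
    (c C : ℝ), 0 < c → (∀ x, c * ‖x‖ ≤ N x) → (∀ x, N x ≤ C * ‖x‖) →
    ∀ u : ℕ → E →L[𝕜] E, IsPiBasis 𝕜 u → (∀ n x, N (u n x) ≤ N x) → HasCAB 𝕜 E

/-- `E × (⊕ V_n)_2` has a `π`-basis. Let `V n` be finite-dimensional increasing, `w n : E → V n`,
`w (n+1) = id` on `V n`, `‖w n‖ ≤ K`, `w n x → x`. Put `F n = V (n + 1)`,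
`W n = w (n + 1) : E → F n`, let `τ n` be the truncation of `lp F 2` to the coordinates `< n` and
`P n (x, y) = (W n x + y n, τ n y + single n (v - W n v))`, `v = W n x + y n ∈ F n`.
`P n` is a projection: for `(x', y') = P n (x, y)`: `x' = v`, `y' n = v - W n v`, so
`W n x' + y' n = v`, and `τ n y' = τ n y`. Finite rank: the range lies in
`{(v, t) : v ∈ F n, t supported in the coordinates ≤ n}`. Nested: for `(x', y') = P n (x, y)`, `m > n`: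
`W m v = v` because `v ∈ F n ≤ V m` and `w (m+1) = id` on `V m`; `y' m = 0`; `τ m y' = y'`, so
`P m (x', y') = (v, y')`. Convergence: `‖y n‖ → 0`, `W n x → x`,
`‖v - W n v‖ ≤ ‖W n x - W n (W n x)‖ + (1 + K) ‖y n‖` and
`‖W n x - W n (W n x)‖ ≤ K ‖x - W n x‖`; `τ n y → y`. -/
def S_piBasis : Prop :=
  ∀ (𝕜 : Type) [RCLike 𝕜] (E : Type) [NormedAddCommGroup E] [NormedSpace 𝕜 E]
    (V : ℕ → Submodule 𝕜 E) (w : ℕ → E →L[𝕜] E) (K : ℝ), (∀ n, FiniteDimensional 𝕜 (V n)) →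
    Monotone V → (∀ n x, w n x ∈ V n) → (∀ n, ∀ y ∈ V n, w (n + 1) y = y) → (∀ n, ‖w n‖ ≤ K) →
    (∀ x, Tendsto (fun n => w n x) atTop (𝓝 x)) →
    ∃ u : ℕ → (E × lp (fun n => ↥(V (n + 1))) 2) →L[𝕜] (E × lp (fun n => ↥(V (n + 1))) 2),
      IsPiBasis 𝕜 u

end Pool.Agent.Lib.MP_355270_an.CB
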