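import Pool.Agent.Lib.MP_355270_an.CB.DefU
import Pool.Agent.Lib.MP_355270_an.CB.StmB
import Pool.Agent.Lib.MP_355270_an.CB.StmR

/-!
# Statements: blocks, their sum, the final theorem
-/

open Filter Topology
open scoped ENNReal

namespace Pool.Agent.Lib.MP_355270_an.CB

open BP

/-- The averaging estimate. Proof: let `y_a = C x_a`. By `S_CTre`,
`(∑ ‖y_a‖^r)^(3/r) ≤ K^3 rad ‖∑ sg y_a‖^3`, and `‖∑ sg (θ a) • y_a‖ ≤ ‖C‖ ‖∑ sg (θ a) • x_a‖`;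
apply `S_avg` with `R = ‖C‖^3 (10 k)^(3/s)`. -/
def S_AVG : Prop :=
  ∀ (F Y ι : Type) [NormedAddCommGroup F] [NormedSpace ℝ F] [NormedAddCommGroup Y]
    [NormedSpace ℝ Y] [Fintype ι] [DecidableEq ι] [Nonempty ι] (x : ι → F) (s r K : ℝ), 0 < s →
    1 ≤ r → 0 ≤ K →
    rad (fun θ : ι → Bool => ‖∑ a, sg (θ a) • x a‖ ^ 3) ≤ (10 * (Fintype.card ι : ℝ)) ^ (3 / s) →
    CT Y r K → ∀ C : F →L[ℝ] Y, (1 / (Fintype.card ι : ℝ)) * ∑ a, ‖C (x a)‖ ≤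
      K * ‖C‖ * (10 * (Fintype.card ι : ℝ)) ^ (1 / s) * (Fintype.card ι : ℝ) ^ (-(1 / r))

/-- The seminorm `A` in terms of the partial sums. Proof: split the sum over
`Fin 3 × Fin (N+1) × I` (`Fintype.sum_prod_type`, `Fin.sum_univ_three`, `Fin.sum_univ_castSucc`);
`((1/N)^(1/s))^s = 1/N`. -/
def S_UAs : Prop :=
  ∀ (P : BP) (u : P.UT), As u = ∑ a, |sig (hd u) (Fin.last P.N) a + P.Dv.F a (vp u)| ^ P.s +
    (1 / (P.N : ℝ)) * ∑ n : Fin P.N, ∑ a, |sig (hd u) n.castSucc a| ^ P.s +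
    ∑ n, ∑ a, |(Gm (P.g n)).mulVec (hd u n) a| ^ P.s +
    ∑ n, ∑ a, |(Sw P.κ).mulVec (hd u n) a| ^ P.s

/-- The frame vectors. Proof: `P.vv n a` has the head `δ_a` at level `n` (for `n ≤ N`), so
`sig m = δ_a` for `m ≥ n`, `0` for `m < n`; all entries of `G`, `S` are `± k^(-1/2)`. By `S_UAs`
`As (vv n a) = 1 + (N - n)/N + 2 k^(1-s/2) ≤ 4 ≤ 2^s` (the Davie part is `0`, so the norm is
`As^(1/s)`). `vv n a - vv (n+1) a`: `sig m = δ_a` for `m = n < N`, otherwise `0`: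
`As = 1/N + 4 k · k^(-s/2)`. `Xi a (vv n a) = sig (last) a = 1`. -/
def S_Uv : Prop :=
  ∀ (P : BP), (∀ n a, ‖P.vv n a‖ ≤ 2) ∧
    (∀ n a, n < P.N → ‖(P.vv n a : P.UT) - (P.vv (n + 1) a : P.UT)‖ ≤
      (1 / (P.N : ℝ) + 4 * P.k ^ (1 - P.s / 2)) ^ (1 / P.s)) ∧
    (∀ n a, n ≤ P.N → P.Xi a (P.vv n a : P.UT) = 1)

/-- The operator `D`. Proof: `D u = el (n ↦ (n/N) hd u n) (vp u)`. Abel summation:
`sig (hd (D u)) m = (m/N) sig m - (1/N) ∑_{l<m} sig l`. So `co (D u) = p + c`, where `p` is `co u`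
multiplied by numbers in `[0, 1]` (`1` for `(0, N, a)`, `n/N` otherwise) and the correction `c` has the
entries `-(1/N) ∑_{l<N} sig l a` at `(0, N, a)`, `-(1/N)^(1/s) (1/N) ∑_{l<n} sig l a` at
`(0, n, a)`, `n < N`, and `0` otherwise. With `m_a = (1/N) ∑_{l<N} |sig l a|`, `∑ |c|^s ≤ 2 ∑_a m_a^s ≤
2 (1/N) ∑_l ∑_a |sig l a|^s ≤ 2 As u` (power means, `S_UAs`). Minkowski in `ℓ_s`:
`As (D u)^(1/s) ≤ (1 + 2^(1/s)) As u^(1/s) ≤ 3 ‖u‖`. -/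
def S_UD : Prop :=
  ∀ (P : BP), ∃ D : P.UT →L[ℝ] P.UT, (∀ u n, hd (D u) n = (((n : ℕ) : ℝ) / (P.N : ℝ)) • hd u n) ∧
    (∀ u, vp (D u) = vp u) ∧ ‖D‖ ≤ 3

/-- The inclusion of the Davie space. Proof: `As (el 0 y) = ∑_a |F a y|^s ≤ (∑_a (F a y)^2)^(s/2) ≤
‖y‖^s` (`hF2`, `s ≥ 2`) and `ρ ≤ 1`. -/
def S_UiV : Prop :=
  ∀ (P : BP), ∃ iV : P.Dv.V →L[ℝ] P.UT, (∀ y, iV y = el 0 y) ∧ ‖iV‖ ≤ 1

/-- The projection onto the heads and onto the Davie space. Proof: `‖vp u‖ ≤ (1/ρ) ‖u‖`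
(`norm_vp_le`), `el (hd u) 0 = u - el 0 (vp u)`, so its norm is `≤ ‖u‖ + ‖vp u‖ ≤ (1 + 1/ρ) ‖u‖`
(`S_UiV`). -/
def S_UpH : Prop :=
  ∀ (P : BP), (∃ pH : P.UT →L[ℝ] P.Hd, (∀ u, (pH u : P.UT) = el (hd u) 0) ∧
      ‖pH‖ ≤ 1 + 1 / P.ρ) ∧
    ∃ qV : P.UT →L[ℝ] P.Dv.V, (∀ u, qV u = vp u) ∧ ‖qV‖ ≤ 1 / P.ρ

/-- Equivalence of norms. Proof: `|hd u n a| ≤ c ‖u‖`: `hd u n = S (S (hd u n))`
(`Sw_mulVec_mulVec`), `|S (hd u n) b| = |co u (2, n, b)| ≤ ‖u‖`, entries of `S` bounded by `1`. `‖vp u‖ ≤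
ρ^{-1} ‖u‖`. Conversely `‖u‖ ≤ ‖el (hd u) 0‖ + ‖el 0 (vp u)‖`, the first is a norm on a
finite-dimensional space composed with a linear map (or bound each coordinate), the second is
`≤ ‖vp u‖` (`S_UiV`). -/
def S_Uequiv : Prop :=
  ∀ (P : BP), ∃ c C : ℝ, 0 < c ∧ 0 < C ∧ (∀ u : P.UT, c * ‖(hd u, vp u)‖ ≤ ‖u‖) ∧
    ∀ u : P.UT, ‖u‖ ≤ C * ‖(hd u, vp u)‖

/-- Completeness. Proof: `u ↦ (hd u, vp u)` is a linear bijection onto a Banach space, bi-Lipschitz by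
`S_Uequiv`. -/
def S_Ucomp : Prop := ∀ (P : BP), CompleteSpace P.UT

/-- The chain in the block. Proof: `u ∈ Es j` iff `vp u ∈ Vs j`: isomorphic to
`(Fin (N+1) → I → ℝ) × Vs j`, finite-dimensional; monotone; contains the heads; dense union because
`⋃ Vs j` is dense in `V` and `‖el (hd u) y - el (hd u) y'‖ ≤ ‖y - y'‖` (`S_UiV`). -/
def S_UE : Prop :=
  ∀ (P : BP), Monotone P.Es ∧ (∀ j, FiniteDimensional ℝ (P.Es j)) ∧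
    Dense (⋃ j, (P.Es j : Set P.UT)) ∧ P.Hd ≤ P.Es 0

/-- (C1). Proof: `u_θ = ∑_a sg (θ a) • vv n a` has the head `x = (sg (θ a))_a` at level `n`, so by
`S_UAs` `As u_θ ≤ 2 k + ∑_a |(G x) a|^s + ∑_a |(S x) a|^s`, and `(G x) a` is a sign sum with
coefficients `G a b`, `∑_b G a b ^ 2 = 1`, same for `S`: by `S_radK` `rad As u_θ ≤ 2k + 3k + 3k`.
`‖u_θ‖^3 = As^(3/s)` (Davie part zero), and `rad As^(3/s) ≤ (rad As)^(3/s) ≤ (8k)^(3/s)`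
(`S_jensen`, exponents `3/s ≤ 1`). -/
def S_UC1 : Prop :=
  ∀ (P : BP) (n : ℕ), n ≤ P.N →
    rad (fun θ : P.I → Bool => ‖∑ a, sg (θ a) • P.vv n a‖ ^ 3) ≤ (10 * P.k) ^ (3 / P.s)

/-- (C2). Proof: `Phi` is an isometric embedding into `Co × V`; `CT Co s 1` (`S_CTls`), `CT V 3 1` gives
`CT V s 1` (`S_CTmono`), so `CT (Co × V) s 2` (`S_CTprod`) and `S_CTemb` with `c = C = 1`. -/
def S_UC2 : Prop := ∀ (P : BP), CT P.UT P.s 2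

/-- (C3). Proof: by `S_Uequiv` the map `u ↦ (hd u, vp u)` embeds `UT` in
`(Fin (N+1) → I → ℝ) × V`; `S_CTfin`, `S_CTmono`, `S_CTprod` (`r = 3`), `S_CTemb`; enlarge the constant
to be `≥ 1`. -/
def S_UC3 : Prop := ∀ (P : BP), ∃ K : ℝ, 1 ≤ K ∧ CT P.UT 3 K

/-- (R4). Proof. Let `w_a = el 0 (e a)`. `vv N a - w_a`: `sig last b + F b (-e a) = 0` for all `b`, all
`sig m = 0` for `m < N`, so `As = 2 k^(1-s/2)` and the norm is at most `(2 k^(1-s/2))^(1/s) + ρ`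
(`‖e a‖ ≤ 1`). As `‖Xi a‖ ≤ 1`, replacing `vv N a` by `w_a` costs at most this times `‖T‖`.
`Xi a (T w_a) = ∑_n hd (T w_a) n a + F a (vp (T w_a))`. The last term: `T' = qV ∘ T ∘ iV : V → V` has
finite rank and norm `≤ ‖T‖/ρ`: `|(1/k) ∑_a F a (T' (e a))| ≤ 50 · 2^(-κ/6) ‖T‖/ρ` (`htr`). For
each level `n` let `t b a = hd (T w_a) n b`. `∑_a t a a = tr (S t S) = ∑_j (S (t (S · j))) j` and
`t (S · j) = hd (T (el 0 y_j)) n` with `y_j = ∑_a S j a • e a` (linearity), so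
`|(S hd (T (el 0 y_j)) n) j| = |co (T (el 0 y_j)) (2, n, j)| ≤ ‖T‖ ‖el 0 y_j‖`,
`‖el 0 y_j‖ ≤ (∑_a |S j a|^s)^(1/s) + ρ ‖y_j‖ = k^(1/s-1/2) + ρ ‖y_j‖`, and
`(1/k) ∑_j ‖y_j‖ ≤ 2` (`hS`). Sum over the `N+1` levels. -/
def S_UR4 : Prop :=
  ∀ (P : BP) (T : P.UT →L[ℝ] P.UT), FR T →
    ‖av P.Xi (fun a => T (P.vv P.N a : P.UT))‖ ≤
      ((2 * P.k ^ (1 - P.s / 2)) ^ (1 / P.s) + P.ρ + 50 * (2 : ℝ) ^ (-(P.κ : ℝ) / 6) / P.ρ +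
        (P.N + 1) * (P.k ^ (1 / P.s - 1 / 2) + 2 * P.ρ)) * ‖T‖

/-- The matrices of an operator are bounded. Proof: let `x : I → ℝ`, `u` = the element of `Hd` with the head
`x` at level `n` (`u = ∑_a x a • vv n a`); `As u ≤ 2 Qs x` (`S_UAs`: `sig m = x` for `m ≥ n`) and
`‖u‖^s = As u`. Let `w = el (hd (B u)) 0`, `‖w‖ ≤ (1 + 1/ρ) ‖B u‖ ≤ (1 + 1/ρ) ‖u‖` (`S_UpH`). `MB B n' n`
applied to `x` is `hd w n' = sig (hd w) n' - sig (hd w) (n'-1)` (only the first term if `n' = 0`), and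
`∑_b |sig (hd w) m b|^s ≤ N As w` for every `m` (`S_UAs`, `vp w = 0`), so
`∑_b |hd w n' b|^s ≤ 2^(s-1) 2 N As w ≤ 2^s N (1+1/ρ)^s 2 Qs x ≤ C1^s Qs x`
(`2 N ≤ (2 N)^s`, `C1 = 4 N (1+1/ρ)`). Second condition: `(Gm (g n') * MB) x = G (hd w n')`, these are
coordinates `co w (1, n', a)`: `∑_a |..|^s ≤ As w ≤ (1+1/ρ)^s 2 Qs x`. -/
def S_UBdd : Prop :=
  ∀ (P : BP) (B : P.Hd →L[ℝ] P.UT) (n n' : Fin (P.N + 1)), ‖B‖ ≤ 1 →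
    Bdd P.s P.C1 (Sw P.κ) (P.g n) (P.g n') (P.MB B n' n)

/-- The size of the diagonal traces. Proof: with `w = el (hd (B (vv n a))) 0` of norm
`≤ (1 + 1/ρ) 2` one has `|sig (hd w) m b| ≤ N ‖w‖` for all `m` (`|co w (0, m, b)| ≤ ‖w‖`,
`N^(1/s) ≤ N`), so `|hd w n' b| ≤ 2 N (1 + 1/ρ) 2 = C1`; average over `a = b`. -/
def S_Ulam : Prop :=
  ∀ (P : BP) (B : P.Hd →L[ℝ] P.UT) (n n' : Fin (P.N + 1)), ‖B‖ ≤ 1 →
    |P.tr (P.MB B n' n)| ≤ P.C1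

/-- Traces. Proof: Cauchy-Schwarz (`|I| = k`). -/
def S_Utr : Prop :=
  ∀ (P : BP) (M M' : Matrix P.I P.I ℝ), |P.tr M| ≤ (HS2 M / P.k) ^ (1 / 2 : ℝ) ∧
    |P.tr (M * M')| ≤ (HS2 M / P.k) ^ (1 / 2 : ℝ) * (HS2 M' / P.k) ^ (1 / 2 : ℝ)

/-- The average `M_n(B)` as a sum of traces. Proof: `Xi a u = ∑_{n'} hd u n' a + F a (vp u)`
(`Xi_apply`, `sig (last)` is the sum over all levels). -/
def S_Uav : Prop :=
  ∀ (P : BP) (B : P.Hd →L[ℝ] P.UT) (n : Fin (P.N + 1)),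
    av P.Xi (fun a => B (P.vv n a)) = ∑ n', P.tr (P.MB B n' n) +
      (1 / P.k) * ∑ a, P.Dv.F a (vp (B (P.vv n a)))

/-- The average of a product. Proof: every `u ∈ Hd` is `∑_{n', b} hd u n' b • vv n' b`; hence
`hd (A (B0 (vv n a))) n'' a = ∑_{n', b} hd (B0 (vv n a)) n' b * hd (A (vv n' b)) n'' a =
∑_{n'} (MB A n'' n' * MB B0 n' n) a a`; then as in `S_Uav`. -/
def S_Uprod : Prop :=
  ∀ (P : BP) (A : P.Hd →L[ℝ] P.UT) (B0 : P.Hd →L[ℝ] P.Hd) (n : Fin (P.N + 1)),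
    av P.Xi (fun a => A (B0 (P.vv n a))) =
      ∑ n'', ∑ n', P.tr (P.MB A n'' n' * P.MB (P.Hd.subtypeL.comp B0) n' n) +
      (1 / P.k) * ∑ a, P.Dv.F a (vp (A (B0 (P.vv n a))))

/-- Nearly scalar matrices multiply. Proof: write `τ = P.tr`, `L = N + 1 ≥ 2`, `λ_X, λ_Y` for the scalars at
`(n, n)`; `|τ(M)| ≤ (HS2 M/k)^(1/2)`, `|τ(M M')| ≤ ...` (`S_Utr`); `(HS2 (X i j)/k)^(1/2) ≤ H` always
(`≤ e` off the diagonal, `≤ |λ| + e` on it). In `∑_{i,j} τ(X i j * Y j n)` all terms with `j ≠ n` or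
`i ≠ j` are at most `H e`; the remaining one is `τ(X n n * Y n n) = λ_X λ_Y + λ_X τ(Y - λ_Y) +
λ_Y τ(X - λ_X) + τ((X - λ_X)(Y - λ_Y))`, within `2 H e + e^2` of `λ_X λ_Y`. `∑_i τ(X i n)` is within
`L e` of `λ_X`, similarly for `Y`; the product is within `L e (H + L e) + H L e` of `λ_X λ_Y`. Total
`≤ e (L^2 H + 1 + 2 H + L H + L^2 + H L) ≤ 3 L^2 (H + 1) e` (`e ≤ 1`). -/
def S_matest : Prop :=
  ∀ (P : BP) (X Y : Fin (P.N + 1) → Fin (P.N + 1) → Matrix P.I P.I ℝ) (n : Fin (P.N + 1))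
    (e H : ℝ), 0 ≤ e → e ≤ 1 → 1 ≤ H →
    (∀ i j, i ≠ j → HS2 (X i j) ≤ e ^ 2 * P.k) → (∀ i j, i ≠ j → HS2 (Y i j) ≤ e ^ 2 * P.k) →
    (∀ i, ∃ c : ℝ, |c| ≤ H - 1 ∧ HS2 (X i i - c • (1 : Matrix P.I P.I ℝ)) ≤ e ^ 2 * P.k) →
    (∀ i, ∃ c : ℝ, |c| ≤ H - 1 ∧ HS2 (Y i i - c • (1 : Matrix P.I P.I ℝ)) ≤ e ^ 2 * P.k) →
    |∑ i, ∑ j, P.tr (X i j * Y j n) - (∑ i, P.tr (X i n)) * (∑ j, P.tr (Y j n))| ≤
      3 * (P.N + 1) ^ 2 * (H + 1) * e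

/-- (R5). Proof: by homogeneity `‖A‖ = ‖B‖ = 1` (if one is `0` the left side is `0`). Put
`e = sqrt ε'`, `H = C1 + 2`, `A1 = A ∘ inclusion of Hd`, `B0 = pH ∘ B`, `X = MB A1`, `Y = MB B`
(`= MB (inclusion ∘ B0)`, as `hd (el (hd u) 0) = hd u`). By `S_UBdd`, `RigP ε'`: off-diagonal
`HS2 ≤ e^2 k`, diagonal `HS2 (X i i - c) ≤ e^2 k`, and `|c| ≤ |τ(X i i)| + e ≤ C1 + 1` (`S_Ulam`,
`S_Utr`). `S_matest`: `|∑∑ τ(X Y) - (∑ τ X)(∑ τ Y)| ≤ 3 L^2 (H+1) e`.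
`qV ∘ B : Hd → V` has norm `≤ 1/ρ`, `CT V 3 1`, so by `S_AVG` (`r = 3`, `K = 1`, `S_UC1`)
`(1/k) ∑ ‖vp (B v_a)‖ ≤ q/ρ`, `q = P.qk`; the same for `A1`, and `(1/k) ∑ ‖vp (A1 (B0 v_a))‖ ≤
(1/ρ)(1+1/ρ) q`. `|F a y| ≤ ‖y‖` (`hF2`). Thus (`S_Uav`) `av (A v) = ∑ τ(X i n) + r_A`,
`av (B v) = ∑ τ(Y j n) + r_B`, `|r_A|, |r_B| ≤ q/ρ`, and `|∑ τ| ≤ L H`, `|av (B v)| ≤ 2`, so
`|av A av B - (∑ τ X)(∑ τ Y)| ≤ (q/ρ)(2 + L H)`. `A (B v) = A1 (B0 v) + A (el 0 (vp (B v)))`, the second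
contributes at most `q/ρ` (`S_UiV`, `‖Xi‖ ≤ 1`), the first is given by `S_Uprod` up to
`(1/ρ)(1+1/ρ) q`. Total `≤ 3 L^2 (H+1) e + (L H + 5) q/ρ^2 ≤ (3 L^2 (C1 + 7)/ρ^2)(e + q)`. -/
def S_UR5 : Prop :=
  ∀ (P : BP) (ε' : ℝ), 0 < ε' → ε' ≤ 1 → P.RigP ε' →
    ∀ (n : ℕ) (A : P.UT →L[ℝ] P.UT) (B : P.Hd →L[ℝ] P.UT), n ≤ P.N →
    ‖av P.Xi (fun a => A (B (P.vv n a))) -
      av P.Xi (fun a => A (P.vv n a : P.UT)) * av P.Xi (fun a => B (P.vv n a))‖ ≤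
      (3 * (P.N + 1) ^ 2 * (P.C1 + 7) / P.ρ ^ 2) * (Real.sqrt ε' + P.qk) * ‖A‖ * ‖B‖

/-- The block theorem. Proof: given `s, N, ε, K, r`. Let `ρ = min 1 (ε/(8(N+1)))`, `C1 = 4N(1+1/ρ)`,
`c = 3(N+1)^2(C1+7)/ρ^2`, `e = min 1 (ε/(2c))`, `ε' = e^2`; `k0` from the rigid lemma for
`(s, C1, ε', N)`. Choose `κ` with `k = 2^κ ≥ k0` and so large that `(10k)^(1/s) k^(-1/3) ≤ ε/(2c)`,
`4 k^(1-s/2) ≤ 1/N`, `(2 k^(1-s/2))^(1/s) + 50·2^(-κ/6)/ρ + (N+1) k^(1/s-1/2) ≤ ε/2`,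
`K (10k)^(1/s) k^(-1/r) ≤ ε` (all tend to `0` as `κ → ∞`, since `s > 3`, `s > r`). The rigid lemma for
`I = Fin κ → Bool`, `S = Sw κ` (`OPle 1`, by `Sw_mul_self` and `Sw_symm`) gives `g`. Let
`P = ⟨κ, N, s, ρ, Davie space, g, ...⟩`. The block: `U = P.UT`, `ι = P.I`, `F = P.Hd`, `v = P.vv`,
`Ξ = P.Xi` (norm `≤ 1`: it is a coordinate functional), `D` from `S_UD`, `E = P.Es` (`D` preserves it,
`u - D u ∈ Hd`). `hclose`: `(1/N + 4k^(1-s/2))^(1/s) ≤ (2/N)^(1/s) ≤ (2/N)^(1/4)` as `2/N ≤ 1`.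
`hfr`: `S_UR4`, `ρ + 2(N+1)ρ ≤ 3(N+1)ρ ≤ 3ε/8`. `hmul`: `S_UR5`. -/
def S_block : Prop := BlockThm

/-! ### The sum -/

/-- Choice of the sequence. Proof: recursion over `i`; given the blocks `B j`, `j < i`, let `K ≥ 2` be larger
than constants with `CT (B j).U 3 K` (`hC3`, `S_CTmono`), and apply `BlockThm` with
`s = si i`, `N = Ni i`, `ε = ei i`, `r = si (i+1)` (`3 ≤ si (i+1) < si i ≤ 4`). -/
def S_seq : Prop := ∃ B : BSeq, GoodSeq B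

/-- Diagonal operators on the sum. Proof: `‖T w‖^3 = ∑' ‖T i (w i)‖^3 ≤ C^3 ‖w‖^3`. -/
def S_lpdiag : Prop :=
  ∀ (U : ℕ → Type) [∀ i, NormedAddCommGroup (U i)] [∀ i, NormedSpace ℝ (U i)]
    (T : ∀ i, U i →L[ℝ] U i) (C : ℝ), (∀ i, ‖T i‖ ≤ C) →
    ∃ T' : lp U 3 →L[ℝ] lp U 3, (∀ w i, T' w i = T i (w i)) ∧ ‖T'‖ ≤ C

/-- The chain in the sum. Proof: monotone: clear. Finite-dimensional: `w ∈ VW j` is determined by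
`(w i)_{i<j} ∈ ∏ E_j`. Dense: given `w` and `ε`, truncate (`∑_{i<n} inB i (w i) → w`), approximate each
`w i`, `i < n`, by an element of `(B i).E j_i`, and take `j ≥ n`, `j ≥ j_i`. Invariant: `hDE`. -/
def S_Wasys : Prop :=
  ∀ (B : BSeq) (D : WS B →L[ℝ] WS B), (∀ w i, D w i = (B i).D (w i)) → ASys (VW B) D

/-- The operators `G`. Proof: `G m w i = w i - D (w i)` for `i < m` and `0` for `i ≥ m`
(`S_lpdiag`, norm `≤ 4`). Its values lie in `F ≤ E 0 ≤ E m` for `i < m` (`hDF`, `hFE`), so in `VW m`. It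
preserves `VW j` (each component: `x - D x` with `x ∈ E j`) and commutes with `D`. Convergence:
`‖(w - D w) - G m w‖^3 = ∑_{i ≥ m} ‖w i - D (w i)‖^3 → 0`. -/
def S_WG : Prop :=
  ∀ (B : BSeq) (D : WS B →L[ℝ] WS B), (∀ w i, D w i = (B i).D (w i)) →
    ∃ G : ℕ → WS B →L[ℝ] WS B, (∀ i, ‖G i‖ ≤ 4) ∧ (∀ i j, ∀ x ∈ VW B j, G i x ∈ VW B j) ∧
      (∀ i, ∃ m, ∀ x, G i x ∈ VW B m) ∧ (∀ i x, D (G i x) = G i (D x)) ∧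
      ∀ w, Tendsto (fun i => G i w) atTop (𝓝 (w - D w))

/-- (H7) in the sum. Proof: let `C w = inB i (prB i (C w)) + R w`, `R w` having zero `i`-th coordinate,
`‖R‖ ≤ ‖C‖`. The vectors `y_a = R v_a` have zero `i`-th coordinate; for `j < i`: `CT (B j).U 3 K` hence
`CT (B j).U r K` with `r = si (i+1) ≥ 3`, for `j > i`: `CT (B j).U (si j) 2`, `si j ≤ r`, `2 ≤ K`
(`hC2`, `S_CTmono`). By `S_CTlp` (reindexed from `Fin m` by `Fintype.equivFin`) and `S_avg` (with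
`R = ‖C‖^3 (10k)^(3/s)`, `hC1`) `(1/k) ∑ ‖R v_a‖ ≤ K ‖C‖ (10k)^(1/s) k^(-1/r) ≤ ei i ‖C‖`. So
replacing `C` by `inB i ∘ prB i ∘ C` changes the first average by at most `ei i ‖A‖ ‖C‖` (`‖Ξ‖ ≤ 1`,
`‖prB‖ ≤ 1`) and does not change the third; apply `hmul` of the block to
`prB i ∘ A ∘ inB i` and `prB i ∘ C`. -/
def S_Wmul : Prop :=
  ∀ (B : BSeq), GoodSeq B → ∀ (i n : ℕ) (A : WS B →L[ℝ] WS B) (C : (B i).F →L[ℝ] WS B),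
    n ≤ Ni i →
    ‖av (B i).Ξ (fun a => prB B i (A (C ((B i).v n a)))) -
      av (B i).Ξ (fun a => prB B i (A (inB B i ((B i).v n a : (B i).U)))) *
        av (B i).Ξ (fun a => prB B i (C ((B i).v n a)))‖ ≤ 2 * ei i * ‖A‖ * ‖C‖

/-- The frames. Proof: `N = Ni`, `ι i = (B i).ι`, `F i = (B i).F.map (inB B i)`, `jj i = i + 1`,
`v i n a = inB (v n a)`, `Ξ i a = Ξ_a ∘ prB`, `ν i = (2/Ni i)^(1/4)`, `ε i = 2 ei i`. `inB` is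
isometric, `prB (inB x) = x`. `hF`: the `i`-th component is in `F ≤ E 0 ≤ E (i+1)`, the others are `0`.
`hfr`: `prB ∘ T ∘ inB` has finite rank and norm `≤ ‖T‖`. `hmul`: `S_Wmul` with `C = B ∘ (x ↦ inB x)`,
where `x ↦ inB x` is a map `(B i).F → F i` of norm `≤ 1`. `hup`: `x i = inB i (y_i)`,
`‖∑_{i ∈ S} c i • x i‖^3 = ∑_{i ∈ S} (‖c i‖ ‖y_i‖)^3 ≤ 8 |S|`. -/
def S_Wframes : Prop :=
  ∀ (B : BSeq) (D : WS B →L[ℝ] WS B), (∀ w i, D w i = (B i).D (w i)) → GoodSeq B →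
    Nonempty (Frames (VW B) D)

/-- **The main theorem**: a Banach space with an approximative basis without a commuting one. Proof: take
`B` by `S_seq`, `D` by `S_lpdiag` (`hD`), `W = WS B` (complete), `X = XS (VW B) D`, complete by
`p_completeX`; `HasAB` by `p_AB` with `S_Wasys`, `S_WG`; `¬ HasCAB` by `p_noCAB` and `S_Wframes`. -/
def S_final : Prop :=
  ∃ (X : Type) (_ : NormedAddCommGroup X) (_ : NormedSpace ℝ X), CompleteSpace X ∧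
    HasAB ℝ X ∧ ¬ HasCAB ℝ X

end Pool.Agent.Lib.MP_355270_an.CB
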